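import Mathlib.Algebra.MvPolynomial.Eval
import Mathlib.Analysis.Complex.Basic
import Mathlib.SetTheory.Ordinal.Basic

/-!
# Pfister's bound is not optimal, row CL1 (MP_b906c2_al)

A real polynomial with values `± i` on a finite set of complex points closed under conjugation
and without real points.
-/

set_option autoImplicit false

namespace Pool.Agent.PFI

open MvPolynomial

/-- interpolation at finitely many complex points -/
theorem interp_complex {κ : Type} (F : Finset (κ → ℂ)) (g : (κ → ℂ) → ℂ) :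
    ∃ H : MvPolynomial κ ℂ, ∀ s ∈ F, MvPolynomial.eval s H = g s := by
  classical
  have hl : ∀ s s' : κ → ℂ, ∃ l : MvPolynomial κ ℂ, s ≠ s' →
      MvPolynomial.eval s l = 1 ∧ MvPolynomial.eval s' l = 0 := by
    intro s s'
    by_cases h : s = s'
    · exact ⟨0, fun h' => absurd h h'⟩
    · obtain ⟨i, hi⟩ := Function.ne_iff.mp h
      refine ⟨C ((s i - s' i)⁻¹) * (X i - C (s' i)), fun _ => ⟨?_, ?_⟩⟩
      · have : s i - s' i ≠ 0 := sub_ne_zero.mpr hi
        simp [this]
      · simp
  choose l hl using hl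
  refine ⟨∑ s ∈ F, C (g s) * ∏ s' ∈ F.erase s, l s s', fun s hs => ?_⟩
  rw [map_sum, Finset.sum_eq_single_of_mem s hs]
  · rw [map_mul, eval_C, map_prod, Finset.prod_eq_one, mul_one]
    intro s' hs'
    exact (hl s s' (Finset.ne_of_mem_erase hs').symm).1
  · intro t ht hts
    rw [map_mul, map_prod, Finset.prod_eq_zero (i := s) (Finset.mem_erase.mpr ⟨hts.symm, hs⟩),
      mul_zero]
    exact (hl t s hts).2

/-- real and imaginary part of a complex polynomial -/
theorem exists_re_im {κ : Type} (H : MvPolynomial κ ℂ) :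
    ∃ A B : MvPolynomial κ ℝ, ∀ s : κ → ℂ,
      MvPolynomial.eval s H = MvPolynomial.aeval s A + Complex.I * MvPolynomial.aeval s B := by
  induction H using MvPolynomial.induction_on with
  | C a =>
    refine ⟨C a.re, C a.im, fun s => ?_⟩
    rw [eval_C, aeval_C, aeval_C]
    simp only [Complex.coe_algebraMap]
    rw [mul_comm]
    exact (Complex.re_add_im a).symm
  | add p q hp hq =>
    obtain ⟨A, B, h⟩ := hp
    obtain ⟨A', B', h'⟩ := hq
    refine ⟨A + A', B + B', fun s => ?_⟩
    rw [map_add, h, h', map_add, map_add]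
    ring
  | mul_X p i hp =>
    obtain ⟨A, B, h⟩ := hp
    refine ⟨A * X i, B * X i, fun s => ?_⟩
    rw [map_mul, eval_X, h, map_mul, map_mul, aeval_X]
    ring

theorem star_aeval {κ : Type} (A : MvPolynomial κ ℝ) (s : κ → ℂ) :
    star (MvPolynomial.aeval (fun i => star (s i)) A) = MvPolynomial.aeval s A := by
  have h := MvPolynomial.comp_aeval_apply (fun i => star (s i)) (Complex.conjAe : ℂ →ₐ[ℝ] ℂ) A
  have h2 : (fun i => (Complex.conjAe : ℂ →ₐ[ℝ] ℂ) (star (s i))) = s := by
    funext i
    simp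
  rw [h2] at h
  exact h

theorem CL1 {κ : Type} [Fintype κ] (T : Set (κ → ℂ)) (hT : T.Finite)
    (hconj : ∀ s ∈ T, (fun i => star (s i)) ∈ T) (hreal : ∀ s ∈ T, ∃ i, (s i).im ≠ 0) :
    ∃ h : MvPolynomial κ ℝ, ∀ s ∈ T, (MvPolynomial.aeval s h) ^ 2 = -1 := by
  classical
  let cj : (κ → ℂ) → (κ → ℂ) := fun s i => star (s i)
  have hcc : ∀ s, cj (cj s) = s := fun s => by
    funext i
    exact star_star (s i)
  let ε : (κ → ℂ) → ℂ := fun s => if WellOrderingRel s (cj s) then 1 else -1
  have hne : ∀ s ∈ T, s ≠ cj s := by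
    intro s hs h
    obtain ⟨i, hi⟩ := hreal s hs
    apply hi
    have h1 : s i = star (s i) := congrFun h i
    exact Complex.conj_eq_iff_im.mp h1.symm
  have hodd : ∀ s ∈ T, ε (cj s) = - ε s := by
    intro s hs
    simp only [ε, hcc]
    rcases trichotomous_of WellOrderingRel s (cj s) with h | h | h
    · rw [if_pos h, if_neg (asymm_of WellOrderingRel h)]
    · exact absurd h (hne s hs)
    · rw [if_pos h, if_neg (asymm_of WellOrderingRel h), neg_neg]
  have hreal' : ∀ s, star (ε s) = ε s := by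
    intro s
    simp only [ε]
    split_ifs <;> simp
  have hsq : ∀ s, ε s ^ 2 = 1 := by
    intro s
    simp only [ε]
    split_ifs <;> norm_num
  obtain ⟨H, hH⟩ := interp_complex hT.toFinset fun s => Complex.I * ε s
  obtain ⟨A, B, hAB⟩ := exists_re_im H
  refine ⟨A, fun s hs => ?_⟩
  have h1 := hH s (hT.mem_toFinset.mpr hs)
  have h2 := hH (cj s) (hT.mem_toFinset.mpr (hconj s hs))
  rw [hAB] at h1 h2
  have h3 : star (MvPolynomial.aeval (cj s) A) = MvPolynomial.aeval s A := star_aeval A s
  have h4 : star (MvPolynomial.aeval (cj s) B) = MvPolynomial.aeval s B := star_aeval B s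
  have h5 := congrArg star h2
  rw [star_add, star_mul', star_mul', h3, h4, hodd s hs, star_neg, hreal'] at h5
  have hI : star Complex.I = -Complex.I := Complex.conj_I
  rw [hI] at h5
  have h6 : MvPolynomial.aeval s A = Complex.I * ε s := by
    linear_combination (1 / 2 : ℂ) * h1 + (1 / 2 : ℂ) * h5
  rw [h6, mul_pow, hsq, Complex.I_sq, mul_one]

end Pool.Agent.PFI
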