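import Pool.Agent.PFI.Defs

/-!
# The compact set of the normalised values
-/

set_option autoImplicit false

namespace Pool.Agent.PFI

open Polynomial Pool.Agent.PDF

namespace ZCaux

/-- bound for the roots of a monic polynomial -/
theorem root_bound {e : ℕ} (a : Fin e → ℂ) (B : Fin e → ℝ) (hB : ∀ k, ‖a k‖ ≤ B k) (w : ℂ)
    (hw : w ^ e + ∑ k : Fin e, a k * w ^ (k : ℕ) = 0) : ‖w‖ ≤ 1 + ∑ k, B k := by
  have hB0 : ∀ k, 0 ≤ B k := fun k => (norm_nonneg _).trans (hB k)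
  have hS : 0 ≤ ∑ k, B k := Finset.sum_nonneg fun k _ => hB0 k
  by_cases h1 : ‖w‖ ≤ 1
  · linarith
  push Not at h1
  rcases Nat.eq_zero_or_pos e with he | he
  · subst he
    simp at hw
  · obtain ⟨n, rfl⟩ : ∃ n, e = n + 1 := ⟨e - 1, by omega⟩
    have h2 : ‖w‖ ^ (n + 1) ≤ (∑ k, B k) * ‖w‖ ^ n := by
      have h3 : w ^ (n + 1) = - ∑ k : Fin (n + 1), a k * w ^ (k : ℕ) := by
        linear_combination hw
      calc ‖w‖ ^ (n + 1) = ‖w ^ (n + 1)‖ := (norm_pow _ _).symm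
        _ = ‖∑ k : Fin (n + 1), a k * w ^ (k : ℕ)‖ := by rw [h3, norm_neg]
        _ ≤ ∑ k : Fin (n + 1), ‖a k * w ^ (k : ℕ)‖ := norm_sum_le _ _
        _ ≤ ∑ k : Fin (n + 1), B k * ‖w‖ ^ n := by
            refine Finset.sum_le_sum fun k _ => ?_
            rw [norm_mul, norm_pow]
            refine mul_le_mul (hB k) ?_ (by positivity) (hB0 k)
            exact pow_le_pow_right₀ h1.le (by omega)
        _ = _ := by rw [Finset.sum_mul]
    have h4 : 0 < ‖w‖ ^ n := by positivity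
    rw [pow_succ, mul_comm] at h2
    have h5 := le_of_mul_le_mul_right h2 h4
    linarith

theorem root_finite {e : ℕ} (a : Fin e → ℂ) :
    {w : ℂ | w ^ e + ∑ k : Fin e, a k * w ^ (k : ℕ) = 0}.Finite := by
  set p : ℂ[X] := X ^ e + ∑ k : Fin e, C (a k) * X ^ (k : ℕ) with hp
  have hdeg : (∑ k : Fin e, C (a k) * X ^ (k : ℕ)).degree < (e : WithBot ℕ) := by
    refine lt_of_le_of_lt (Polynomial.degree_sum_le _ _) ?_
    rw [Finset.sup_lt_iff (by exact WithBot.bot_lt_coe e)]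
    intro k _
    refine lt_of_le_of_lt (degree_C_mul_X_pow_le _ _) ?_
    exact_mod_cast k.2
  have hmon : p.Monic := monic_X_pow_add hdeg
  have hp0 : p ≠ 0 := hmon.ne_zero
  refine (Polynomial.finite_setOfPred_isRoot hp0).subset ?_
  intro w hw
  simp only [Set.mem_ofPred_eq] at hw ⊢
  rw [IsRoot.def, hp]
  simp only [eval_add, eval_pow, eval_X, eval_finsetSum, eval_mul, eval_C]
  exact hw

variable {N : ℕ} {ι : Type} [Fintype ι] (C : Fin (N + 1) → ι → ℝ) (e : ι → ℕ)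
    (c : (i : ι) → Fin (e i) → MvPolynomial (Fin (N + 1)) ℝ)

theorem sphere_compact : IsCompact {ω : Fin (N + 1) → ℝ | ∑ a, ω a ^ 2 = 1} := by
  refine Metric.isCompact_of_isClosed_isBounded (isClosed_eq (by fun_prop) (by fun_prop)) ?_
  refine (Metric.isBounded_closedBall (x := (0 : Fin (N + 1) → ℝ)) (r := 1)).subset ?_
  intro ω hω
  rw [Metric.mem_closedBall, dist_zero_right, pi_norm_le_iff_of_nonneg zero_le_one]
  intro a
  have h1 : ω a ^ 2 ≤ ∑ a, ω a ^ 2 :=
    Finset.single_le_sum (f := fun a => ω a ^ 2) (fun a _ => sq_nonneg _) (Finset.mem_univ a)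
  rw [hω] at h1
  rw [Real.norm_eq_abs]
  exact abs_le_one_iff_mul_self_le_one.2 (by nlinarith)

theorem Z0_compact : IsCompact (Z0 C e c) := by
  have hbd : ∀ i (k : Fin (e i)), ∃ B : ℝ, ∀ ω ∈ {ω : Fin (N + 1) → ℝ | ∑ a, ω a ^ 2 = 1},
      ‖MvPolynomial.eval ω (c i k)‖ ≤ B := fun i k =>
    sphere_compact.exists_bound_of_continuousOn (MvPolynomial.continuous_eval _).continuousOn
  choose B hB using hbd
  refine Metric.isCompact_of_isClosed_isBounded ?_ ?_
  · have hev : ∀ i k, Continuous (fun z : (Fin (N + 1) → ℝ) × (ι → ℂ) =>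
        MvPolynomial.eval z.1 (c i k)) := fun i k =>
      (MvPolynomial.continuous_eval (c i k)).comp continuous_fst
    have e1 : IsClosed {z : (Fin (N + 1) → ℝ) × (ι → ℂ) | ∑ a, z.1 a ^ 2 = 1} :=
      isClosed_eq (by fun_prop) (by fun_prop)
    have e2 : IsClosed {z : (Fin (N + 1) → ℝ) × (ι → ℂ) | ∑ i, z.2 i ^ 2 = 0} :=
      isClosed_eq (by fun_prop) (by fun_prop)
    have e3 : IsClosed {z : (Fin (N + 1) → ℝ) × (ι → ℂ) |
        ∀ a, ∑ i, (C a i : ℂ) * z.2 i = (z.1 a : ℂ)} := by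
      rw [Set.ofPred_forall]
      exact isClosed_iInter fun a => isClosed_eq (by fun_prop) (by fun_prop)
    have e4 : IsClosed {z : (Fin (N + 1) → ℝ) × (ι → ℂ) |
        ∀ i, z.2 i ^ (e i) + ∑ k : Fin (e i), ((MvPolynomial.eval z.1 (c i k) : ℝ) : ℂ) *
          z.2 i ^ (k : ℕ) = 0} := by
      rw [Set.ofPred_forall]
      refine isClosed_iInter fun i => isClosed_eq ?_ (by fun_prop)
      refine Continuous.add (by fun_prop) ?_
      refine continuous_finsetSum _ fun k _ => Continuous.mul ?_ (by fun_prop)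
      exact Complex.continuous_ofReal.comp (hev i k)
    have h5 := ((e1.inter e2).inter e3).inter e4
    have h6 : Z0 C e c = {z : (Fin (N + 1) → ℝ) × (ι → ℂ) | ∑ a, z.1 a ^ 2 = 1} ∩
        {z : (Fin (N + 1) → ℝ) × (ι → ℂ) | ∑ i, z.2 i ^ 2 = 0} ∩
        {z : (Fin (N + 1) → ℝ) × (ι → ℂ) | ∀ a, ∑ i, (C a i : ℂ) * z.2 i = (z.1 a : ℂ)} ∩
        {z : (Fin (N + 1) → ℝ) × (ι → ℂ) |
          ∀ i, z.2 i ^ (e i) + ∑ k : Fin (e i), ((MvPolynomial.eval z.1 (c i k) : ℝ) : ℂ) *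
            z.2 i ^ (k : ℕ) = 0} := by
      ext z
      exact ⟨fun ⟨a, b, c, d⟩ => ⟨⟨⟨a, b⟩, c⟩, d⟩, fun ⟨⟨⟨a, b⟩, c⟩, d⟩ => ⟨a, b, c, d⟩⟩
    rw [h6]
    exact h5
  · refine (Metric.isBounded_closedBall (x := (0 : (Fin (N + 1) → ℝ) × (ι → ℂ)))
      (r := 1 + ∑ i, (1 + ∑ k, |B i k|))).subset ?_
    rintro ⟨ω, w⟩ ⟨h1, -, -, h4⟩
    have hS : 0 ≤ ∑ i, (1 + ∑ k, |B i k|) :=
      Finset.sum_nonneg fun i _ => add_nonneg zero_le_one
        (Finset.sum_nonneg fun k _ => abs_nonneg _)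
    rw [Metric.mem_closedBall, dist_zero_right, Prod.norm_def, max_le_iff]
    constructor
    · rw [pi_norm_le_iff_of_nonneg (by positivity)]
      intro a
      have h5 : ω a ^ 2 ≤ ∑ a, ω a ^ 2 :=
        Finset.single_le_sum (f := fun a => ω a ^ 2) (fun a _ => sq_nonneg _) (Finset.mem_univ a)
      have h1' : ∑ a, ω a ^ 2 = 1 := h1
      rw [h1'] at h5
      rw [Real.norm_eq_abs]
      exact (abs_le_one_iff_mul_self_le_one.2 (by nlinarith)).trans (by linarith)
    · rw [pi_norm_le_iff_of_nonneg (by positivity)]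
      intro i
      have h5 := root_bound (fun k => ((MvPolynomial.eval ω (c i k) : ℝ) : ℂ))
        (fun k => |B i k|) (fun k => by
          rw [Complex.norm_real]
          exact (hB i k ω h1).trans (le_abs_self _)) (w i) (h4 i)
      refine h5.trans ?_
      have h6 : (1 + ∑ k, |B i k|) ≤ ∑ i, (1 + ∑ k, |B i k|) :=
        Finset.single_le_sum (f := fun i => (1 + ∑ k, |B i k|))
          (fun i _ => add_nonneg zero_le_one (Finset.sum_nonneg fun k _ => abs_nonneg _))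
          (Finset.mem_univ i)
      linarith

end ZCaux

open ZCaux in
theorem ZC {N : ℕ} {ι : Type} [Fintype ι] (C : Fin (N + 1) → ι → ℝ) (e : ι → ℕ)
    (c : (i : ι) → Fin (e i) → MvPolynomial (Fin (N + 1)) ℝ) :
    IsCompact (ZZ C e c) ∧ (∀ z ∈ ZZ C e c, (z.1, fun i => star (z.2 i)) ∈ ZZ C e c) ∧
      (∀ b, {s | (b, s) ∈ ZZ C e c}.Finite) ∧ (∀ z ∈ ZZ C e c, ∃ i, (z.2 i).im ≠ 0) := by
  refine ⟨?_, ?_, ?_, ?_⟩
  · exact (Z0_compact C e c).image (by fun_prop)
  · rintro _ ⟨⟨ω, w⟩, ⟨h1, h2, h3, h4⟩, rfl⟩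
    refine ⟨(ω, fun i => star (w i)), ⟨h1, ?_, ?_, ?_⟩, ?_⟩
    · have h5 := congrArg star h2
      simpa [star_sum, star_pow] using h5
    · intro a
      have h5 := congrArg star (h3 a)
      simpa [star_sum, star_mul', Complex.conj_ofReal] using h5
    · intro i
      have h5 := congrArg star (h4 i)
      simpa [star_sum, star_mul', star_pow, Complex.conj_ofReal] using h5
    · ext1
      · rfl
      · ext p
        simp [Complex.conj_ofReal]
  · intro b
    have hΩ : {ω : Fin (N + 1) → ℝ | ∀ a, ω a ^ 2 = b (a, a)}.Finite := by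
      have h1 : ∀ β : ℝ, {x : ℝ | x ^ 2 = β}.Finite := by
        intro β
        refine (Set.toFinite {Real.sqrt β, - Real.sqrt β}).subset ?_
        intro x hx
        simp only [Set.mem_ofPred_eq] at hx
        simp only [Set.mem_insert_iff, Set.mem_singleton_iff]
        have h2 : Real.sqrt β ^ 2 = β := Real.sq_sqrt (by rw [← hx]; positivity)
        exact sq_eq_sq_iff_eq_or_eq_neg.1 (hx.trans h2.symm)
      exact Set.Finite.pi' fun a => h1 _
    have hW : ∀ ω : Fin (N + 1) → ℝ, {w : ι → ℂ | ∀ i, w i ^ (e i) + ∑ k : Fin (e i),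
        ((MvPolynomial.eval ω (c i k) : ℝ) : ℂ) * w i ^ (k : ℕ) = 0}.Finite :=
      fun ω => Set.Finite.pi' fun i => root_finite _
    refine (hΩ.biUnion (t := fun ω => (fun w : ι → ℂ => fun p : Fin (N + 1) × ι =>
      (ω p.1 : ℂ) * w p.2) '' {w : ι → ℂ | ∀ i, w i ^ (e i) + ∑ k : Fin (e i),
        ((MvPolynomial.eval ω (c i k) : ℝ) : ℂ) * w i ^ (k : ℕ) = 0})
      (fun ω _ => (hW ω).image _)).subset ?_
    rintro s ⟨⟨ω, w⟩, ⟨h1, h2, h3, h4⟩, h5⟩
    have h6 : (fun p : Fin (N + 1) × Fin (N + 1) => ω p.1 * ω p.2) = b := congrArg Prod.fst h5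
    have h7 : (fun p : Fin (N + 1) × ι => (ω p.1 : ℂ) * w p.2) = s := congrArg Prod.snd h5
    refine Set.mem_biUnion (x := ω) ?_ ⟨w, h4, h7⟩
    intro a
    rw [← h6, sq]
  · rintro _ ⟨⟨ω, w⟩, ⟨h1, h2, h3, h4⟩, rfl⟩
    by_contra hcon
    push Not at hcon
    have h1' : ∑ a, ω a ^ 2 = 1 := h1
    have h2' : ∑ i, w i ^ 2 = 0 := h2
    have h3' : ∀ a, ∑ i, (C a i : ℂ) * w i = (ω a : ℂ) := h3
    have him : ∀ a i, ω a * (w i).im = 0 := by
      intro a i
      have h5 := hcon (a, i)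
      simpa using h5
    have hne : ∃ a, ω a ≠ 0 := by
      by_contra hall
      push Not at hall
      simp [hall] at h1'
    obtain ⟨a, ha⟩ := hne
    have hw : ∀ i, (w i).im = 0 := fun i => by
      rcases mul_eq_zero.1 (him a i) with h | h
      · exact absurd h ha
      · exact h
    have hw2 : ∀ i, w i = ((w i).re : ℂ) := fun i => by
      apply Complex.ext
      · simp
      · simp [hw i]
    have hsum : ∑ i, (w i).re ^ 2 = 0 := by
      have h5 : ((∑ i, (w i).re ^ 2 : ℝ) : ℂ) = 0 := by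
        rw [← h2']
        push_cast
        exact Finset.sum_congr rfl fun i _ => by rw [← hw2 i]
      exact_mod_cast h5
    have hre : ∀ i, (w i).re = 0 := fun i => by
      have h5 := (Finset.sum_eq_zero_iff_of_nonneg (fun i _ => sq_nonneg (w i).re)).1 hsum i
        (Finset.mem_univ i)
      exact pow_eq_zero_iff two_ne_zero |>.1 h5
    have hw0 : ∀ i, w i = 0 := fun i => by rw [hw2 i, hre i]; simp
    have h6 := h3' a
    simp only [hw0, mul_zero, Finset.sum_const_zero] at h6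
    exact ha (by exact_mod_cast h6.symm)

end Pool.Agent.PFI
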