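import Pool.Agent.PFI.Defs

/-!
# Row ZI of the project PFI (MP_b906c2_al): integrality
-/

set_option autoImplicit false

namespace Pool.Agent.PFI

open Polynomial Pool.Agent.PDF

namespace ZIaux

/-- `(1, X₁, …, X_N)` as polynomials -/
noncomputable def vp (N : ℕ) : Fin (N + 1) → RP N := Fin.cons 1 MvPolynomial.X

theorem vv_eq (N : ℕ) (a : Fin (N + 1)) : vv N a = algebraMap (RP N) (kk N) (vp N a) := by
  refine Fin.cases ?_ (fun i => ?_) a <;> simp [vv, vp]

theorem aeval_vv (N : ℕ) (c : MvPolynomial (Fin (N + 1)) ℝ) :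
    MvPolynomial.aeval (vv N) c = algebraMap (RP N) (kk N) (MvPolynomial.aeval (vp N) c) := by
  rw [← MvPolynomial.aeval_algebraMap_apply]
  congr 2
  funext a
  exact vv_eq N a

section

variable {N : ℕ} {L : Type} [Field L] [Algebra (kk N) L] [Algebra (RP N) L]
    [IsScalarTower (RP N) (kk N) L]

theorem integral_vv (a : Fin (N + 1)) : IsIntegral (RP N) (algebraMap (kk N) L (vv N a)) := by
  rw [vv_eq, ← IsScalarTower.algebraMap_apply]
  exact isIntegral_algebraMap

theorem integral_rr : IsIntegral (RP N) (algebraMap (kk N) L (rr N)) := by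
  rw [rr, map_sum]
  refine IsIntegral.sum _ fun a _ => ?_
  rw [map_pow]
  exact (integral_vv a).pow 2

theorem integral_real (x : ℝ) :
    IsIntegral (RP N) (((algebraMap (kk N) L).comp (algebraMap ℝ (kk N))) x) := by
  rw [RingHom.comp_apply, IsScalarTower.algebraMap_apply ℝ (RP N) (kk N),
    ← IsScalarTower.algebraMap_apply (RP N) (kk N) L]
  exact isIntegral_algebraMap

/-- an element satisfying a monic equation with coefficients in `ℝ[1, X₁, …, X_N]` is integral -/
theorem integral_of_eq (x : L) (e : ℕ) (c : Fin e → MvPolynomial (Fin (N + 1)) ℝ)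
    (h : x ^ e + ∑ k : Fin e, algebraMap (kk N) L (MvPolynomial.aeval (vv N) (c k)) *
      x ^ (k : ℕ) = 0) : IsIntegral (RP N) x := by
  refine ⟨X ^ e + ∑ k : Fin e, C (MvPolynomial.aeval (vp N) (c k)) * X ^ (k : ℕ),
    monic_X_pow_add (degree_sum_fin_lt _), ?_⟩
  rw [eval₂_add, eval₂_X_pow, eval₂_finsetSum, ← h]
  congr 1
  refine Finset.sum_congr rfl fun k _ => ?_
  rw [eval₂_mul, eval₂_C, eval₂_X_pow, aeval_vv, ← IsScalarTower.algebraMap_apply]

end

end ZIaux

open ZIaux

theorem ZI {N : ℕ} {L ι : Type} [Field L] [Algebra (kk N) L] [Algebra (RP N) L]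
    [IsScalarTower (RP N) (kk N) L] [Fintype ι] {w : ι → L} {C : Fin (N + 1) → ι → ℝ}
    (hS : Setup N L ι w C) :
    (∀ i, IsIntegral (RP N) (w i)) ∧
    ∀ (g : MvPolynomial ((Fin (N + 1) × Fin (N + 1)) ⊕ (Fin (N + 1) × ι)) ℝ) (k : ℕ),
      g.totalDegree ≤ k → IsIntegral (RP N) (algebraMap (kk N) L (rr N) ^ k *
        MvPolynomial.eval₂ ((algebraMap (kk N) L).comp (algebraMap ℝ (kk N))) (us w) g) := by
  have hw : ∀ i, IsIntegral (RP N) (w i) := by
    intro i
    obtain ⟨e, c, -, h⟩ := hS.int i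
    exact integral_of_eq (w i) e c h
  refine ⟨hw, fun g k hg => ?_⟩
  have hus : ∀ j, IsIntegral (RP N) (algebraMap (kk N) L (rr N) * us (N := N) w j) := by
    rintro (⟨a, b⟩ | ⟨a, i⟩)
    · have : algebraMap (kk N) L (rr N) * us (N := N) w (Sum.inl (a, b)) =
          algebraMap (kk N) L (vv N a) * algebraMap (kk N) L (vv N b) := by
        simp only [us, Sum.elim_inl, ← map_mul]
        congr 1
        field_simp [rr_ne N]
      rw [this]
      exact (integral_vv a).mul (integral_vv b)
    · have : algebraMap (kk N) L (rr N) * us (N := N) w (Sum.inr (a, i)) =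
          algebraMap (kk N) L (vv N a) * w i := by
        simp only [us, Sum.elim_inr, ← mul_assoc, ← map_mul]
        congr 2
        field_simp [rr_ne N]
      rw [this]
      exact (integral_vv a).mul (hw i)
  rw [MvPolynomial.eval₂_eq, Finset.mul_sum]
  refine IsIntegral.sum _ fun m hm => ?_
  have hmk : ∑ j ∈ m.support, m j ≤ k :=
    le_trans (MvPolynomial.le_totalDegree hm) hg
  have : algebraMap (kk N) L (rr N) ^ k *
      (((algebraMap (kk N) L).comp (algebraMap ℝ (kk N))) (MvPolynomial.coeff m g) *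
        ∏ j ∈ m.support, us (N := N) w j ^ m j) =
      ((algebraMap (kk N) L).comp (algebraMap ℝ (kk N))) (MvPolynomial.coeff m g) *
        (algebraMap (kk N) L (rr N) ^ (k - ∑ j ∈ m.support, m j) *
        ∏ j ∈ m.support, (algebraMap (kk N) L (rr N) * us (N := N) w j) ^ m j) := by
    simp only [mul_pow, Finset.prod_mul_distrib, Finset.prod_pow_eq_pow_sum]
    rw [← mul_assoc (algebraMap (kk N) L (rr N) ^ (k - _)), ← pow_add,
      Nat.sub_add_cancel hmk]
    ring
  rw [this]
  refine (integral_real _).mul ((integral_rr.pow _).mul ?_)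
  refine IsIntegral.prod _ fun j _ => (hus j).pow _

end Pool.Agent.PFI
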