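import Pool.Agent.PFI.Defs

/-!
# Values of specialisations lie in the compact set `ZZ` (row ZV)
-/

set_option autoImplicit false

namespace Pool.Agent.PFI

open Pool.Agent.PDF

namespace ZVaux

theorem hz {J A : Type} [CommRing A] (f : ℝ →+* A) (ρ : A) (u U : J → A)
    (hU : ∀ j, U j = ρ * u j) (g : MvPolynomial J ℝ) (k : ℕ) (hk : g.totalDegree ≤ k) :
    ρ ^ k * MvPolynomial.eval₂ f u g = ∑ m ∈ g.support, f (g.coeff m) *
      (ρ ^ (k - m.sum fun _ n => n) * ∏ j ∈ m.support, U j ^ m j) := by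
  rw [MvPolynomial.eval₂_eq, Finset.mul_sum]
  refine Finset.sum_congr rfl fun m hm => ?_
  have h1 : (m.sum fun _ n => n) ≤ k := (MvPolynomial.le_totalDegree hm).trans hk
  have h2 : ∏ j ∈ m.support, U j ^ m j =
      ρ ^ (m.sum fun _ n => n) * ∏ j ∈ m.support, u j ^ m j := by
    rw [Finsupp.sum, ← Finset.prod_pow_eq_pow_sum, ← Finset.prod_mul_distrib]
    exact Finset.prod_congr rfl fun j _ => by rw [hU, mul_pow]
  rw [h2]
  have h3 : ρ ^ k = ρ ^ (k - m.sum fun _ n => n) * ρ ^ (m.sum fun _ n => n) := by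
    rw [← pow_add, Nat.sub_add_cancel h1]
  rw [h3]
  ring

/-- `(1, X₁, …, X_N)` over the polynomial ring -/
noncomputable def vp (N : ℕ) : Fin (N + 1) → RP N := Fin.cons 1 (fun i => MvPolynomial.X i)

theorem vp_map (N : ℕ) (a : Fin (N + 1)) : algebraMap (RP N) (kk N) (vp N a) = vv N a := by
  cases a using Fin.cases <;> simp [vp, vv]

theorem aeval_vv (N : ℕ) (c : MvPolynomial (Fin (N + 1)) ℝ) :
    MvPolynomial.aeval (vv N) c = algebraMap (RP N) (kk N) (MvPolynomial.aeval (vp N) c) := by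
  have h : vv N = algebraMap (RP N) (kk N) ∘ vp N := by
    funext a
    exact (vp_map N a).symm
  rw [h, MvPolynomial.aeval_algebraMap_apply]

theorem eval_vp {N : ℕ} (y : Fin N → ℝ) (a : Fin (N + 1)) :
    MvPolynomial.eval y (vp N a) = vr y a := by
  cases a using Fin.cases <;> simp [vp, vr]

theorem eval_aeval_vp {N : ℕ} (y : Fin N → ℝ) (c : MvPolynomial (Fin (N + 1)) ℝ) :
    MvPolynomial.eval y (MvPolynomial.aeval (vp N) c) = MvPolynomial.eval (vr y) c := by
  rw [MvPolynomial.map_aeval]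
  have h1 : (MvPolynomial.eval y).comp (algebraMap ℝ (RP N)) = RingHom.id ℝ := by
    ext a
    simp [MvPolynomial.algebraMap_eq]
  have h2 : (fun i => MvPolynomial.eval y (vp N i)) = vr y := funext (eval_vp y)
  rw [h1, h2]
  rfl

theorem nr_pos {N : ℕ} (y : Fin N → ℝ) : 0 < nr y := by
  have h : (1 : ℝ) ≤ nr y := by
    unfold nr
    rw [Fin.sum_univ_succ]
    have h1 : (vr y 0) ^ 2 = 1 := by simp [vr]
    rw [h1]
    have h2 : 0 ≤ ∑ i : Fin N, vr y i.succ ^ 2 := Finset.sum_nonneg fun i _ => sq_nonneg _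
    linarith
  linarith

theorem isInt {N : ℕ} {L : Type} [Field L] [Algebra (kk N) L] [Algebra (RP N) L]
    [IsScalarTower (RP N) (kk N) L] (w : L) (e : ℕ)
    (c : Fin e → MvPolynomial (Fin (N + 1)) ℝ)
    (hw : w ^ e + ∑ k : Fin e, algebraMap (kk N) L
      (MvPolynomial.aeval (vv N) (c k)) * w ^ (k : ℕ) = 0) : IsIntegral (RP N) w := by
  refine ⟨Polynomial.X ^ e + ∑ k : Fin e, Polynomial.C (MvPolynomial.aeval (vp N) (c k)) *
    Polynomial.X ^ (k : ℕ), ?_, ?_⟩
  · apply Polynomial.monic_X_pow_add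
    refine lt_of_le_of_lt (Polynomial.degree_sum_le _ _) ?_
    rw [Finset.sup_lt_iff (by exact WithBot.bot_lt_coe e)]
    intro k _
    refine lt_of_le_of_lt (Polynomial.degree_C_mul_X_pow_le _ _) ?_
    exact_mod_cast k.2
  · rw [Polynomial.eval₂_add, Polynomial.eval₂_pow, Polynomial.eval₂_X,
      Polynomial.eval₂_finsetSum]
    rw [← hw]
    congr 1
    refine Finset.sum_congr rfl fun k _ => ?_
    rw [Polynomial.eval₂_mul, Polynomial.eval₂_C, Polynomial.eval₂_pow, Polynomial.eval₂_X,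
      aeval_vv, ← IsScalarTower.algebraMap_apply]

end ZVaux

open ZVaux

theorem ZV {N : ℕ} {L ι : Type} [Field L] [Algebra (kk N) L] [Algebra (RP N) L]
    [IsScalarTower (RP N) (kk N) L] [Fintype ι] {w : ι → L} {C : Fin (N + 1) → ι → ℝ}
    (hS : Setup N L ι w C) (e : ι → ℕ) (c : (i : ι) → Fin (e i) → MvPolynomial (Fin (N + 1)) ℝ)
    (hc : ∀ i k, (c i k).IsHomogeneous (e i - k))
    (hw : ∀ i, w i ^ (e i) + ∑ k : Fin (e i), algebraMap (kk N) L
      (MvPolynomial.aeval (vv N) (c i k)) * w i ^ (k : ℕ) = 0)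
    (y : Fin N → ℝ) (χ : integralClosure (RP N) L →+* ℂ) (hχ : Spec y χ) :
    ∃ z ∈ ZZ C e c, ∀ (g : MvPolynomial ((Fin (N + 1) × Fin (N + 1)) ⊕ (Fin (N + 1) × ι)) ℝ)
      (k : ℕ) (T : integralClosure (RP N) L), (T : L) = algebraMap (kk N) L (rr N) ^ k *
        MvPolynomial.eval₂ ((algebraMap (kk N) L).comp (algebraMap ℝ (kk N))) (us w) g →
      g.totalDegree ≤ k →
      χ T = (nr y : ℂ) ^ k * MvPolynomial.aeval (Sum.elim (fun p => (z.1 p : ℂ)) z.2) g := by
  have hn := nr_pos y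
  -- the elements of the integral closure
  have hint : ∀ i, IsIntegral (RP N) (w i) := fun i => isInt (w i) (e i) (c i) (hw i)
  let W : ι → integralClosure (RP N) L := fun i => ⟨w i, hint i⟩
  have hWc : ∀ i, (W i : L) = w i := fun i => rfl
  have hA : ∀ p : RP N, ((algebraMap (RP N) (integralClosure (RP N) L) p :
      integralClosure (RP N) L) : L) = algebraMap (kk N) L (algebraMap (RP N) (kk N) p) := by
    intro p
    rw [← IsScalarTower.algebraMap_apply (RP N) (kk N) L]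
    rfl
  have hR : ∀ a : ℝ, algebraMap ℝ (kk N) a = algebraMap (RP N) (kk N) (MvPolynomial.C a) := by
    intro a
    rw [IsScalarTower.algebraMap_apply ℝ (RP N) (kk N), MvPolynomial.algebraMap_eq]
  set s : ℝ := Real.sqrt (nr y) with hs
  have hs0 : 0 < s := Real.sqrt_pos.2 hn
  have hss : s ^ 2 = nr y := Real.sq_sqrt hn.le
  have hsc : (s : ℂ) ≠ 0 := by exact_mod_cast hs0.ne'
  set ω : Fin (N + 1) → ℝ := fun a => s⁻¹ * vr y a with hω
  set t : ι → ℂ := fun i => (s : ℂ)⁻¹ * χ (W i) with ht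
  -- relations in the integral closure, mapped by `χ`
  have hχv : ∀ p : RP N, χ (algebraMap (RP N) (integralClosure (RP N) L) p) =
      ((MvPolynomial.eval y p : ℝ) : ℂ) := hχ
  have h1 : ∑ i, χ (W i) ^ 2 = 0 := by
    have h : ∑ i, W i ^ 2 = 0 := by
      apply Subtype.ext
      rw [AddSubmonoidClass.coe_finsetSum]
      simpa [hWc] using hS.iso
    rw [← map_zero χ, ← h, map_sum]
    exact Finset.sum_congr rfl fun i _ => (map_pow χ _ _).symm
  have h2 : ∀ a, ∑ i, (C a i : ℂ) * χ (W i) = (vr y a : ℂ) := by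
    intro a
    have h : ∑ i, algebraMap (RP N) (integralClosure (RP N) L) (MvPolynomial.C (C a i)) * W i =
        algebraMap (RP N) (integralClosure (RP N) L) (vp N a) := by
      apply Subtype.ext
      rw [AddSubmonoidClass.coe_finsetSum, hA, vp_map, ← hS.lin a]
      refine Finset.sum_congr rfl fun i _ => ?_
      rw [hR]
      exact congrArg (· * w i) (hA _)
    have h' := congrArg χ h
    rw [map_sum, hχv, eval_vp] at h'
    rw [← h']
    refine Finset.sum_congr rfl fun i _ => ?_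
    rw [map_mul, hχv, MvPolynomial.eval_C]
  have h3 : ∀ i, χ (W i) ^ (e i) + ∑ k : Fin (e i),
      ((MvPolynomial.eval (vr y) (c i k) : ℝ) : ℂ) * χ (W i) ^ (k : ℕ) = 0 := by
    intro i
    have h : W i ^ (e i) + ∑ k : Fin (e i), algebraMap (RP N) (integralClosure (RP N) L)
        (MvPolynomial.aeval (vp N) (c i k)) * W i ^ (k : ℕ) = 0 := by
      apply Subtype.ext
      have h4 := hw i
      simp_rw [aeval_vv] at h4
      rw [Subalgebra.coe_add, AddSubmonoidClass.coe_finsetSum, Subalgebra.coe_pow]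
      refine Eq.trans ?_ h4
      refine congrArg (w i ^ (e i) + ·) (Finset.sum_congr rfl fun k _ => ?_)
      rw [Subalgebra.coe_mul, Subalgebra.coe_pow, hA]
    have h' := congrArg χ h
    rw [map_add, map_sum, map_zero, map_pow] at h'
    rw [← h']
    refine congrArg (χ (W i) ^ (e i) + ·) (Finset.sum_congr rfl fun k _ => ?_)
    rw [map_mul, map_pow, hχv, eval_aeval_vp]
  -- the point
  have hZ0 : (ω, t) ∈ Z0 C e c := by
    refine ⟨?_, ?_, ?_, ?_⟩
    · show ∑ a, (s⁻¹ * vr y a) ^ 2 = 1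
      simp_rw [mul_pow]
      rw [← Finset.mul_sum]
      show s⁻¹ ^ 2 * nr y = 1
      rw [← hss]
      field_simp
    · show ∑ i, ((s : ℂ)⁻¹ * χ (W i)) ^ 2 = 0
      simp_rw [mul_pow]
      rw [← Finset.mul_sum, h1, mul_zero]
    · intro a
      show ∑ i, (C a i : ℂ) * ((s : ℂ)⁻¹ * χ (W i)) = ((s⁻¹ * vr y a : ℝ) : ℂ)
      rw [Complex.ofReal_mul, ← h2 a, Finset.mul_sum, Complex.ofReal_inv]
      exact Finset.sum_congr rfl fun i _ => by ring
    · intro i
      show ((s : ℂ)⁻¹ * χ (W i)) ^ (e i) + ∑ k : Fin (e i),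
        ((MvPolynomial.eval (fun a => s⁻¹ * vr y a) (c i k) : ℝ) : ℂ) *
          ((s : ℂ)⁻¹ * χ (W i)) ^ (k : ℕ) = 0
      have h5 : ((s : ℂ)⁻¹) ^ (e i) * (χ (W i) ^ (e i) + ∑ k : Fin (e i),
          ((MvPolynomial.eval (vr y) (c i k) : ℝ) : ℂ) * χ (W i) ^ (k : ℕ)) = 0 := by
        rw [h3, mul_zero]
      rw [← h5, mul_add, Finset.mul_sum, mul_pow]
      refine congrArg (((s : ℂ)⁻¹) ^ (e i) * χ (W i) ^ (e i) + ·)
        (Finset.sum_congr rfl fun k _ => ?_)
      rw [hom_smul (hc i k), Complex.ofReal_mul, Complex.ofReal_pow, Complex.ofReal_inv, mul_pow]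
      have h6 : ((s : ℂ)⁻¹) ^ (e i) = ((s : ℂ)⁻¹) ^ (e i - (k : ℕ)) * ((s : ℂ)⁻¹) ^ (k : ℕ) := by
        rw [← pow_add, Nat.sub_add_cancel k.2.le]
      rw [h6]
      ring
  refine ⟨_, ⟨(ω, t), hZ0, rfl⟩, ?_⟩
  intro g k T hT hk
  -- the elements `r u`, `r s` of the integral closure
  let U : (Fin (N + 1) × Fin (N + 1)) ⊕ (Fin (N + 1) × ι) → integralClosure (RP N) L :=
    Sum.elim (fun p => algebraMap (RP N) _ (vp N p.1 * vp N p.2))
      (fun p => algebraMap (RP N) _ (vp N p.1) * W p.2)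
  let ρ : RP N := ∑ a, vp N a ^ 2
  have hρ : algebraMap (RP N) (kk N) ρ = rr N := by
    show algebraMap (RP N) (kk N) (∑ a, vp N a ^ 2) = ∑ a, vv N a ^ 2
    rw [map_sum]
    exact Finset.sum_congr rfl fun a _ => by rw [map_pow, vp_map]
  have hρy : MvPolynomial.eval y ρ = nr y := by
    show MvPolynomial.eval y (∑ a, vp N a ^ 2) = ∑ a, vr y a ^ 2
    rw [map_sum]
    exact Finset.sum_congr rfl fun a _ => by rw [map_pow, eval_vp]
  have hr0 : rr N ≠ 0 := by
    intro h
    rw [← hρ, map_eq_zero_iff _ (IsFractionRing.injective (RP N) (kk N))] at h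
    rw [h, map_zero] at hρy
    exact hn.ne hρy
  have hU1 : ∀ j, ((U j : integralClosure (RP N) L) : L) =
      algebraMap (kk N) L (rr N) * us w j := by
    rintro (p | p)
    · show ((algebraMap (RP N) (integralClosure (RP N) L) (vp N p.1 * vp N p.2) :
        integralClosure (RP N) L) : L) = algebraMap (kk N) L (rr N) *
          algebraMap (kk N) L (vv N p.1 * vv N p.2 / rr N)
      rw [hA, ← map_mul, map_mul, vp_map, vp_map]
      congr 1
      field_simp
    · show ((algebraMap (RP N) (integralClosure (RP N) L) (vp N p.1) * W p.2 :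
        integralClosure (RP N) L) : L) = algebraMap (kk N) L (rr N) *
          (algebraMap (kk N) L (vv N p.1 / rr N) * w p.2)
      rw [Subalgebra.coe_mul, hA, vp_map, ← mul_assoc, ← map_mul, hWc]
      congr 2
      field_simp
  have hU2 : ∀ j, χ (U j) = (nr y : ℂ) * Sum.elim (fun p => ((ω p.1 * ω p.2 : ℝ) : ℂ))
      (fun p : Fin (N + 1) × ι => (ω p.1 : ℂ) * t p.2) j := by
    rintro (p | p)
    · show χ (algebraMap (RP N) (integralClosure (RP N) L) (vp N p.1 * vp N p.2)) =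
        (nr y : ℂ) * (((s⁻¹ * vr y p.1) * (s⁻¹ * vr y p.2) : ℝ) : ℂ)
      rw [hχv, map_mul, eval_vp, eval_vp, ← hss]
      push_cast
      field_simp
    · show χ (algebraMap (RP N) (integralClosure (RP N) L) (vp N p.1) * W p.2) =
        (nr y : ℂ) * (((s⁻¹ * vr y p.1 : ℝ) : ℂ) * ((s : ℂ)⁻¹ * χ (W p.2)))
      rw [map_mul, hχv, eval_vp, ← hss]
      push_cast
      field_simp
  let fO : ℝ →+* integralClosure (RP N) L :=
    (algebraMap (RP N) (integralClosure (RP N) L)).comp MvPolynomial.C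
  let T' : integralClosure (RP N) L := ∑ m ∈ g.support, fO (g.coeff m) *
      ((algebraMap (RP N) (integralClosure (RP N) L) ρ) ^ (k - m.sum fun _ n => n) *
        ∏ j ∈ m.support, U j ^ m j)
  have hTT : T = T' := by
    apply Subtype.ext
    rw [hT, hz _ _ (us w) (fun j => ((U j : integralClosure (RP N) L) : L)) hU1 g k hk]
    show _ = (integralClosure (RP N) L).val.toRingHom T'
    rw [map_sum]
    refine Finset.sum_congr rfl fun m _ => ?_
    rw [map_mul, map_mul, map_pow, map_prod]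
    have h7 : (integralClosure (RP N) L).val.toRingHom (fO (g.coeff m)) =
        ((algebraMap (kk N) L).comp (algebraMap ℝ (kk N))) (g.coeff m) := by
      show _ = algebraMap (kk N) L (algebraMap ℝ (kk N) (g.coeff m))
      rw [hR]
      exact hA _
    have h8 : (integralClosure (RP N) L).val.toRingHom
        (algebraMap (RP N) (integralClosure (RP N) L) ρ) = algebraMap (kk N) L (rr N) := by
      rw [← hρ]
      exact hA _
    rw [h7, h8]
    congr 2
  rw [hTT]
  have h9 := hz (Complex.ofRealHom : ℝ →+* ℂ) (nr y : ℂ)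
    (Sum.elim (fun p => ((ω p.1 * ω p.2 : ℝ) : ℂ))
      (fun p : Fin (N + 1) × ι => (ω p.1 : ℂ) * t p.2)) (fun j => χ (U j)) hU2 g k hk
  show χ T' = (nr y : ℂ) ^ k * MvPolynomial.aeval (Sum.elim (fun p => ((ω p.1 * ω p.2 : ℝ) : ℂ))
      (fun p : Fin (N + 1) × ι => (ω p.1 : ℂ) * t p.2)) g
  rw [MvPolynomial.aeval_def]
  refine Eq.trans ?_ h9.symm
  rw [map_sum]
  refine Finset.sum_congr rfl fun m _ => ?_
  rw [map_mul, map_mul, map_pow, map_prod, hχv, hρy]
  have h10 : χ (fO (g.coeff m)) = Complex.ofRealHom (g.coeff m) := by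
    show χ (algebraMap (RP N) (integralClosure (RP N) L) (MvPolynomial.C (g.coeff m))) = _
    rw [hχv, MvPolynomial.eval_C]
    rfl
  rw [h10]
  congr 2
  exact Finset.prod_congr rfl fun j _ => by rw [map_pow]

end Pool.Agent.PFI
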