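import Pool.Agent.PFI.CLof
import Pool.Agent.PFI.CL1
import Pool.Agent.PFI.ZC
import Pool.Agent.PFI.ZI
import Pool.Agent.PFI.ZV

/-!
# Row AB0: the elements `t i` (MP_b906c2_al, S02848)
-/

set_option autoImplicit false

namespace Pool.Agent.PFI

open Polynomial Pool.Agent.PDF

theorem AB0 {N : ℕ} {L ι : Type} [Field L] [Algebra (kk N) L] [Algebra (RP N) L]
    [IsScalarTower (RP N) (kk N) L] [Fintype ι] {w : ι → L} {C : Fin (N + 1) → ι → ℝ}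
    (hS : Setup N L ι w C) (ε : ℝ) (hε : 0 < ε) :
    ∃ (t : Fin ((N + 1) ^ 2 + 1) → integralClosure (RP N) L) (K : ℕ),
      ∀ (y : Fin N → ℝ) (χ : integralClosure (RP N) L →+* ℂ), Spec y χ →
        ‖χ (-∑ i, t i ^ 2) - (nr y : ℂ) ^ (2 * K)‖ ≤ ε * nr y ^ (2 * K) := by
  classical
  choose e c hc hw using hS.int
  obtain ⟨hZ1, hZ2, hZ3, hZ4⟩ := ZC C e c
  obtain ⟨g, hg⟩ := CL_of CL1 (ZZ C e c) hZ1 hZ2 hZ3 hZ4 ε hε
  have hcard : Fintype.card (Fin (N + 1) × Fin (N + 1)) + 1 = (N + 1) ^ 2 + 1 := by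
    rw [Fintype.card_prod, Fintype.card_fin, sq]
  obtain ⟨g', hg'⟩ : ∃ g' : Fin ((N + 1) ^ 2 + 1) →
      MvPolynomial ((Fin (N + 1) × Fin (N + 1)) ⊕ (Fin (N + 1) × ι)) ℝ,
      ∀ z ∈ ZZ C e c,
      ‖∑ i, (MvPolynomial.aeval (Sum.elim (fun j => (z.1 j : ℂ)) z.2) (g' i)) ^ 2 + 1‖ ≤ ε := by
    refine ⟨fun i => g (Fin.cast hcard.symm i), fun z hz => ?_⟩
    have h1 := hg z hz
    have h2 : ∑ i, (MvPolynomial.aeval (Sum.elim (fun j => (z.1 j : ℂ)) z.2)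
        (g (Fin.cast hcard.symm i))) ^ 2 =
        ∑ i, (MvPolynomial.aeval (Sum.elim (fun j => (z.1 j : ℂ)) z.2) (g i)) ^ 2 :=
      Fintype.sum_equiv (finCongr hcard.symm) _ _ fun i => rfl
    rw [h2]
    exact h1
  obtain ⟨K, hK⟩ : ∃ K : ℕ, ∀ i, (g' i).totalDegree ≤ K :=
    ⟨Finset.univ.sup fun i => (g' i).totalDegree, fun i =>
      Finset.le_sup (f := fun i => (g' i).totalDegree) (Finset.mem_univ i)⟩
  refine ⟨fun i => ⟨_, (ZI hS).2 (g' i) K (hK i)⟩, K, fun y χ hχ => ?_⟩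
  obtain ⟨z, hz, hval⟩ := ZV hS e c hc hw y χ hχ
  have hnr : 0 ≤ nr y := Finset.sum_nonneg fun a _ => sq_nonneg _
  have h1 : χ (-∑ i, (⟨_, (ZI hS).2 (g' i) K (hK i)⟩ : integralClosure (RP N) L) ^ 2) -
      (nr y : ℂ) ^ (2 * K) = - ((nr y : ℂ) ^ (2 * K) *
      (∑ i, (MvPolynomial.aeval (Sum.elim (fun j => (z.1 j : ℂ)) z.2) (g' i)) ^ 2 + 1)) := by
    rw [map_neg, map_sum, mul_add, mul_one, Finset.mul_sum, neg_add, ← sub_eq_add_neg,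
      ← Finset.sum_neg_distrib, ← Finset.sum_neg_distrib]
    congr 1
    refine Finset.sum_congr rfl fun i _ => ?_
    rw [map_pow, hval (g' i) K _ rfl (hK i), mul_pow, ← pow_mul, mul_comm K 2]
  rw [h1, norm_neg, norm_mul, norm_pow, Complex.norm_real, Real.norm_eq_abs, abs_of_nonneg hnr,
    mul_comm ε]
  exact mul_le_mul_of_nonneg_left (hg' z hz) (pow_nonneg hnr _)

end Pool.Agent.PFI
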