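import Pool.Agent.PFI.Defs

/-!
# Row CL3 of PFI: shifted grids

Covering of a compact set of `ℝ^β` with `card β + 1` colours, and a partition of unity.
-/

set_option autoImplicit false

namespace Pool.Agent.PFI

namespace CL3aux

open Finset

/-- tent function on `(z, z+1)` -/
noncomputable def tent (z : ℤ) (x : ℝ) : ℝ := max 0 (min (x - z) (z + 1 - x))

lemma tent_cont (z : ℤ) : Continuous (tent z) := by
  unfold tent; fun_prop

lemma tent_ne_zero {z : ℤ} {x : ℝ} : tent z x ≠ 0 ↔ (z : ℝ) < x ∧ x < z + 1 := by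
  unfold tent
  constructor
  · intro h
    by_contra hc
    apply h
    rw [max_eq_left_iff, min_le_iff]
    by_contra h2
    push Not at h2
    exact hc ⟨by linarith [h2.1], by linarith [h2.2]⟩
  · rintro ⟨h1, h2⟩
    have : 0 < min (x - z) ((z : ℝ) + 1 - x) := lt_min (by linarith) (by linarith)
    rw [max_eq_right this.le]
    exact this.ne'

variable {β : Type} [Fintype β]

/-- the raw function of the cube `z` of the grid with mesh `δ` shifted by `s` -/
noncomputable def raw (δ s : ℝ) (z : β → ℤ) (b : β → ℝ) : ℝ := ∏ j, tent (z j) (b j / δ - s)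

lemma raw_cont (δ s : ℝ) (z : β → ℤ) : Continuous (raw δ s z) := by
  unfold raw
  refine continuous_finsetProd _ fun j _ => (tent_cont (z j)).comp ?_
  fun_prop

lemma raw_ne_zero {δ s : ℝ} {z : β → ℤ} {b : β → ℝ} :
    raw δ s z b ≠ 0 ↔ ∀ j, ((z j : ℤ) : ℝ) < b j / δ - s ∧ b j / δ - s < z j + 1 := by
  unfold raw
  rw [Finset.prod_ne_zero_iff]
  simp [tent_ne_zero]

lemma raw_mul {δ s : ℝ} {z z' : β → ℤ} (hz : z ≠ z') (b : β → ℝ) :
    raw δ s z b * raw δ s z' b = 0 := by
  by_contra h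
  obtain ⟨h1, h2⟩ := mul_ne_zero_iff.mp h
  rw [raw_ne_zero] at h1 h2
  apply hz
  funext j
  have a1 := h1 j
  have a2 := h2 j
  have l1 : (z j : ℝ) < z' j + 1 := by linarith [a1.1, a2.2]
  have l2 : (z' j : ℝ) < z j + 1 := by linarith [a1.2, a2.1]
  have l1' : z j < z' j + 1 := by exact_mod_cast l1
  have l2' : z' j < z j + 1 := by exact_mod_cast l2
  omega

lemma good_shift (b : β → ℝ) (δ : ℝ) :
    ∃ i : Fin (Fintype.card β + 1), ∀ (j : β) (z : ℤ),
      b j / δ - (i : ℝ) / ((Fintype.card β : ℝ) + 1) ≠ z := by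
  by_contra hc
  push Not at hc
  choose f z hz using hc
  obtain ⟨i, i', hne, hf⟩ := Fintype.exists_ne_map_eq_of_card_lt f (by simp)
  apply hne
  have h1 := hz i
  have h2 := hz i'
  rw [hf] at h1
  have hm : (0 : ℝ) < (Fintype.card β : ℝ) + 1 := by positivity
  have h3 : ((i : ℕ) : ℝ) - ((i' : ℕ) : ℝ) = ((z i' : ℝ) - z i) * ((Fintype.card β : ℝ) + 1) := by
    have : (i : ℝ) / ((Fintype.card β : ℝ) + 1) - (i' : ℝ) / ((Fintype.card β : ℝ) + 1)
        = (z i' : ℝ) - z i := by linarith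
    rw [← this, sub_mul, div_mul_cancel₀ _ hm.ne', div_mul_cancel₀ _ hm.ne']
  have h4 : ((i : ℕ) : ℤ) - ((i' : ℕ) : ℤ) = (z i' - z i) * ((Fintype.card β : ℤ) + 1) := by
    exact_mod_cast h3
  have hi := i.2
  have hi' := i'.2
  have h5 : ((i : ℕ) : ℤ) - ((i' : ℕ) : ℤ) = 0 := by
    apply Int.eq_zero_of_abs_lt_dvd (m := (Fintype.card β : ℤ) + 1)
    · exact ⟨z i' - z i, by rw [h4]; ring⟩
    · rw [abs_lt]; constructor <;> omega
  apply Fin.ext
  omega

end CL3aux

open CL3aux in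
/-- covering of a compact set of `ℝ^β` with `card β + 1` colours (shifted grids), and a partition
of unity -/
theorem CL3 {β α : Type} [Fintype β] (K : Set (β → ℝ)) (hK : IsCompact K)
    (U : α → Set (β → ℝ)) (hU : ∀ b ∈ K, ∃ a, U a ∈ nhds b) :
    ∃ (Q : Type) (_ : Fintype Q) (θ : Fin (Fintype.card β + 1) → Q → C(β → ℝ, ℝ))
      (A : Fin (Fintype.card β + 1) → Q → α),
      (∀ b ∈ K, ∑ i, ∑ q, θ i q b ^ 2 = 1) ∧
      (∀ i q q' b, b ∈ K → q ≠ q' → θ i q b * θ i q' b = 0) ∧
      (∀ i q b, b ∈ K → θ i q b ≠ 0 → b ∈ U (A i q)) := by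
  classical
  rcases K.eq_empty_or_nonempty with rfl | hne
  · exact ⟨Empty, inferInstance, fun _ q => q.elim, fun _ q => q.elim, by simp, by simp, by simp⟩
  -- Lebesgue number
  obtain ⟨δ, hδ, hL⟩ := lebesgue_number_lemma_of_metric (c := fun a => interior (U a)) hK
    (fun a => isOpen_interior) (fun b hb => by
      obtain ⟨a, ha⟩ := hU b hb
      exact Set.mem_iUnion.mpr ⟨a, mem_interior_iff_mem_nhds.mpr ha⟩)
  obtain ⟨b₁, hb₁⟩ := hne
  obtain ⟨a₁, -⟩ := hL b₁ hb₁
  -- bound
  obtain ⟨R, hR⟩ := hK.isBounded.subset_closedBall 0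
  obtain ⟨M, hM⟩ := exists_nat_gt (R / δ + 2)
  have hcoord : ∀ b ∈ K, ∀ j, |b j| ≤ R := fun b hb j => by
    have h1 := hR hb
    rw [Metric.mem_closedBall, dist_zero_right] at h1
    exact (norm_le_pi_norm b j).trans h1
  set m : ℕ := Fintype.card β with hmdef
  -- the index type
  let Q : Type := β → {z : ℤ // z ∈ Finset.Icc (-(M : ℤ)) M}
  let zz : Q → β → ℤ := fun q j => (q j : ℤ)
  have hzz : Function.Injective zz := by
    intro q q' h
    funext j
    exact Subtype.ext (congrFun h j)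
  let sh : Fin (m + 1) → ℝ := fun i => (i : ℝ) / ((m : ℝ) + 1)
  have hm : (0 : ℝ) < (m : ℝ) + 1 := by positivity
  have hsh0 : ∀ i, 0 ≤ sh i := fun i => by
    show (0 : ℝ) ≤ (i : ℝ) / ((m : ℝ) + 1); positivity
  have hsh1 : ∀ i, sh i ≤ 1 := fun i => by
    show (i : ℝ) / ((m : ℝ) + 1) ≤ 1
    rw [div_le_one hm]
    have : (i : ℕ) ≤ m + 1 := i.2.le
    exact_mod_cast this
  -- the sum of squares
  let S : (β → ℝ) → ℝ := fun b => ∑ i : Fin (m + 1), ∑ q : Q, raw δ (sh i) (zz q) b ^ 2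
  have hScont : Continuous S := by
    refine continuous_finsetSum _ fun i _ => continuous_finsetSum _ fun q _ => ?_
    exact (raw_cont δ (sh i) (zz q)).pow 2
  have hS0 : ∀ b, 0 ≤ S b := fun b =>
    Finset.sum_nonneg fun i _ => Finset.sum_nonneg fun q _ => sq_nonneg _
  have hSpos : ∀ b ∈ K, 0 < S b := by
    intro b hb
    obtain ⟨i, hi⟩ := good_shift b δ
    have hfl : ∀ j, ⌊b j / δ - sh i⌋ ∈ Finset.Icc (-(M : ℤ)) M := by
      intro j
      have h1 := hcoord b hb j
      have h2 : |b j / δ| ≤ R / δ := by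
        rw [abs_div, abs_of_pos hδ]
        exact div_le_div_of_nonneg_right h1 hδ.le
      rw [abs_le] at h2
      rw [Finset.mem_Icc]
      constructor
      · rw [Int.le_floor]
        push_cast
        linarith [hsh1 i, h2.1]
      · have h3 : (⌊b j / δ - sh i⌋ : ℝ) ≤ b j / δ - sh i := Int.floor_le _
        have h4 : (⌊b j / δ - sh i⌋ : ℝ) ≤ (M : ℤ) := by
          push_cast
          linarith [hsh0 i, h2.2]
        exact_mod_cast h4
    let q : Q := fun j => ⟨⌊b j / δ - sh i⌋, hfl j⟩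
    have hq : raw δ (sh i) (zz q) b ≠ 0 := by
      rw [raw_ne_zero]
      intro j
      refine ⟨lt_of_le_of_ne (Int.floor_le _) ?_, Int.lt_floor_add_one _⟩
      intro h
      exact hi j ⌊b j / δ - sh i⌋ h.symm
    have h1 : 0 < raw δ (sh i) (zz q) b ^ 2 := by positivity
    refine lt_of_lt_of_le h1 ?_
    refine le_trans ?_ (Finset.single_le_sum (f := fun i : Fin (m + 1) =>
      ∑ q : Q, raw δ (sh i) (zz q) b ^ 2) (fun i _ => Finset.sum_nonneg fun q _ => sq_nonneg _)
      (Finset.mem_univ i))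
    exact Finset.single_le_sum (f := fun q : Q => raw δ (sh i) (zz q) b ^ 2)
      (fun q _ => sq_nonneg _) (Finset.mem_univ q)
  -- the denominator
  let D : (β → ℝ) → ℝ := fun b => Real.sqrt (S b + Metric.infDist b K ^ 2)
  have hDpos : ∀ b, 0 < D b := by
    intro b
    apply Real.sqrt_pos.mpr
    by_cases hb : b ∈ K
    · have := hSpos b hb
      positivity
    · have h1 : 0 < Metric.infDist b K :=
        (hK.isClosed.notMem_iff_infDist_pos ⟨b₁, hb₁⟩).mp hb
      have := hS0 b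
      positivity
  have hDcont : Continuous D := by
    refine Real.continuous_sqrt.comp (hScont.add ?_)
    exact (Metric.continuous_infDist_pt K).pow 2
  have hDK : ∀ b ∈ K, D b ^ 2 = S b := by
    intro b hb
    show Real.sqrt (S b + Metric.infDist b K ^ 2) ^ 2 = S b
    rw [Metric.infDist_zero_of_mem hb]
    simp only [ne_eq, OfNat.ofNat_ne_zero, not_false_eq_true, zero_pow, add_zero]
    exact Real.sq_sqrt (hS0 b)
  -- the choice of the members of the covering
  have hA : ∀ (i : Fin (m + 1)) (q : Q), ∃ a : α, ∀ b ∈ K, raw δ (sh i) (zz q) b ≠ 0 →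
      b ∈ U a := by
    intro i q
    by_cases h : ∃ b ∈ K, raw δ (sh i) (zz q) b ≠ 0
    · obtain ⟨b₀, hb₀, h0⟩ := h
      obtain ⟨a, ha⟩ := hL b₀ hb₀
      refine ⟨a, fun b hb hne => ?_⟩
      apply interior_subset
      apply ha
      rw [Metric.mem_ball, dist_pi_lt_iff hδ]
      intro j
      rw [raw_ne_zero] at h0 hne
      have e0 := h0 j
      have e1 := hne j
      rw [Real.dist_eq]
      have h2 : |b j / δ - b₀ j / δ| < 1 := by
        rw [abs_lt]; constructor <;> linarith [e0.1, e0.2, e1.1, e1.2]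
      have h3 : b j - b₀ j = (b j / δ - b₀ j / δ) * δ := by
        rw [sub_mul, div_mul_cancel₀ _ hδ.ne', div_mul_cancel₀ _ hδ.ne']
      rw [h3, abs_mul, abs_of_pos hδ]
      calc |b j / δ - b₀ j / δ| * δ < 1 * δ := mul_lt_mul_of_pos_right h2 hδ
        _ = δ := one_mul δ
    · push Not at h
      exact ⟨a₁, fun b hb hne => absurd (h b hb) hne⟩
  choose A hA' using hA
  refine ⟨Q, inferInstance, fun i q => ⟨fun b => raw δ (sh i) (zz q) b / D b,
    (raw_cont δ (sh i) (zz q)).div hDcont fun b => (hDpos b).ne'⟩, A, ?_, ?_, ?_⟩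
  · intro b hb
    simp only [ContinuousMap.coe_mk, div_pow]
    simp_rw [← Finset.sum_div]
    rw [hDK b hb]
    exact div_self (hSpos b hb).ne'
  · intro i q q' b hb hqq
    simp only [ContinuousMap.coe_mk]
    rw [div_mul_div_comm, raw_mul (fun h => hqq (hzz h)), zero_div]
  · intro i q b hb hne
    simp only [ContinuousMap.coe_mk] at hne
    exact hA' i q b hb fun h => hne (by rw [h, zero_div])

end Pool.Agent.PFI
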