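import Mathlib

/-! Project PFI (MP_b906c2_al), row WS: the multivariate Weierstrass theorem on compact sets. -/

set_option autoImplicit false

namespace Pool.Agent.PFI

theorem WS {β : Type} [Fintype β] (K : Set (β → ℝ)) (hK : IsCompact K) (θ : C(β → ℝ, ℝ))
    (η : ℝ) (hη : 0 < η) :
    ∃ p : MvPolynomial β ℝ, ∀ b ∈ K, |MvPolynomial.eval b p - θ b| ≤ η := by
  classical
  have : CompactSpace K := isCompact_iff_compactSpace.mp hK
  let c : β → C(K, ℝ) := fun i => ⟨fun x => (x : β → ℝ) i,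
    (continuous_apply i).comp continuous_subtype_val⟩
  let Φ : MvPolynomial β ℝ →ₐ[ℝ] C(K, ℝ) := MvPolynomial.aeval c
  have hΦ : ∀ (p : MvPolynomial β ℝ) (x : K), Φ p x = MvPolynomial.eval (x : β → ℝ) p := by
    intro p x
    induction p using MvPolynomial.induction_on with
    | C a =>
      rw [MvPolynomial.eval_C]
      have : Φ (MvPolynomial.C a) = algebraMap ℝ C(K, ℝ) a := MvPolynomial.aeval_C _ _
      rw [this]
      rfl
    | add p q hp hq => rw [map_add, map_add, ContinuousMap.add_apply, hp, hq]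
    | mul_X p i hp =>
      rw [map_mul, map_mul, ContinuousMap.mul_apply, hp, MvPolynomial.eval_X]
      congr 1
      have : Φ (MvPolynomial.X i) = c i := MvPolynomial.aeval_X _ _
      rw [this]
      rfl
  have hsep : Φ.range.SeparatesPoints := by
    intro x y hxy
    have hne : (x : β → ℝ) ≠ (y : β → ℝ) := fun h => hxy (Subtype.ext h)
    obtain ⟨i, hi⟩ := Function.ne_iff.mp hne
    refine ⟨fun z => c i z, ⟨c i, ⟨MvPolynomial.X i, ?_⟩, rfl⟩, hi⟩
    exact MvPolynomial.aeval_X _ _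
  let θK : C(K, ℝ) := ⟨fun x => θ x, θ.continuous.comp continuous_subtype_val⟩
  obtain ⟨⟨g, p, rfl⟩, hg⟩ :=
    ContinuousMap.exists_mem_subalgebra_near_continuousMap_of_separatesPoints Φ.range hsep θK η hη
  refine ⟨p, fun b hb => ?_⟩
  have h1 := (ContinuousMap.norm_coe_le_norm ((Φ.toRingHom p) - θK) ⟨b, hb⟩).trans hg.le
  have h2 : ((Φ.toRingHom p) - θK) ⟨b, hb⟩ = MvPolynomial.eval b p - θ b := by
    rw [ContinuousMap.sub_apply]
    congr 1
    exact hΦ p ⟨b, hb⟩
  rw [h2, Real.norm_eq_abs] at h1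
  exact h1

end Pool.Agent.PFI
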