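import Pool.Agent.PFI.CL2of
import Pool.Agent.PFI.CL3
import Pool.Agent.PFI.WS

/-!
# MP_b906c2_al, row CL: colouring and approximation (helper65)
-/

set_option autoImplicit false

namespace Pool.Agent.PFI

namespace CLaux

/-- a real polynomial is bounded on a compact set of complex values -/
theorem bdd {β κ : Type} [Fintype β] [Fintype κ] (Z : Set ((β → ℝ) × (κ → ℂ)))
    (hZ : IsCompact Z) (h : MvPolynomial κ ℝ) :
    ∃ M : ℝ, ∀ z ∈ Z, ‖MvPolynomial.aeval z.2 h‖ ≤ M := by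
  have hc : Continuous (fun z : (β → ℝ) × (κ → ℂ) => (MvPolynomial.aeval z.2 h : ℂ)) := by
    have h1 : (fun z : (β → ℝ) × (κ → ℂ) => (MvPolynomial.aeval z.2 h : ℂ)) =
        fun z => MvPolynomial.eval z.2 (MvPolynomial.map (algebraMap ℝ ℂ) h) := by
      funext z
      rw [MvPolynomial.eval_map, MvPolynomial.aeval_def]
    rw [h1]
    exact (MvPolynomial.continuous_eval _).comp continuous_snd
  obtain ⟨M, hM⟩ := (hZ.image hc).isBounded.exists_norm_le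
  exact ⟨M, fun z hz => hM _ ⟨z, hz, rfl⟩⟩

/-- the same for a finite family, with `1 ≤ M` -/
theorem bdd_fam {β κ ι : Type} [Fintype β] [Fintype κ] [Fintype ι] (Z : Set ((β → ℝ) × (κ → ℂ)))
    (hZ : IsCompact Z) (h : ι → MvPolynomial κ ℝ) :
    ∃ M : ℝ, 0 ≤ M ∧ ∀ i, ∀ z ∈ Z, ‖MvPolynomial.aeval z.2 (h i)‖ ≤ M := by
  choose M hM using fun i => bdd Z hZ (h i)
  refine ⟨∑ i, |M i|, Finset.sum_nonneg fun i _ => abs_nonneg _, fun i z hz => ?_⟩
  refine (hM i z hz).trans ((le_abs_self _).trans ?_)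
  exact Finset.single_le_sum (f := fun i => |M i|) (fun i _ => abs_nonneg _) (Finset.mem_univ i)

/-- one colour: the square of a sum with orthogonal coefficients -/
theorem sq_sum {Q : Type} [Fintype Q] (θ : Q → ℝ) (h : Q → ℂ)
    (horth : ∀ q q', q ≠ q' → θ q * θ q' = 0) :
    (∑ q, (θ q : ℂ) * h q) ^ 2 = ∑ q, ((θ q ^ 2 : ℝ) : ℂ) * h q ^ 2 := by
  classical
  rw [sq, Finset.sum_mul_sum]
  refine Finset.sum_congr rfl fun q _ => ?_
  rw [Finset.sum_eq_single q]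
  · push_cast; ring
  · intro q' _ hne
    have h0 : ((θ q : ℝ) : ℂ) * ((θ q' : ℝ) : ℂ) = 0 := by
      rw [← Complex.ofReal_mul, horth q q' (Ne.symm hne), Complex.ofReal_zero]
    calc (θ q : ℂ) * h q * ((θ q' : ℂ) * h q') = ((θ q : ℂ) * (θ q' : ℂ)) * (h q * h q') := by ring
      _ = 0 := by rw [h0, zero_mul]
  · intro hq
    exact absurd (Finset.mem_univ q) hq

/-- the exact identity: `∑ᵢ (∑_q θ h)² + 1` is small -/
theorem exact {I Q : Type} [Fintype I] [Fintype Q] (θ : I → Q → ℝ) (h : I → Q → ℂ) (δ : ℝ)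
    (hone : ∑ i, ∑ q, θ i q ^ 2 = 1)
    (horth : ∀ i q q', q ≠ q' → θ i q * θ i q' = 0)
    (hh : ∀ i q, θ i q ≠ 0 → ‖h i q ^ 2 + 1‖ ≤ δ) :
    ‖∑ i, (∑ q, (θ i q : ℂ) * h i q) ^ 2 + 1‖ ≤ δ := by
  have h1 : ∑ i, (∑ q, (θ i q : ℂ) * h i q) ^ 2 + 1 =
      ∑ i, ∑ q, ((θ i q ^ 2 : ℝ) : ℂ) * (h i q ^ 2 + 1) := by
    have h2 : (1 : ℂ) = ∑ i, ∑ q, ((θ i q ^ 2 : ℝ) : ℂ) := by
      rw [← Complex.ofReal_one, ← hone]; push_cast; rfl
    conv_lhs => rw [h2]
    rw [← Finset.sum_add_distrib]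
    refine Finset.sum_congr rfl fun i _ => ?_
    rw [sq_sum _ _ (horth i), ← Finset.sum_add_distrib]
    refine Finset.sum_congr rfl fun q _ => ?_
    ring
  rw [h1]
  calc ‖∑ i, ∑ q, ((θ i q ^ 2 : ℝ) : ℂ) * (h i q ^ 2 + 1)‖
      ≤ ∑ i, ∑ q, θ i q ^ 2 * δ := by
        refine (norm_sum_le _ _).trans (Finset.sum_le_sum fun i _ => ?_)
        refine (norm_sum_le _ _).trans (Finset.sum_le_sum fun q _ => ?_)
        rw [norm_mul, Complex.norm_real, Real.norm_of_nonneg (sq_nonneg _)]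
        by_cases h0 : θ i q = 0
        · rw [h0]; simp
        · exact mul_le_mul_of_nonneg_left (hh i q h0) (sq_nonneg _)
    _ = δ := by
        have h3 : ∑ i, ∑ q, θ i q ^ 2 * δ = (∑ i, ∑ q, θ i q ^ 2) * δ := by
          rw [Finset.sum_mul]
          exact Finset.sum_congr rfl fun i _ => (Finset.sum_mul _ _ _).symm
        rw [h3, hone, one_mul]

/-- perturbation of the coefficients -/
theorem pert {I Q : Type} [Fintype I] [Fintype Q] (θ p : I → Q → ℝ) (h : I → Q → ℂ)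
    (M η : ℝ) (hM : 0 ≤ M) (hη : 0 ≤ η) (hη1 : η ≤ 1)
    (hθ : ∀ i q, |θ i q| ≤ 1) (hp : ∀ i q, |p i q - θ i q| ≤ η) (hh : ∀ i q, ‖h i q‖ ≤ M) :
    ‖∑ i, (∑ q, (p i q : ℂ) * h i q) ^ 2 - ∑ i, (∑ q, (θ i q : ℂ) * h i q) ^ 2‖ ≤
      (Fintype.card I : ℝ) * (η * (3 * ((Fintype.card Q : ℝ) * M) ^ 2)) := by
  rw [← Finset.sum_sub_distrib]
  have key : ∀ i, ‖(∑ q, (p i q : ℂ) * h i q) ^ 2 - (∑ q, (θ i q : ℂ) * h i q) ^ 2‖ ≤
      η * (3 * ((Fintype.card Q : ℝ) * M) ^ 2) := by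
    intro i
    set x := ∑ q, (p i q : ℂ) * h i q
    set y := ∑ q, (θ i q : ℂ) * h i q
    set R := (Fintype.card Q : ℝ) * M
    have hR : 0 ≤ R := mul_nonneg (Nat.cast_nonneg _) hM
    have hy : ‖y‖ ≤ R := by
      refine (norm_sum_le _ _).trans ?_
      calc ∑ q, ‖(θ i q : ℂ) * h i q‖ ≤ ∑ _q : Q, M := by
            refine Finset.sum_le_sum fun q _ => ?_
            rw [norm_mul, Complex.norm_real, Real.norm_eq_abs]
            calc |θ i q| * ‖h i q‖ ≤ 1 * M :=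
                  mul_le_mul (hθ i q) (hh i q) (norm_nonneg _) zero_le_one
              _ = M := one_mul M
        _ = R := by rw [Finset.sum_const, Finset.card_univ, nsmul_eq_mul]
    have hxy : ‖x - y‖ ≤ η * R := by
      have h1 : x - y = ∑ q, ((p i q - θ i q : ℝ) : ℂ) * h i q := by
        rw [← Finset.sum_sub_distrib]
        refine Finset.sum_congr rfl fun q _ => ?_
        push_cast; ring
      rw [h1]
      refine (norm_sum_le _ _).trans ?_
      calc ∑ q, ‖((p i q - θ i q : ℝ) : ℂ) * h i q‖ ≤ ∑ _q : Q, η * M := by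
            refine Finset.sum_le_sum fun q _ => ?_
            rw [norm_mul, Complex.norm_real, Real.norm_eq_abs]
            exact mul_le_mul (hp i q) (hh i q) (norm_nonneg _) hη
        _ = η * R := by
            rw [Finset.sum_const, Finset.card_univ, nsmul_eq_mul]; ring
    have hsum : ‖x + y‖ ≤ 3 * R := by
      have h1 : x + y = (x - y) + (y + y) := by ring
      rw [h1]
      refine (norm_add_le _ _).trans ?_
      have h2 := norm_add_le y y
      have h3 : η * R ≤ 1 * R := mul_le_mul_of_nonneg_right hη1 hR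
      linarith
    have h4 : x ^ 2 - y ^ 2 = (x - y) * (x + y) := by ring
    rw [h4, norm_mul]
    calc ‖x - y‖ * ‖x + y‖ ≤ (η * R) * (3 * R) :=
          mul_le_mul hxy hsum (norm_nonneg _) (mul_nonneg hη hR)
      _ = η * (3 * R ^ 2) := by ring
  calc ‖∑ i, ((∑ q, (p i q : ℂ) * h i q) ^ 2 - (∑ q, (θ i q : ℂ) * h i q) ^ 2)‖
      ≤ ∑ _i : I, η * (3 * ((Fintype.card Q : ℝ) * M) ^ 2) :=
        (norm_sum_le _ _).trans (Finset.sum_le_sum fun i _ => key i)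
    _ = _ := by rw [Finset.sum_const, Finset.card_univ, nsmul_eq_mul]

end CLaux

/-- CL from CL1 (CL1 as a hypothesis) -/
theorem CL_of {β κ : Type} [Fintype β] [Fintype κ]
    (CL1 : ∀ (T : Set (κ → ℂ)), T.Finite →
      (∀ s ∈ T, (fun i => star (s i)) ∈ T) → (∀ s ∈ T, ∃ i, (s i).im ≠ 0) →
      ∃ h : MvPolynomial κ ℝ, ∀ s ∈ T, (MvPolynomial.aeval s h) ^ 2 = -1)
    (Z : Set ((β → ℝ) × (κ → ℂ)))
    (hZ : IsCompact Z) (hconj : ∀ z ∈ Z, (z.1, fun i => star (z.2 i)) ∈ Z)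
    (hfin : ∀ b, {s | (b, s) ∈ Z}.Finite) (hreal : ∀ z ∈ Z, ∃ i, (z.2 i).im ≠ 0)
    (ε : ℝ) (hε : 0 < ε) :
    ∃ g : Fin (Fintype.card β + 1) → MvPolynomial (β ⊕ κ) ℝ, ∀ z ∈ Z,
      ‖∑ i, (MvPolynomial.aeval (Sum.elim (fun j => (z.1 j : ℂ)) z.2) (g i)) ^ 2 + 1‖ ≤ ε := by
  have hε2 : 0 < ε / 2 := half_pos hε
  choose U hU h hh using fun b => CL2_of CL1 Z hZ hconj hfin hreal b (ε / 2) hε2
  have hK : IsCompact (Prod.fst '' Z) := hZ.image continuous_fst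
  obtain ⟨Q, _, θ, A, hone, horth, hsupp⟩ := CL3 (Prod.fst '' Z) hK U (fun b _ => ⟨b, hU b⟩)
  obtain ⟨M, hM, hMb⟩ := CLaux.bdd_fam Z hZ
    (fun a : Fin (Fintype.card β + 1) × Q => h (A a.1 a.2))
  set T : ℝ := (Fintype.card (Fin (Fintype.card β + 1)) : ℝ) *
    (3 * ((Fintype.card Q : ℝ) * M) ^ 2) with hT
  have hT0 : 0 ≤ T := by positivity
  set η : ℝ := min 1 (ε / 2 / (T + 1)) with hη
  have hη0 : 0 < η := lt_min one_pos (by positivity)
  have hηT : η * T ≤ ε / 2 := by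
    have h1 : η ≤ ε / 2 / (T + 1) := min_le_right _ _
    calc η * T ≤ η * (T + 1) := mul_le_mul_of_nonneg_left (by linarith) hη0.le
      _ ≤ ε / 2 / (T + 1) * (T + 1) := mul_le_mul_of_nonneg_right h1 (by linarith)
      _ = ε / 2 := div_mul_cancel₀ _ (by linarith)
  choose p hp using fun (i : Fin (Fintype.card β + 1)) (q : Q) =>
    WS (Prod.fst '' Z) hK (θ i q) η hη0
  refine ⟨fun i => ∑ q, MvPolynomial.rename Sum.inl (p i q) *
    MvPolynomial.rename Sum.inr (h (A i q)), fun z hz => ?_⟩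
  have hb : z.1 ∈ Prod.fst '' Z := ⟨z, hz, rfl⟩
  have hev : ∀ i, MvPolynomial.aeval (Sum.elim (fun j => (z.1 j : ℂ)) z.2)
      (∑ q, MvPolynomial.rename Sum.inl (p i q) * MvPolynomial.rename Sum.inr (h (A i q))) =
      ∑ q, ((MvPolynomial.eval z.1 (p i q) : ℝ) : ℂ) *
        MvPolynomial.aeval z.2 (h (A i q)) := by
    intro i
    rw [map_sum]
    refine Finset.sum_congr rfl fun q _ => ?_
    rw [map_mul, MvPolynomial.aeval_rename, MvPolynomial.aeval_rename, Sum.elim_comp_inl,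
      Sum.elim_comp_inr]
    congr 1
    have h1 : (fun j => ((z.1 j : ℝ) : ℂ)) = fun j => algebraMap ℝ ℂ (z.1 j) := rfl
    rw [h1]
    refine (MvPolynomial.aeval_algebraMap_apply ℂ z.1 (p i q)).trans ?_
    rw [MvPolynomial.aeval_eq_eval]
    rfl
  simp_rw [hev]
  have hθ1 : ∀ i q, |θ i q z.1| ≤ 1 := by
    intro i q
    rw [abs_le_one_iff_mul_self_le_one, ← sq, ← hone z.1 hb]
    refine (Finset.single_le_sum (f := fun q => θ i q z.1 ^ 2) (fun q _ => sq_nonneg _)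
      (Finset.mem_univ q)).trans ?_
    exact Finset.single_le_sum (f := fun i => ∑ q, θ i q z.1 ^ 2)
      (fun i _ => Finset.sum_nonneg fun q _ => sq_nonneg _) (Finset.mem_univ i)
  have h1 := CLaux.exact (fun i q => θ i q z.1)
    (fun i q => (MvPolynomial.aeval z.2 (h (A i q)) : ℂ)) (ε / 2) (hone z.1 hb)
    (fun i q q' hne => horth i q q' z.1 hb hne)
    (fun i q h0 => hh (A i q) z hz (hsupp i q z.1 hb h0))
  have h2 := CLaux.pert (fun i q => θ i q z.1) (fun i q => MvPolynomial.eval z.1 (p i q))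
    (fun i q => (MvPolynomial.aeval z.2 (h (A i q)) : ℂ)) M η hM hη0.le (min_le_left _ _) hθ1
    (fun i q => hp i q z.1 hb) (fun i q => hMb (i, q) z hz)
  calc _ = ‖(∑ i, (∑ q, ((MvPolynomial.eval z.1 (p i q) : ℝ) : ℂ) *
        MvPolynomial.aeval z.2 (h (A i q))) ^ 2 - ∑ i, (∑ q, ((θ i q z.1 : ℝ) : ℂ) *
        MvPolynomial.aeval z.2 (h (A i q))) ^ 2) + (∑ i, (∑ q, ((θ i q z.1 : ℝ) : ℂ) *
        MvPolynomial.aeval z.2 (h (A i q))) ^ 2 + 1)‖ := by congr 1; ring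
    _ ≤ _ := norm_add_le _ _
    _ ≤ η * T + ε / 2 := by
        refine add_le_add (h2.trans (le_of_eq ?_)) h1
        rw [hT]; ring
    _ ≤ ε := by linarith

end Pool.Agent.PFI
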