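import Pool.Agent.PFI.CL1
import Pool.Agent.PFI.CLof

/-!
# MP_b906c2_al, row CL, word for word (helper65)
-/

set_option autoImplicit false

namespace Pool.Agent.PFI

theorem CL {β κ : Type} [Fintype β] [Fintype κ] (Z : Set ((β → ℝ) × (κ → ℂ)))
    (hZ : IsCompact Z) (hconj : ∀ z ∈ Z, (z.1, fun i => star (z.2 i)) ∈ Z)
    (hfin : ∀ b, {s | (b, s) ∈ Z}.Finite) (hreal : ∀ z ∈ Z, ∃ i, (z.2 i).im ≠ 0)
    (ε : ℝ) (hε : 0 < ε) :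
    ∃ g : Fin (Fintype.card β + 1) → MvPolynomial (β ⊕ κ) ℝ, ∀ z ∈ Z,
      ‖∑ i, (MvPolynomial.aeval (Sum.elim (fun j => (z.1 j : ℂ)) z.2) (g i)) ^ 2 + 1‖ ≤ ε :=
  CL_of (fun T hT hc hr => CL1 T hT hc hr) Z hZ hconj hfin hreal ε hε

end Pool.Agent.PFI
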