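import Mathlib

/-!
# MP_b906c2_al, row CL2: the local version of CL1 (helper21)
-/

set_option autoImplicit false

namespace Pool.Agent.PFI

/-- CL2 from CL1 (CL1 as a hypothesis) -/
theorem CL2_of {β κ : Type} [Fintype β] [Fintype κ]
    (CL1 : ∀ (T : Set (κ → ℂ)), T.Finite →
      (∀ s ∈ T, (fun i => star (s i)) ∈ T) → (∀ s ∈ T, ∃ i, (s i).im ≠ 0) →
      ∃ h : MvPolynomial κ ℝ, ∀ s ∈ T, (MvPolynomial.aeval s h) ^ 2 = -1)
    (Z : Set ((β → ℝ) × (κ → ℂ)))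
    (hZ : IsCompact Z) (hconj : ∀ z ∈ Z, (z.1, fun i => star (z.2 i)) ∈ Z)
    (hfin : ∀ b, {s | (b, s) ∈ Z}.Finite) (hreal : ∀ z ∈ Z, ∃ i, (z.2 i).im ≠ 0)
    (b₀ : β → ℝ) (ε : ℝ) (hε : 0 < ε) :
    ∃ U ∈ nhds b₀, ∃ h : MvPolynomial κ ℝ, ∀ z ∈ Z, z.1 ∈ U →
      ‖(MvPolynomial.aeval z.2 h) ^ 2 + 1‖ ≤ ε := by
  obtain ⟨h, hh⟩ := CL1 {s | (b₀, s) ∈ Z} (hfin b₀) (fun s hs => hconj _ hs)
    (fun s hs => hreal _ hs)
  have hc : Continuous fun s : κ → ℂ => MvPolynomial.aeval s h := by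
    have : (fun s : κ → ℂ => MvPolynomial.aeval s h) =
        fun s => MvPolynomial.eval s (MvPolynomial.map (algebraMap ℝ ℂ) h) := by
      funext s
      rw [MvPolynomial.eval_map, MvPolynomial.aeval_def]
    rw [this]
    exact MvPolynomial.continuous_eval _
  have hcl : IsClosed {z : (β → ℝ) × (κ → ℂ) | ε ≤ ‖(MvPolynomial.aeval z.2 h) ^ 2 + 1‖} :=
    isClosed_le continuous_const ((((hc.comp continuous_snd).pow 2).add continuous_const).norm)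
  have hW : IsCompact (Prod.fst '' (Z ∩ {z : (β → ℝ) × (κ → ℂ) |
      ε ≤ ‖(MvPolynomial.aeval z.2 h) ^ 2 + 1‖})) :=
    (hZ.inter_right hcl).image continuous_fst
  refine ⟨_, hW.isClosed.isOpen_compl.mem_nhds ?_, h, ?_⟩
  · rintro ⟨⟨b, s⟩, ⟨hz, hz'⟩, rfl⟩
    have h1 := hh s hz
    simp only [Set.mem_ofPred_eq] at hz'
    rw [h1] at hz'
    norm_num at hz'
    linarith
  · intro z hz hzU
    by_contra hcon
    exact hzU ⟨z, ⟨hz, (not_le.mp hcon).le⟩, rfl⟩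

end Pool.Agent.PFI
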