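import Pool.Agent.PFI.CL1
import Pool.Agent.PFI.CL2of

set_option autoImplicit false

namespace Pool.Agent.PFI

theorem CL2 {β κ : Type} [Fintype β] [Fintype κ] (Z : Set ((β → ℝ) × (κ → ℂ)))
    (hZ : IsCompact Z) (hconj : ∀ z ∈ Z, (z.1, fun i => star (z.2 i)) ∈ Z)
    (hfin : ∀ b, {s | (b, s) ∈ Z}.Finite) (hreal : ∀ z ∈ Z, ∃ i, (z.2 i).im ≠ 0)
    (b₀ : β → ℝ) (ε : ℝ) (hε : 0 < ε) :
    ∃ U ∈ nhds b₀, ∃ h : MvPolynomial κ ℝ, ∀ z ∈ Z, z.1 ∈ U →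
      ‖(MvPolynomial.aeval z.2 h) ^ 2 + 1‖ ≤ ε :=
  CL2_of (fun T hT hc hr => CL1 T hT hc hr) Z hZ hconj hfin hreal b₀ ε hε

end Pool.Agent.PFI
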