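import Pool.Agent.PDF.Fin

/-!
# Pfister's bound is not optimal: definitions (MP_b906c2_al, S02848)
-/

set_option autoImplicit false

namespace Pool.Agent.PFI

open Pool.Agent.PDF

/-- `ℝ[y₁,…,y_N]` -/
abbrev RP (N : ℕ) : Type := MvPolynomial (Fin N) ℝ

/-- `(1, y) ∈ ℝ^{N+1}` -/
def vr {N : ℕ} (y : Fin N → ℝ) : Fin (N + 1) → ℝ := Fin.cons 1 y

/-- `1 + |y|²` -/
def nr {N : ℕ} (y : Fin N → ℝ) : ℝ := ∑ a, vr y a ^ 2

/-- A finite extension `L` of `ℝ(y₁,…,y_N)` generated by elements `w i` with `∑ w i ^ 2 = 0`,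
integral over `ℝ[1, y₁,…,y_N]` in the homogeneous sense, whose real span contains `1, y₁,…,y_N`. -/
structure Setup (N : ℕ) (L : Type) [Field L] [Algebra (kk N) L] (ι : Type) [Fintype ι]
    (w : ι → L) (C : Fin (N + 1) → ι → ℝ) : Prop where
  fin : FiniteDimensional (kk N) L
  iso : ∑ i, w i ^ 2 = 0
  lin : ∀ a, ∑ i, algebraMap (kk N) L (algebraMap ℝ (kk N) (C a i)) * w i =
    algebraMap (kk N) L (vv N a)
  int : ∀ i, ∃ (e : ℕ) (c : Fin e → MvPolynomial (Fin (N + 1)) ℝ),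
    (∀ k, (c k).IsHomogeneous (e - k)) ∧
    w i ^ e + ∑ k : Fin e, algebraMap (kk N) L (MvPolynomial.aeval (vv N) (c k)) *
      w i ^ (k : ℕ) = 0
  gen : Algebra.adjoin (kk N) (Set.range w) = ⊤

section compact

variable {N : ℕ} {ι : Type} [Fintype ι]

/-- the compact set of all possible normalised values `(ω, w)` -/
def Z0 (C : Fin (N + 1) → ι → ℝ) (e : ι → ℕ)
    (c : (i : ι) → Fin (e i) → MvPolynomial (Fin (N + 1)) ℝ) :
    Set ((Fin (N + 1) → ℝ) × (ι → ℂ)) :=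
  {z | ∑ a, z.1 a ^ 2 = 1 ∧ ∑ i, z.2 i ^ 2 = 0 ∧
    (∀ a, ∑ i, (C a i : ℂ) * z.2 i = (z.1 a : ℂ)) ∧
    ∀ i, z.2 i ^ (e i) + ∑ k : Fin (e i), ((MvPolynomial.eval z.1 (c i k) : ℝ) : ℂ) *
      z.2 i ^ (k : ℕ) = 0}

/-- its image under `(ω, w) ↦ (ω ωᵀ, ω wᵀ)` -/
def ZZ (C : Fin (N + 1) → ι → ℝ) (e : ι → ℕ)
    (c : (i : ι) → Fin (e i) → MvPolynomial (Fin (N + 1)) ℝ) :
    Set ((Fin (N + 1) × Fin (N + 1) → ℝ) × (Fin (N + 1) × ι → ℂ)) :=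
  (fun z => (fun p => z.1 p.1 * z.1 p.2, fun p => (z.1 p.1 : ℂ) * z.2 p.2)) '' Z0 C e c

/-- the elements `v_a v_b / r`, `v_a w_i / r` of `L` -/
noncomputable def us {L : Type} [Field L] [Algebra (kk N) L] (w : ι → L) :
    (Fin (N + 1) × Fin (N + 1)) ⊕ (Fin (N + 1) × ι) → L :=
  Sum.elim (fun p => algebraMap (kk N) L (vv N p.1 * vv N p.2 / rr N))
    (fun p => algebraMap (kk N) L (vv N p.1 / rr N) * w p.2)

end compact

/-- `χ` is a specialisation at the real point `y` -/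
def Spec {N : ℕ} {O : Type} [CommRing O] [Algebra (RP N) O] (y : Fin N → ℝ) (χ : O →+* ℂ) : Prop :=
  ∀ p : RP N, χ (algebraMap (RP N) O p) = ((MvPolynomial.eval y p : ℝ) : ℂ)

end Pool.Agent.PFI
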