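import Pool.Agent.PFI.Defs

/-!
# Row EX: extension of specialisations (MP_b906c2_al)
-/

set_option autoImplicit false

namespace Pool.Agent.PFI

open Pool.Agent.PDF

/-- a homomorphism into `ℂ` extends to an integral extension -/
theorem ext_hom {R O : Type} [CommRing R] [CommRing O] [Algebra R O] [Algebra.IsIntegral R O]
    (hinj : Function.Injective (algebraMap R O)) (f : R →+* ℂ) :
    ∃ χ : O →+* ℂ, ∀ p, χ (algebraMap R O p) = f p := by
  have hP : (RingHom.ker f).IsPrime := RingHom.ker_isPrime f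
  obtain ⟨Q, -, hQ, hQP⟩ := Ideal.exists_ideal_over_prime_of_isIntegral (S := O)
    (RingHom.ker f) ⊥ (by
      rw [← RingHom.ker_eq_comap_bot, (RingHom.injective_iff_ker_eq_bot _).1 hinj]
      exact bot_le)
  have hlo : Q.LiesOver (RingHom.ker f) := ⟨hQP.symm⟩
  let : Algebra (R ⧸ RingHom.ker f) ℂ := (RingHom.kerLift f).toAlgebra
  have h1 : Function.Injective (algebraMap (R ⧸ RingHom.ker f) ℂ) := RingHom.kerLift_injective f
  have h2 : Function.Injective (algebraMap (R ⧸ RingHom.ker f) (O ⧸ Q)) :=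
    FaithfulSMul.algebraMap_injective _ _
  have h3 : Algebra.IsIntegral (R ⧸ RingHom.ker f) (O ⧸ Q) := inferInstance
  have h4 : Module.IsTorsionFree (R ⧸ RingHom.ker f) ℂ := by
    have : FaithfulSMul (R ⧸ RingHom.ker f) ℂ := (faithfulSMul_iff_algebraMap_injective _ _).2 h1
    infer_instance
  let g : O ⧸ Q →ₐ[R ⧸ RingHom.ker f] ℂ := IsAlgClosed.lift
  refine ⟨(g : O ⧸ Q →+* ℂ).comp (Ideal.Quotient.mk Q), fun p => ?_⟩
  have h5 : (Ideal.Quotient.mk Q) (algebraMap R O p) =
      algebraMap (R ⧸ RingHom.ker f) (O ⧸ Q) (Ideal.Quotient.mk _ p) := rfl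
  rw [RingHom.comp_apply, h5]
  exact g.commutes _

theorem EX {N : ℕ} {Ω : Type} [Field Ω] [Algebra (kk N) Ω] [Algebra (RP N) Ω]
    [IsScalarTower (RP N) (kk N) Ω] (y : Fin N → ℝ) :
    ∃ χ : integralClosure (RP N) Ω →+* ℂ, Spec y χ := by
  have h1 : Function.Injective (algebraMap (RP N) (integralClosure (RP N) Ω)) := by
    have h2 : Function.Injective (algebraMap (RP N) Ω) := by
      rw [IsScalarTower.algebraMap_eq (RP N) (kk N) Ω]
      exact (algebraMap (kk N) Ω).injective.comp (IsFractionRing.injective (RP N) (kk N))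
    intro a b hab
    apply h2
    exact congrArg (fun z : integralClosure (RP N) Ω => (z : Ω)) hab
  obtain ⟨χ, hχ⟩ := ext_hom h1 ((algebraMap ℝ ℂ).comp (MvPolynomial.eval y))
  exact ⟨χ, fun p => hχ p⟩

end Pool.Agent.PFI
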