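import Pool.Agent.PFI.NN

/-!
# Finitely many elements of norm one on the real points (row SU)
-/

set_option autoImplicit false

namespace Pool.Agent.PFI

open Polynomial Pool.Agent.PDF

namespace SUaux

/-- the variables form a transcendence basis -/
theorem tb (n : ℕ) {L : Type} [Field L] [Algebra ℝ L] [Algebra (kk n) L]
    [IsScalarTower ℝ (kk n) L] [Algebra.IsAlgebraic (kk n) L] :
    IsTranscendenceBasis ℝ (fun i : Fin n => algebraMap (kk n) L
      (algebraMap (MvPolynomial (Fin n) ℝ) (kk n) (MvPolynomial.X i))) := by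
  have h1 := IsTranscendenceBasis.mvPolynomial (Fin n) ℝ
  have h2 : IsTranscendenceBasis ℝ (algebraMap (MvPolynomial (Fin n) ℝ) (kk n) ∘
      (fun i : Fin n => (MvPolynomial.X i : MvPolynomial (Fin n) ℝ))) := by
    have : Algebra.IsAlgebraic (MvPolynomial (Fin n) ℝ) (kk n) :=
      IsLocalization.isAlgebraic _ (nonZeroDivisors _)
    exact h1.algebraMap_comp
  exact h2.algebraMap_comp

/-- homogeneous polynomials at a multiple of a point -/
theorem hom_smul {σ A : Type} [CommRing A] [Algebra ℝ A] {g : MvPolynomial σ ℝ} {j : ℕ}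
    (hg : g.IsHomogeneous j) (v : σ → A) (c : A) :
    MvPolynomial.aeval (fun i => c * v i) g = c ^ j * MvPolynomial.aeval v g := by
  rw [MvPolynomial.aeval_def, MvPolynomial.aeval_def, MvPolynomial.eval₂_eq,
    MvPolynomial.eval₂_eq, Finset.mul_sum]
  refine Finset.sum_congr rfl fun d hd => ?_
  have h : d.degree = j := by
    by_contra hne
    exact MvPolynomial.mem_support_iff.mp hd (hg.coeff_eq_zero hne)
  have h2 : ∏ i ∈ d.support, (c * v i) ^ d i = c ^ j * ∏ i ∈ d.support, v i ^ d i := by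
    rw [← h, Finsupp.degree_apply, ← Finset.prod_pow_eq_pow_sum, ← Finset.prod_mul_distrib]
    exact Finset.prod_congr rfl fun i _ => mul_pow _ _ _
  rw [h2]; ring

/-- homogenisation -/
noncomputable def hz {d : ℕ} (h : MvPolynomial (Fin d) ℝ) : MvPolynomial (Fin (d + 1)) ℝ :=
  ∑ j ∈ Finset.range (h.totalDegree + 1), MvPolynomial.X 0 ^ (h.totalDegree - j) *
    MvPolynomial.rename Fin.succ (MvPolynomial.homogeneousComponent j h)

theorem hz_hom {d : ℕ} (h : MvPolynomial (Fin d) ℝ) : (hz h).IsHomogeneous h.totalDegree := by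
  refine MvPolynomial.IsHomogeneous.sum _ _ _ fun j hj => ?_
  have hj' : j ≤ h.totalDegree := Nat.lt_succ_iff.mp (Finset.mem_range.mp hj)
  have h1 : (MvPolynomial.X (R := ℝ) (0 : Fin (d + 1)) ^ (h.totalDegree - j)).IsHomogeneous
      (h.totalDegree - j) := MvPolynomial.isHomogeneous_X_pow _ _
  have h2 : (MvPolynomial.rename Fin.succ (MvPolynomial.homogeneousComponent j h) :
      MvPolynomial (Fin (d + 1)) ℝ).IsHomogeneous j :=
    (MvPolynomial.homogeneousComponent_isHomogeneous j h).rename_isHomogeneous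
  have h3 := h1.mul h2
  rwa [Nat.sub_add_cancel hj'] at h3

theorem hz_aeval {d : ℕ} {A : Type} [CommRing A] [Algebra ℝ A] (h : MvPolynomial (Fin d) ℝ)
    (l : Fin (d + 1) → A) (y : Fin d → A) (hy : ∀ i, l i.succ = l 0 * y i) :
    MvPolynomial.aeval l (hz h) = l 0 ^ h.totalDegree * MvPolynomial.aeval y h := by
  have h3 : MvPolynomial.aeval y h = ∑ j ∈ Finset.range (h.totalDegree + 1),
      MvPolynomial.aeval y (MvPolynomial.homogeneousComponent j h) := by
    conv_lhs => rw [← MvPolynomial.sum_homogeneousComponent h]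
    rw [map_sum]
  rw [hz, map_sum, h3, Finset.mul_sum]
  refine Finset.sum_congr rfl fun j hj => ?_
  have hj' : j ≤ h.totalDegree := Nat.lt_succ_iff.mp (Finset.mem_range.mp hj)
  have h1 : (l ∘ Fin.succ) = fun i => l 0 * y i := funext hy
  rw [map_mul, map_pow, MvPolynomial.aeval_X, MvPolynomial.aeval_rename, h1,
    hom_smul (MvPolynomial.homogeneousComponent_isHomogeneous j h), ← mul_assoc, ← pow_add,
    Nat.sub_add_cancel hj']

theorem hz_ne {d : ℕ} (h : MvPolynomial (Fin d) ℝ) (h0 : hz h = 0) : h = 0 := by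
  have h1 := hz_aeval h (A := MvPolynomial (Fin d) ℝ) (Fin.cons 1 MvPolynomial.X)
    MvPolynomial.X (by intro i; simp)
  rw [h0] at h1
  simpa using h1.symm

/-- the elements `l a / l 0` are algebraically independent -/
theorem ai {d : ℕ} {L : Type} [Field L] [Algebra ℝ L] (l : Fin (d + 1) → L)
    (hl : ∀ (e : ℕ) (g : MvPolynomial (Fin (d + 1)) ℝ), g.IsHomogeneous e →
        MvPolynomial.aeval l g = 0 → g = 0) :
    l 0 ≠ 0 ∧ AlgebraicIndependent ℝ (fun i : Fin d => l i.succ / l 0) := by
  have h0 : l 0 ≠ 0 := by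
    intro h
    have h1 := hl 1 (MvPolynomial.X 0) (MvPolynomial.isHomogeneous_X _ _)
      (by rw [MvPolynomial.aeval_X, h])
    exact MvPolynomial.X_ne_zero _ h1
  refine ⟨h0, ?_⟩
  rw [algebraicIndependent_iff]
  intro p hp
  apply hz_ne
  apply hl _ _ (hz_hom p)
  rw [hz_aeval p l (fun i : Fin d => l i.succ / l 0) (fun i => by field_simp), hp, mul_zero]

/-- the field generated by the elements `w` -/
theorem gen_top (N : ℕ) {L : Type} [Field L] (ψ : kk N →+* L) (e : L) (F : kk N) (hF : F ≠ 0)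
    (he : e ^ 2 = - ψ F) (hs : ∀ z : L, ∃ a b : kk N, z = ψ a + e * ψ b) (r : ℕ)
    (f : Fin r → kk N) (hf : F = ∑ i, f i ^ 2) (E : Subfield L)
    (hR : ∀ c : ℝ, ψ (algebraMap ℝ (kk N) c) ∈ E) (l : L) (hl : l ≠ 0)
    (hw : ∀ (i : Option (Fin r)) (j : Fin (N + 1)),
      (Option.elim i e (fun i => ψ (f i)) * ψ (vv N j)) / l ∈ E) (z : L) : z ∈ E := by
  have he0 : e ≠ 0 := by
    intro h
    rw [h] at he
    have h1 : ψ F = 0 := by
      have : (0 : L) ^ 2 = - ψ F := he
      simpa using this.symm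
    exact hF ((map_eq_zero ψ).mp h1)
  have hv0 : vv N 0 = 1 := rfl
  have h00 : e / l ∈ E := by
    have h := hw none 0
    simpa [hv0] using h
  have hx : ∀ j : Fin (N + 1), ψ (vv N j) ∈ E := by
    intro j
    have h := E.div_mem (hw none j) h00
    have h2 : (Option.elim none e (fun i => ψ (f i)) * ψ (vv N j)) / l / (e / l) =
        ψ (vv N j) := by
      simp only [Option.elim_none]
      field_simp
    rwa [h2] at h
  have hpoly : ∀ p : MvPolynomial (Fin N) ℝ,
      ψ (algebraMap (MvPolynomial (Fin N) ℝ) (kk N) p) ∈ E := by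
    intro p
    induction p using MvPolynomial.induction_on with
    | C c =>
      have h : algebraMap (MvPolynomial (Fin N) ℝ) (kk N) (MvPolynomial.C c) =
          algebraMap ℝ (kk N) c := by
        rw [IsScalarTower.algebraMap_apply ℝ (MvPolynomial (Fin N) ℝ) (kk N)]
        rfl
      rw [h]
      exact hR c
    | add p q hp hq => rw [map_add, map_add]; exact E.add_mem hp hq
    | mul_X p n hp =>
      rw [map_mul, map_mul]
      refine E.mul_mem hp ?_
      have h := hx n.succ
      have h2 : vv N n.succ = algebraMap (MvPolynomial (Fin N) ℝ) (kk N) (MvPolynomial.X n) := by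
        simp [vv]
      rwa [h2] at h
  have hK : ∀ a : kk N, ψ a ∈ E := by
    intro a
    obtain ⟨p, q, hq, rfl⟩ := IsFractionRing.div_surjective (A := MvPolynomial (Fin N) ℝ) a
    rw [map_div₀]
    exact E.div_mem (hpoly p) (hpoly q)
  have hex : ∃ i, f i ≠ 0 := by
    by_contra hcon
    push Not at hcon
    apply hF
    rw [hf]
    simp [hcon]
  obtain ⟨i, hi⟩ := hex
  have hψi : ψ (f i) ≠ 0 := fun h => hi ((map_eq_zero ψ).mp h)
  have heE : e ∈ E := by
    have h := hw (some i) 0
    have h1 : ψ (f i) / l ∈ E := by simpa [hv0] using h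
    have h2 := E.mul_mem (E.div_mem h00 h1) (hK (f i))
    have h3 : e / l / (ψ (f i) / l) * ψ (f i) = e := by field_simp
    rwa [h3] at h2
  obtain ⟨a, b, rfl⟩ := hs z
  exact E.add_mem (hK a) (E.mul_mem heE (hK b))

end SUaux

theorem SU (N : ℕ) {L : Type} [Field L] (ψ : kk N →+* L) (e : L) (F : kk N) (hF : F ≠ 0)
    (he : e ^ 2 = - ψ F) (hs : ∀ z : L, ∃ a b : kk N, z = ψ a + e * ψ b) (r : ℕ)
    (f : Fin r → kk N) (hf : F = ∑ i, f i ^ 2) :
    ∃ (φ : kk N →+* L) (ι : Type) (_ : Fintype ι) (w : ι → L) (C : Fin (N + 1) → ι → ℝ),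
      letI := φ.toAlgebra
      Setup N L ι w C := by
  classical
  let algR : Algebra ℝ L := (ψ.comp (algebraMap ℝ (kk N))).toAlgebra
  have hRdef : ∀ c : ℝ, algebraMap ℝ L c = ψ (algebraMap ℝ (kk N) c) := fun _ => rfl
  have he0 : e ≠ 0 := by
    intro h
    rw [h] at he
    have h1 : ψ F = 0 := by
      have : (0 : L) ^ 2 = - ψ F := he
      simpa using this.symm
    exact hF ((map_eq_zero ψ).mp h1)
  set p : Option (Fin r) → L := fun i => Option.elim i e (fun i => ψ (f i)) with hp
  set w : Option (Fin r) × Fin (N + 1) → L := fun ij => p ij.1 * ψ (vv N ij.2) with hwdef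
  have hw0 : ∃ i, w i ≠ 0 := ⟨(none, 0), by
    have hv0 : vv N 0 = 1 := rfl
    simp [hwdef, hp, hv0, he0]⟩
  obtain ⟨d, C, hC1, hC2⟩ := NN w hw0
  set l : Fin (d + 1) → L := fun a => ∑ i, algebraMap ℝ L (C a i) * w i with hldef
  obtain ⟨hl0, hai⟩ := SUaux.ai l hC1
  -- the homomorphism
  set y : Fin d → L := fun i => l i.succ / l 0 with hy
  have hinj : Function.Injective (MvPolynomial.aeval (R := ℝ) y) := hai
  let φ : kk d →+* L := IsFractionRing.lift (A := MvPolynomial (Fin d) ℝ)
    (g := (MvPolynomial.aeval (R := ℝ) y).toRingHom) hinj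
  have hφ : ∀ q : MvPolynomial (Fin d) ℝ, φ (algebraMap _ (kk d) q) =
      MvPolynomial.aeval y q := fun q => IsFractionRing.lift_algebraMap hinj q
  have hφR : ∀ c : ℝ, φ (algebraMap ℝ (kk d) c) = algebraMap ℝ L c := by
    intro c
    rw [IsScalarTower.algebraMap_apply ℝ (MvPolynomial (Fin d) ℝ) (kk d), hφ]
    exact MvPolynomial.aeval_C _ _
  have hφv : ∀ a, φ (vv d a) = l a / l 0 := by
    intro a
    refine Fin.cases ?_ (fun i => ?_) a
    · have h : vv d 0 = 1 := rfl
      rw [h, map_one, div_self hl0]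
    · have h : vv d i.succ = algebraMap (MvPolynomial (Fin d) ℝ) (kk d) (MvPolynomial.X i) := by
        simp [vv]
      rw [h, hφ, MvPolynomial.aeval_X]
  have hψv : ∀ (c : MvPolynomial (Fin (d + 1)) ℝ), φ (MvPolynomial.aeval (vv d) c) =
      MvPolynomial.aeval (fun a => l a / l 0) c := by
    intro c
    let φa : kk d →ₐ[ℝ] L := { φ with commutes' := hφR }
    have h : φa.comp (MvPolynomial.aeval (vv d)) =
        MvPolynomial.aeval (R := ℝ) (fun a => l a / l 0) := by
      apply MvPolynomial.algHom_ext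
      intro a
      rw [AlgHom.comp_apply, MvPolynomial.aeval_X, MvPolynomial.aeval_X]
      exact hφv a
    exact congrArg (fun g => g c) h
  let algK : Algebra (kk d) L := φ.toAlgebra
  have hKdef : ∀ c : kk d, algebraMap (kk d) L c = φ c := fun _ => rfl
  set w' : Option (Fin r) × Fin (N + 1) → L := fun i => w i / l 0 with hw'def
  have hiso : ∑ i, w' i ^ 2 = 0 := by
    have h1 : ∑ i, w i ^ 2 = 0 := by
      rw [Fintype.sum_prod_type]
      have h2 : ∀ i : Option (Fin r), ∑ j, w (i, j) ^ 2 =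
          p i ^ 2 * ∑ j, ψ (vv N j) ^ 2 := by
        intro i
        rw [Finset.mul_sum]
        exact Finset.sum_congr rfl fun j _ => mul_pow _ _ _
      simp_rw [h2]
      rw [← Finset.sum_mul, Fintype.sum_option]
      have h3 : p none ^ 2 + ∑ i : Fin r, p (some i) ^ 2 = 0 := by
        have h4 : p none ^ 2 = - ψ F := he
        have h5 : ∑ i : Fin r, p (some i) ^ 2 = ψ F := by
          rw [hf, map_sum]
          exact Finset.sum_congr rfl fun j _ => (map_pow ψ _ _).symm
        rw [h4, h5, neg_add_cancel]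
      rw [h3, zero_mul]
    have h2 : ∑ i, w' i ^ 2 = (∑ i, w i ^ 2) / l 0 ^ 2 := by
      rw [Finset.sum_div]
      exact Finset.sum_congr rfl fun i _ => div_pow _ _ _
    rw [h2, h1, zero_div]
  have hlin : ∀ a, ∑ i, algebraMap (kk d) L (algebraMap ℝ (kk d) (C a i)) * w' i =
      algebraMap (kk d) L (vv d a) := by
    intro a
    rw [hKdef, hφv, hldef, Finset.sum_div]
    refine Finset.sum_congr rfl fun i _ => ?_
    rw [hKdef, hφR, hw'def]
    exact mul_div_assoc _ _ _ |>.symm
  have hint : ∀ i, ∃ (e : ℕ) (c : Fin e → MvPolynomial (Fin (d + 1)) ℝ),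
      (∀ k, (c k).IsHomogeneous (e - k)) ∧
      w' i ^ e + ∑ k : Fin e, algebraMap (kk d) L (MvPolynomial.aeval (vv d) (c k)) *
        w' i ^ (k : ℕ) = 0 := by
    intro i
    obtain ⟨n, c, hc, h⟩ := hC2 i
    refine ⟨n, c, hc, ?_⟩
    have h1 : ∀ k : Fin n, algebraMap (kk d) L (MvPolynomial.aeval (vv d) (c k)) *
        w' i ^ (k : ℕ) = MvPolynomial.aeval l (c k) * w i ^ (k : ℕ) / l 0 ^ n := by
      intro k
      have h2 : (fun a => l a / l 0) = fun a => (l 0)⁻¹ * l a := by
        funext a; rw [div_eq_inv_mul]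
      have h3 : l 0 ^ n = l 0 ^ (n - (k : ℕ)) * l 0 ^ (k : ℕ) := by
        rw [← pow_add, Nat.sub_add_cancel k.2.le]
      rw [hKdef, hψv, h2, SUaux.hom_smul (hc k), hw'def, h3]
      simp only [div_pow, inv_pow]
      field_simp
    rw [Finset.sum_congr rfl fun k _ => h1 k, ← Finset.sum_div, hw'def]
    simp only [div_pow]
    rw [← add_div, h, zero_div]
  have hintK : ∀ i, IsIntegral (kk d) (w' i) := by
    intro i
    obtain ⟨n, c, _, h⟩ := hint i
    refine ⟨X ^ n + ∑ k : Fin n, Polynomial.C (MvPolynomial.aeval (vv d) (c k)) * X ^ (k : ℕ),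
      ?_, ?_⟩
    · apply Polynomial.monic_X_pow_add
      exact Polynomial.degree_sum_fin_lt _
    · rw [Polynomial.eval₂_add, Polynomial.eval₂_pow, Polynomial.eval₂_X,
        Polynomial.eval₂_finsetSum]
      simp only [Polynomial.eval₂_mul, Polynomial.eval₂_C, Polynomial.eval₂_pow,
        Polynomial.eval₂_X]
      exact h
  have hgen : Algebra.adjoin (kk d) (Set.range w') = ⊤ := by
    have h1 := IntermediateField.adjoin_toSubalgebra_of_isAlgebraic (F := kk d) (S := Set.range w')
      (by rintro _ ⟨i, rfl⟩; exact (hintK i).isAlgebraic)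
    rw [← h1, ← IntermediateField.top_toSubalgebra]
    congr 1
    rw [eq_top_iff]
    intro z _
    refine SUaux.gen_top N ψ e F hF he hs r f hf
      (IntermediateField.adjoin (kk d) (Set.range w')).toSubfield ?_ (l 0) hl0 ?_ z
    · intro c
      have h2 : ψ (algebraMap ℝ (kk N) c) = algebraMap (kk d) L (algebraMap ℝ (kk d) c) :=
        (hφR c).symm
      rw [h2]
      exact IntermediateField.algebraMap_mem _ _
    · intro i j
      exact IntermediateField.subset_adjoin (kk d) (Set.range w') ⟨(i, j), rfl⟩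
  have hfin : FiniteDimensional (kk d) L := by
    have h1 := fg_adjoin_of_finite (R := kk d) (Set.finite_range w')
      (by rintro _ ⟨i, rfl⟩; exact hintK i)
    rw [hgen] at h1
    exact ⟨by simpa using h1⟩
  have hTd : IsTranscendenceBasis ℝ (fun i : Fin d => algebraMap (kk d) L
      (algebraMap (MvPolynomial (Fin d) ℝ) (kk d) (MvPolynomial.X i))) := by
    have : IsScalarTower ℝ (kk d) L := IsScalarTower.of_algebraMap_eq fun c => (hφR c).symm
    exact SUaux.tb d
  have hTN : IsTranscendenceBasis ℝ (fun i : Fin N => ψ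
      (algebraMap (MvPolynomial (Fin N) ℝ) (kk N) (MvPolynomial.X i))) := by
    let algN : Algebra (kk N) L := ψ.toAlgebra
    have : IsScalarTower ℝ (kk N) L := IsScalarTower.of_algebraMap_eq fun c => rfl
    have hea : IsAlgebraic (kk N) e := by
      refine ⟨X ^ 2 + Polynomial.C F, (Polynomial.monic_X_pow_add_C F two_ne_zero).ne_zero, ?_⟩
      rw [map_add, map_pow, Polynomial.aeval_X, Polynomial.aeval_C, he]
      exact neg_add_cancel _
    have : Algebra.IsAlgebraic (kk N) L := by
      constructor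
      intro z
      obtain ⟨a, b, rfl⟩ := hs z
      exact (isAlgebraic_algebraMap a).add (hea.mul (isAlgebraic_algebraMap b))
    exact SUaux.tb N (L := L)
  have hd : d = N := by
    have h := hTd.cardinalMk_eq hTN
    simpa using h
  subst hd
  exact ⟨φ, Option (Fin r) × Fin (d + 1), inferInstance, w', C,
    ⟨hfin, hiso, hlin, hint, hgen⟩⟩

end Pool.Agent.PFI
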