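import Pool.Agent.PFI.LV
import Pool.Agent.PFI.SU

/-!
# Pfister's bound is not optimal (row FIN): `p(ℝ(X₁,…,X_N)) ≤ 2^N - 1` for `N ≥ 10`
-/

set_option autoImplicit false

namespace Pool.Agent.PFI

open Pool.Agent.PDF

/-- Every sum of squares in `ℝ(X₁,…,X_N)`, `N ≥ 10`, is a sum of `2 ^ N - 1` squares. -/
theorem main (N : ℕ) (hN : 10 ≤ N) (x : kk N) (hx : IsSumSq x) : SS (2 ^ N - 1) x := by
  by_cases h0 : x = 0
  · rw [h0]; exact SS_zero_val _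
  obtain ⟨r, f, hf⟩ := ASaux.sum_of_isSumSq hx
  obtain ⟨L, _, ψ, e, he, hs⟩ := E0 x
  obtain ⟨φ, ι, _, w, C, hS⟩ := SU N ψ e x h0 he hs r f hf
  letI := φ.toAlgebra
  have h1 := LV N hN hS
  have h2 := E2 (FR_kk N) ψ x e he hs (N - 1) h1
  rwa [Nat.sub_add_cancel (by omega : 1 ≤ N)] at h2

theorem not_main :
    ¬ (∀ n : ℕ,
      sInf {p : ℕ | ∀ x : FractionRing (MvPolynomial (Fin n) ℝ), IsSumSq x →
        ∃ f : Fin p → FractionRing (MvPolynomial (Fin n) ℝ), x = ∑ i, f i ^ 2} = 2 ^ n) := by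
  intro h
  have h1 := h 10
  have h2 : sInf {p : ℕ | ∀ x : FractionRing (MvPolynomial (Fin 10) ℝ), IsSumSq x →
      ∃ f : Fin p → FractionRing (MvPolynomial (Fin 10) ℝ), x = ∑ i, f i ^ 2} ≤ 2 ^ 10 - 1 :=
    Nat.sInf_le fun x hx => main 10 le_rfl x hx
  rw [h1] at h2
  norm_num at h2

end Pool.Agent.PFI
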