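import Pool.Agent.PFI.Defs

/-!
# Row IN: perturbation making the sums of square roots injective
-/

set_option autoImplicit false

namespace Pool.Agent.PFI

open Polynomial Pool.Agent.PDF

namespace INaux

theorem eval_bound {n : ℕ} (p : MvPolynomial (Fin n) ℝ) (d : ℕ) (hp : p.IsHomogeneous d)
    (v : Fin n → ℝ) (R : ℝ) (hR : ∀ i, |v i| ≤ R) :
    |MvPolynomial.eval v p| ≤ (∑ m ∈ p.support, |p.coeff m|) * R ^ d := by
  rw [MvPolynomial.eval_eq', Finset.sum_mul]
  refine (Finset.abs_sum_le_sum_abs _ _).trans (Finset.sum_le_sum fun m hm => ?_)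
  rw [abs_mul, Finset.abs_prod]
  have hd : ∑ i, m i = d := by
    have h := hp (MvPolynomial.mem_support_iff.mp hm)
    rw [← h, Finsupp.weight_apply, Finsupp.sum_fintype]
    · simp
    · simp
  refine mul_le_mul_of_nonneg_left ?_ (abs_nonneg _)
  calc ∏ i, |v i ^ m i| = ∏ i, |v i| ^ m i := by simp [abs_pow]
    _ ≤ ∏ i, R ^ m i := Finset.prod_le_prod (fun i _ => by positivity)
        (fun i _ => pow_le_pow_left₀ (abs_nonneg _) (hR i) _)
    _ = R ^ d := by rw [Finset.prod_pow_eq_pow_sum, hd]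

theorem root_bound (e : ℕ) (c : Fin e → ℂ) (A R : ℝ) (hA : 0 ≤ A) (hR : 0 < R) (z : ℂ)
    (hz : z ^ e + ∑ k, c k * z ^ (k : ℕ) = 0) (hc : ∀ k : Fin e, ‖c k‖ ≤ A * R ^ (e - (k : ℕ))) :
    ‖z‖ ≤ (1 + e * A) * R := by
  by_contra hlt
  push Not at hlt
  have hRz : R ≤ ‖z‖ := by
    have : R ≤ (1 + e * A) * R := by
      have : 0 ≤ (e : ℝ) * A * R := by positivity
      nlinarith
    linarith
  have hz0 : 0 < ‖z‖ := lt_of_lt_of_le hR hRz
  have h1 : ‖z‖ ^ e ≤ ∑ k : Fin e, A * R * ‖z‖ ^ (e - 1) := by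
    have h2 : z ^ e = - ∑ k, c k * z ^ (k : ℕ) := by linear_combination hz
    rw [← norm_pow, h2, norm_neg]
    refine (norm_sum_le _ _).trans (Finset.sum_le_sum fun k _ => ?_)
    rw [norm_mul, norm_pow]
    have hk : (k : ℕ) < e := k.2
    have h3 : R ^ (e - (k : ℕ)) = R * R ^ (e - 1 - k) := by
      rw [← pow_succ']; congr 1; omega
    have h4 : R ^ (e - 1 - (k : ℕ)) ≤ ‖z‖ ^ (e - 1 - (k : ℕ)) := pow_le_pow_left₀ hR.le hRz _
    calc ‖c k‖ * ‖z‖ ^ (k : ℕ) ≤ (A * R ^ (e - (k : ℕ))) * ‖z‖ ^ (k : ℕ) :=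
          mul_le_mul_of_nonneg_right (hc k) (by positivity)
      _ = A * R * (R ^ (e - 1 - (k : ℕ)) * ‖z‖ ^ (k : ℕ)) := by rw [h3]; ring
      _ ≤ A * R * (‖z‖ ^ (e - 1 - (k : ℕ)) * ‖z‖ ^ (k : ℕ)) := by gcongr
      _ = A * R * ‖z‖ ^ (e - 1) := by rw [← pow_add]; congr 2; omega
  rcases Nat.eq_zero_or_pos e with he | he
  · subst he
    simp at hz
  · have h5 : ‖z‖ ^ e = ‖z‖ * ‖z‖ ^ (e - 1) := by rw [← pow_succ']; congr 1; omega
    rw [h5, Finset.sum_const, Finset.card_univ, Fintype.card_fin, nsmul_eq_mul] at h1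
    have h6 : 0 < ‖z‖ ^ (e - 1) := by positivity
    have h7 : ‖z‖ ≤ e * (A * R) := by
      have : ‖z‖ * ‖z‖ ^ (e - 1) ≤ (e * (A * R)) * ‖z‖ ^ (e - 1) := by linarith
      exact le_of_mul_le_mul_right this h6
    nlinarith

theorem nr_ge {N : ℕ} (y : Fin N → ℝ) : 1 ≤ nr y := by
  unfold nr
  rw [Fin.sum_univ_succ]
  have : 0 ≤ ∑ i : Fin N, vr y i.succ ^ 2 := Finset.sum_nonneg fun i _ => sq_nonneg _
  simp only [vr, Fin.cons_zero, Fin.cons_succ] at this ⊢
  linarith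

theorem abs_vr_le {N : ℕ} (y : Fin N → ℝ) (a : Fin (N + 1)) : |vr y a| ≤ Real.sqrt (nr y) := by
  apply Real.abs_le_sqrt
  exact Finset.single_le_sum (f := fun a => vr y a ^ 2) (fun i _ => sq_nonneg _)
    (Finset.mem_univ a)

/-- dehomogenisation -/
noncomputable def dh {N : ℕ} (p : MvPolynomial (Fin (N + 1)) ℝ) : RP N :=
  MvPolynomial.aeval (Fin.cons 1 MvPolynomial.X : Fin (N + 1) → RP N) p

theorem dh_vv {N : ℕ} (p : MvPolynomial (Fin (N + 1)) ℝ) :
    algebraMap (RP N) (kk N) (dh p) = MvPolynomial.aeval (vv N) p := by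
  have h : (IsScalarTower.toAlgHom ℝ (RP N) (kk N)) (dh p) = MvPolynomial.aeval (vv N) p := by
    unfold dh
    rw [← AlgHom.comp_apply, MvPolynomial.comp_aeval]
    congr 2
    funext i
    refine Fin.cases ?_ (fun j => ?_) i
    · simp [vv]
    · simp [vv]
  exact h

theorem dh_eval {N : ℕ} (y : Fin N → ℝ) (p : MvPolynomial (Fin (N + 1)) ℝ) :
    MvPolynomial.eval y (dh p) = MvPolynomial.eval (vr y) p := by
  unfold dh
  have h : (MvPolynomial.aeval y : RP N →ₐ[ℝ] ℝ)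
      (MvPolynomial.aeval (Fin.cons 1 MvPolynomial.X : Fin (N + 1) → RP N) p) =
      MvPolynomial.aeval (vr y) p := by
    rw [← AlgHom.comp_apply, MvPolynomial.comp_aeval]
    congr 2
    funext i
    refine Fin.cases ?_ (fun j => ?_) i
    · simp [vr]
    · simp [vr]
  simpa [MvPolynomial.aeval_eq_eval] using h

section bd

variable {N : ℕ} {L : Type} [Field L] [Algebra (kk N) L] [Algebra (RP N) L]
  [IsScalarTower (RP N) (kk N) L]

/-- growth bound at all real specialisations -/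
def Bd (x : integralClosure (RP N) L) : Prop :=
  ∃ (C : ℝ) (d : ℕ), ∀ (y : Fin N → ℝ) (χ : integralClosure (RP N) L →+* ℂ), Spec y χ →
    ‖χ x‖ ≤ C * nr y ^ d

omit [Algebra (kk N) L] [IsScalarTower (RP N) (kk N) L] in
theorem Bd.one : Bd (1 : integralClosure (RP N) L) :=
  ⟨1, 0, fun y χ _ => by simp⟩

omit [Algebra (kk N) L] [IsScalarTower (RP N) (kk N) L] in
theorem Bd.mul {x x' : integralClosure (RP N) L} (h : Bd x) (h' : Bd x') : Bd (x * x') := by
  obtain ⟨C, d, h⟩ := h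
  obtain ⟨C', d', h'⟩ := h'
  refine ⟨C * C', d + d', fun y χ hχ => ?_⟩
  rw [map_mul, norm_mul]
  calc ‖χ x‖ * ‖χ x'‖ ≤ (C * nr y ^ d) * (C' * nr y ^ d') :=
        mul_le_mul (h y χ hχ) (h' y χ hχ) (norm_nonneg _) ((norm_nonneg _).trans (h y χ hχ))
    _ = C * C' * nr y ^ (d + d') := by rw [pow_add]; ring

theorem rel_int (x : L) (e : ℕ) (c : Fin e → MvPolynomial (Fin (N + 1)) ℝ)
    (h : x ^ e + ∑ k : Fin e, algebraMap (kk N) L (MvPolynomial.aeval (vv N) (c k)) *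
      x ^ (k : ℕ) = 0) : IsIntegral (RP N) x := by
  refine ⟨X ^ e + ∑ k : Fin e, C (dh (c k)) * X ^ (k : ℕ), ?_, ?_⟩
  · exact monic_X_pow_add (degree_sum_fin_lt _)
  · rw [eval₂_add, eval₂_finsetSum]
    simp only [eval₂_pow, eval₂_X, eval₂_mul, eval₂_C]
    rw [← h]
    congr 1
    refine Finset.sum_congr rfl fun k _ => ?_
    rw [IsScalarTower.algebraMap_apply (RP N) (kk N) L, dh_vv]

theorem rel_bd (x : integralClosure (RP N) L) (e : ℕ) (c : Fin e → MvPolynomial (Fin (N + 1)) ℝ)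
    (hc : ∀ k : Fin e, (c k).IsHomogeneous (e - k))
    (h : (x : L) ^ e + ∑ k : Fin e, algebraMap (kk N) L (MvPolynomial.aeval (vv N) (c k)) *
      (x : L) ^ (k : ℕ) = 0) : Bd x := by
  classical
  set A : ℝ := ∑ k : Fin e, ∑ m ∈ (c k).support, |(c k).coeff m| with hAdef
  have hA : 0 ≤ A := Finset.sum_nonneg fun k _ => Finset.sum_nonneg fun m _ => abs_nonneg _
  have hk : ∀ k, ∑ m ∈ (c k).support, |(c k).coeff m| ≤ A := fun k =>
    Finset.single_le_sum (f := fun k => ∑ m ∈ (c k).support, |(c k).coeff m|)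
      (fun k _ => Finset.sum_nonneg fun m _ => abs_nonneg _) (Finset.mem_univ k)
  have hx : x ^ e + ∑ k : Fin e, algebraMap (RP N) (integralClosure (RP N) L) (dh (c k)) *
      x ^ (k : ℕ) = 0 := by
    apply Subtype.ext
    push_cast
    rw [← h]
    congr 1
    refine Finset.sum_congr rfl fun k _ => ?_
    rw [← dh_vv, ← IsScalarTower.algebraMap_apply (RP N) (kk N) L]
  refine ⟨1 + e * A, 1, fun y χ hχ => ?_⟩
  have hn := nr_ge y
  have hs : 1 ≤ Real.sqrt (nr y) := by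
    rw [Real.one_le_sqrt]; exact hn
  have hz : (χ x) ^ e + ∑ k : Fin e, ((MvPolynomial.eval (vr y) (c k) : ℝ) : ℂ) *
      (χ x) ^ (k : ℕ) = 0 := by
    have := congrArg χ hx
    rw [map_add, map_pow, map_sum, map_zero] at this
    rw [← this]
    congr 1
    refine Finset.sum_congr rfl fun k _ => ?_
    rw [map_mul, map_pow, hχ, dh_eval]
  have hb := root_bound e (fun k => ((MvPolynomial.eval (vr y) (c k) : ℝ) : ℂ)) A
    (Real.sqrt (nr y)) hA (by linarith) (χ x) hz (fun k => by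
      rw [Complex.norm_real, Real.norm_eq_abs]
      refine (eval_bound (c k) _ (hc k) (vr y) (Real.sqrt (nr y)) (abs_vr_le y)).trans ?_
      exact mul_le_mul_of_nonneg_right (hk k) (by positivity))
  refine hb.trans ?_
  rw [pow_one]
  have hle : Real.sqrt (nr y) ≤ nr y := by
    rw [Real.sqrt_le_left (by linarith)]
    nlinarith
  have : 0 ≤ 1 + (e : ℝ) * A := by positivity
  exact mul_le_mul_of_nonneg_left hle this

/-- finite family of integral monomials with bounds, spanning `L` -/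
theorem family {ι : Type} [Fintype ι] {w : ι → L}
    {C : Fin (N + 1) → ι → ℝ} (hS : Setup N L ι w C) :
    ∃ (n : ℕ) (m : Fin n → integralClosure (RP N) L), (∀ j, Bd (m j)) ∧
      Submodule.span (kk N) (Set.range fun j => (m j : L)) = ⊤ := by
  classical
  have hlift : ∀ x ∈ Submonoid.closure (Set.range w),
      ∃ x' : integralClosure (RP N) L, (x' : L) = x ∧ Bd x' := by
    intro x hx
    induction hx using Submonoid.closure_induction with
    | mem x hx =>
      obtain ⟨i, rfl⟩ := hx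
      obtain ⟨e, c, hc, h⟩ := hS.int i
      exact ⟨⟨w i, rel_int (w i) e c h⟩, rfl, rel_bd _ e c hc h⟩
    | one => exact ⟨1, rfl, Bd.one⟩
    | mul x y _ _ hx hy =>
      obtain ⟨x', hx1, hx2⟩ := hx
      obtain ⟨y', hy1, hy2⟩ := hy
      exact ⟨x' * y', by rw [← hx1, ← hy1]; rfl, hx2.mul hy2⟩
  have htop : Submodule.span (kk N) (Submonoid.closure (Set.range w) : Set L) = ⊤ := by
    rw [← Algebra.adjoin_eq_span, hS.gen]
    rfl
  have := hS.fin
  have hfg : (Submodule.span (kk N) (Submonoid.closure (Set.range w) : Set L)).FG := by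
    rw [htop]
    exact Module.finite_def.mp inferInstance
  obtain ⟨s', hs', hspan⟩ := (Submodule.fg_span_iff_fg_span_finset_subset _).mp hfg
  choose! g hg1 hg2 using hlift
  let en := s'.equivFin
  refine ⟨s'.card, fun j => g ((en.symm j : s') : L), fun j => ?_, ?_⟩
  · exact hg2 _ (hs' (en.symm j).2)
  · rw [← htop, hspan]
    congr 1
    ext x
    constructor
    · rintro ⟨j, rfl⟩
      have := (en.symm j).2
      simp only
      rw [hg1 _ (hs' this)]
      exact this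
    · intro hx
      refine ⟨en ⟨x, hx⟩, ?_⟩
      simp only [Equiv.symm_apply_apply]
      exact hg1 _ (hs' hx)

omit [Algebra (kk N) L] [IsScalarTower (RP N) (kk N) L] in
theorem common {n : ℕ} (m : Fin n → integralClosure (RP N) L) (hm : ∀ j, Bd (m j)) :
    ∃ (k : ℕ) (A : ℝ), 0 ≤ A ∧ ∀ (y : Fin N → ℝ) (χ : integralClosure (RP N) L →+* ℂ), Spec y χ →
      ∑ j, ‖χ (m j)‖ ≤ A * nr y ^ k := by
  choose c d hcd using hm
  refine ⟨∑ j, d j, ∑ j, |c j|, Finset.sum_nonneg fun j _ => abs_nonneg _, fun y χ hχ => ?_⟩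
  rw [Finset.sum_mul]
  refine Finset.sum_le_sum fun j _ => (hcd j y χ hχ).trans ?_
  have hn := nr_ge y
  have h1 : nr y ^ d j ≤ nr y ^ ∑ j, d j :=
    pow_le_pow_right₀ hn (Finset.single_le_sum (fun _ _ => Nat.zero_le _) (Finset.mem_univ j))
  calc c j * nr y ^ d j ≤ |c j| * nr y ^ d j :=
        mul_le_mul_of_nonneg_right (le_abs_self _) (by positivity)
    _ ≤ |c j| * nr y ^ ∑ j, d j := mul_le_mul_of_nonneg_left h1 (abs_nonneg _)

/-- `1 + ∑ X_i ^ 2` -/
noncomputable def nrp (N : ℕ) : RP N := 1 + ∑ i, MvPolynomial.X i ^ 2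

theorem eval_nrp (y : Fin N → ℝ) : MvPolynomial.eval y (nrp N) = nr y := by
  unfold nrp nr
  rw [Fin.sum_univ_succ]
  simp [vr]

end bd

/-- Dedekind: a nonzero combination of the embeddings does not vanish on a spanning family -/
theorem dedekind {k L Ω : Type} [Field k] [Field L] [Algebra k L] [Field Ω] [Algebra k Ω]
    [Fintype (L →ₐ[k] Ω)] {n : ℕ} (m : Fin n → L) (hm : Submodule.span k (Set.range m) = ⊤)
    (c : (L →ₐ[k] Ω) → Ω) (hc : ∀ j, ∑ σ, c σ * σ (m j) = 0) : c = 0 := by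
  classical
  have hli := linearIndependent_toLinearMap k L Ω
  rw [Fintype.linearIndependent_iff] at hli
  funext σ
  refine hli c ?_ σ
  refine LinearMap.ext_on_range hm fun j => ?_
  rw [LinearMap.sum_apply]
  simpa using hc j

end INaux

open INaux in
theorem IN {N : ℕ} {L Ω ι : Type} [Field L] [Algebra (kk N) L] [Algebra (RP N) L]
    [IsScalarTower (RP N) (kk N) L] [Field Ω] [Algebra (kk N) Ω] [IsAlgClosure (kk N) Ω]
    [Fintype (L →ₐ[kk N] Ω)] [Fintype ι] {w : ι → L}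
    {C : Fin (N + 1) → ι → ℝ} (hS : Setup N L ι w C) (a : L) (η : ℝ) (hη : 0 < η) :
    ∃ (μ : integralClosure (RP N) L) (k : ℕ),
      (∀ (y : Fin N → ℝ) (χ : integralClosure (RP N) L →+* ℂ), Spec y χ →
        ‖χ μ - (nr y : ℂ) ^ k‖ ≤ η * nr y ^ k) ∧
      ∀ b b' : (L →ₐ[kk N] Ω) → Ω, (∀ σ, b σ ^ 2 = σ ((μ : L) ^ 2 * a)) →
        (∀ σ, b' σ ^ 2 = σ ((μ : L) ^ 2 * a)) → ∑ σ, b σ = ∑ σ, b' σ → b = b' := by
  classical
  obtain ⟨n, m, hm, hspan⟩ := family hS
  obtain ⟨k, A, hA, hbd⟩ := common m hm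
  have : IsAlgClosed Ω := IsAlgClosure.isAlgClosed (kk N)
  have hroot : ∀ σ : L →ₐ[kk N] Ω, ∃ ρ : Ω, ρ ^ 2 = σ a := fun σ => by
    obtain ⟨z, hz⟩ := IsAlgClosed.exists_pow_nat_eq (σ a) (n := 2) (by norm_num)
    exact ⟨z, hz⟩
  choose ρ hρ using hroot
  -- sign patterns
  let cc : (((L →ₐ[kk N] Ω) → ℤˣ) × ((L →ₐ[kk N] Ω) → ℤˣ)) → (L →ₐ[kk N] Ω) → Ω :=
    fun s σ => (((s.1 σ : ℤ) : Ω) - ((s.2 σ : ℤ) : Ω)) * ρ σ
  let r0 : L := algebraMap (RP N) L (nrp N) ^ k
  let pp : (((L →ₐ[kk N] Ω) → ℤˣ) × ((L →ₐ[kk N] Ω) → ℤˣ)) → Polynomial Ω := fun s =>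
    Polynomial.C (∑ σ, cc s σ * σ r0) +
      ∑ j : Fin n, Polynomial.C (∑ σ, cc s σ * σ (m j : L)) * X ^ ((j : ℕ) + 1)
  have hpp : ∀ s, cc s ≠ 0 → pp s ≠ 0 := by
    intro s hs h0
    apply hs
    refine dedekind (fun j => (m j : L)) hspan (cc s) fun j => ?_
    have := congrArg (fun q => Polynomial.coeff q ((j : ℕ) + 1)) h0
    simp only [pp, coeff_add, coeff_C_succ, finsetSum_coeff, coeff_C_mul, coeff_X_pow,
      coeff_zero, zero_add] at this
    rw [Finset.sum_eq_single j] at this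
    · simpa using this
    · intro j' _ hj'
      have : (j : ℕ) + 1 ≠ (j' : ℕ) + 1 := fun h => hj' (Fin.ext (by omega))
      rw [if_neg this, mul_zero]
    · simp
  let P : Polynomial Ω := ∏ s ∈ Finset.univ.filter (fun s => cc s ≠ 0), pp s
  have hP : P ≠ 0 := Finset.prod_ne_zero_iff.mpr fun s hs => hpp s (Finset.mem_filter.mp hs).2
  let rho : ℝ →+* Ω := (algebraMap (kk N) Ω).comp (algebraMap ℝ (kk N))
  obtain ⟨δ, hδ0, hδ1, hδ⟩ : ∃ δ : ℝ, 0 < δ ∧ δ ≤ 1 ∧ δ * A ≤ η := by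
    refine ⟨min 1 (η / (A + 1)), by positivity, min_le_left _ _, ?_⟩
    calc min 1 (η / (A + 1)) * A ≤ η / (A + 1) * A :=
          mul_le_mul_of_nonneg_right (min_le_right _ _) hA
      _ ≤ η := by
          rw [div_mul_eq_mul_div, div_le_iff₀ (by positivity)]
          nlinarith
  obtain ⟨t, ht, htP⟩ : ∃ t ∈ Set.Ioo (0 : ℝ) δ, P.eval (rho t) ≠ 0 := by
    by_contra hcon
    push Not at hcon
    have hinf : (rho '' Set.Ioo (0 : ℝ) δ).Infinite :=
      (Set.Ioo_infinite hδ0).image rho.injective.injOn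
    apply hP
    refine Polynomial.eq_zero_of_infinite_isRoot P (hinf.mono ?_)
    rintro _ ⟨t, ht, rfl⟩
    exact hcon t ht
  let lam : Fin n → integralClosure (RP N) L := fun j =>
    algebraMap (RP N) (integralClosure (RP N) L) (MvPolynomial.C (t ^ ((j : ℕ) + 1)))
  let μ : integralClosure (RP N) L :=
    algebraMap (RP N) (integralClosure (RP N) L) (nrp N) ^ k + ∑ j, lam j * m j
  have hμL : (μ : L) = r0 + ∑ j : Fin n, algebraMap (RP N) L (MvPolynomial.C (t ^ ((j : ℕ) + 1))) *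
      (m j : L) := by
    simp only [μ, lam, r0]
    push_cast
    rfl
  refine ⟨μ, k, fun y χ hχ => ?_, fun b b' hb hb' hsum => ?_⟩
  · have h1 : χ μ - (nr y : ℂ) ^ k = ∑ j : Fin n, ((t ^ ((j : ℕ) + 1) : ℝ) : ℂ) * χ (m j) := by
      simp only [μ, lam]
      rw [map_add, map_pow, hχ, eval_nrp, add_sub_cancel_left, map_sum]
      refine Finset.sum_congr rfl fun j _ => ?_
      rw [map_mul, hχ, MvPolynomial.eval_C]
    rw [h1]
    calc ‖∑ j : Fin n, ((t ^ ((j : ℕ) + 1) : ℝ) : ℂ) * χ (m j)‖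
        ≤ ∑ j : Fin n, ‖((t ^ ((j : ℕ) + 1) : ℝ) : ℂ) * χ (m j)‖ := norm_sum_le _ _
      _ ≤ ∑ j, δ * ‖χ (m j)‖ := by
          refine Finset.sum_le_sum fun j _ => ?_
          rw [norm_mul, Complex.norm_real, Real.norm_eq_abs, abs_of_nonneg (by have := ht.1; positivity)]
          refine mul_le_mul_of_nonneg_right ?_ (norm_nonneg _)
          calc t ^ ((j : ℕ) + 1) = t ^ (j : ℕ) * t := pow_succ _ _
            _ ≤ 1 * t := mul_le_mul_of_nonneg_right
                (pow_le_one₀ ht.1.le (ht.2.le.trans hδ1)) ht.1.le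
            _ ≤ δ := by rw [one_mul]; exact ht.2.le
      _ = δ * ∑ j, ‖χ (m j)‖ := by rw [Finset.mul_sum]
      _ ≤ δ * (A * nr y ^ k) := mul_le_mul_of_nonneg_left (hbd y χ hχ) hδ0.le
      _ = (δ * A) * nr y ^ k := by ring
      _ ≤ η * nr y ^ k := mul_le_mul_of_nonneg_right hδ (by have := nr_ge y; positivity)
  · have hsign : ∀ (b : (L →ₐ[kk N] Ω) → Ω), (∀ σ, b σ ^ 2 = σ ((μ : L) ^ 2 * a)) →
        ∃ s : (L →ₐ[kk N] Ω) → ℤˣ, ∀ σ, b σ = ((s σ : ℤ) : Ω) * ρ σ * σ (μ : L) := by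
      intro b hb
      have : ∀ σ, ∃ s : ℤˣ, b σ = ((s : ℤ) : Ω) * ρ σ * σ (μ : L) := by
        intro σ
        have h2 : b σ ^ 2 = (ρ σ * σ (μ : L)) ^ 2 := by
          rw [hb σ, mul_pow, hρ, map_mul, map_pow]; ring
        rcases sq_eq_sq_iff_eq_or_eq_neg.mp h2 with h | h
        · exact ⟨1, by rw [h]; simp⟩
        · exact ⟨-1, by rw [h]; simp⟩
      choose s hs using this
      exact ⟨s, hs⟩
    obtain ⟨s, hs⟩ := hsign b hb
    obtain ⟨s', hs'⟩ := hsign b' hb'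
    have hdiff : ∀ σ, b σ - b' σ = cc (s, s') σ * σ (μ : L) := fun σ => by
      rw [hs, hs']; simp only [cc]; ring
    have hzero : ∑ σ, cc (s, s') σ * σ (μ : L) = 0 := by
      simp_rw [← hdiff]
      rw [Finset.sum_sub_distrib, hsum, sub_self]
    by_cases hc0 : cc (s, s') = 0
    · funext σ
      have := hdiff σ
      rw [hc0] at this
      simp only [Pi.zero_apply, zero_mul] at this
      exact sub_eq_zero.mp this
    · exfalso
      have hne : (pp (s, s')).eval (rho t) ≠ 0 := by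
        have h3 := htP
        simp only [P, eval_prod] at h3
        rw [Finset.prod_ne_zero_iff] at h3
        exact h3 _ (Finset.mem_filter.mpr ⟨Finset.mem_univ _, hc0⟩)
      apply hne
      rw [← hzero]
      have hreal : ∀ (σ : L →ₐ[kk N] Ω) (u : ℝ),
          σ (algebraMap (RP N) L (MvPolynomial.C u)) = rho u := by
        intro σ u
        rw [IsScalarTower.algebraMap_apply (RP N) (kk N) L, AlgHom.commutes]
        simp only [rho, RingHom.comp_apply]
        congr 1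
      simp only [pp, eval_add, eval_C, eval_finsetSum, eval_mul, eval_pow, eval_X]
      simp_rw [hμL, map_add, map_sum, map_mul, hreal, map_pow, mul_add, Finset.sum_add_distrib,
        Finset.mul_sum]
      congr 1
      rw [Finset.sum_comm]
      refine Finset.sum_congr rfl fun σ _ => ?_
      rw [Finset.sum_mul]
      refine Finset.sum_congr rfl fun j _ => ?_
      ring

end Pool.Agent.PFI
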