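import Pool.Agent.PFI.SQ
import Pool.Agent.PFI.EX

/-!
# Row SI: sign and size of `P(c)` at the real points (MP_b906c2_al)
-/

set_option autoImplicit false

namespace Pool.Agent.PFI

open Polynomial Pool.Agent.PDF

namespace SIaux

theorem prod_est {T : Type} [DecidableEq T] (S : Finset T) (x y : T → ℂ) {A η : ℝ} (hA : 1 ≤ A)
    (hη : 0 ≤ η) (hy : ∀ b ∈ S, ‖y b‖ ≤ A) (hxy : ∀ b ∈ S, ‖x b - y b‖ ≤ η) :
    ‖∏ b ∈ S, x b - ∏ b ∈ S, y b‖ ≤ (A + η) ^ S.card - A ^ S.card ∧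
      ‖∏ b ∈ S, y b‖ ≤ A ^ S.card := by
  induction S using Finset.induction_on with
  | empty => simp
  | insert a S ha ih =>
    obtain ⟨h1, h2⟩ := ih (fun b hb => hy b (Finset.mem_insert_of_mem hb))
      (fun b hb => hxy b (Finset.mem_insert_of_mem hb))
    have hya := hy a (Finset.mem_insert_self a S)
    have hxa := hxy a (Finset.mem_insert_self a S)
    have hxa' : ‖x a‖ ≤ A + η := by
      have : x a = y a + (x a - y a) := by ring
      rw [this]
      exact (norm_add_le _ _).trans (add_le_add hya hxa)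
    rw [Finset.prod_insert ha, Finset.prod_insert ha, Finset.card_insert_of_notMem ha]
    have hAn : 0 ≤ A ^ S.card := by positivity
    constructor
    · have e1 : x a * ∏ b ∈ S, x b - y a * ∏ b ∈ S, y b =
          x a * (∏ b ∈ S, x b - ∏ b ∈ S, y b) + (x a - y a) * ∏ b ∈ S, y b := by ring
      rw [e1]
      refine (norm_add_le _ _).trans ?_
      rw [norm_mul, norm_mul]
      have h3 : ‖x a‖ * ‖∏ b ∈ S, x b - ∏ b ∈ S, y b‖ ≤
          (A + η) * ((A + η) ^ S.card - A ^ S.card) :=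
        mul_le_mul hxa' h1 (norm_nonneg _) (by positivity)
      have h4 : ‖x a - y a‖ * ‖∏ b ∈ S, y b‖ ≤ η * A ^ S.card :=
        mul_le_mul hxa h2 (norm_nonneg _) hη
      rw [pow_succ, pow_succ]
      nlinarith
    · rw [norm_mul, pow_succ, mul_comm (A ^ S.card)]
      exact mul_le_mul hya h2 (norm_nonneg _) (by positivity)

theorem exists_eta (A : ℝ) (n : ℕ) :
    ∃ η : ℝ, 0 < η ∧ η ≤ 1 / 2 ∧ ∀ m ≤ n, (A + η) ^ m - A ^ m ≤ 1 / 2 := by
  have h1 : ∀ m ∈ Finset.range (n + 1), ∀ᶠ η in nhdsWithin (0 : ℝ) (Set.Ioi 0),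
      (A + η) ^ m - A ^ m ≤ 1 / 2 := by
    intro m _
    have h2 : Continuous fun η : ℝ => (A + η) ^ m - A ^ m := by fun_prop
    have h3 : Filter.Tendsto (fun η : ℝ => (A + η) ^ m - A ^ m) (nhdsWithin 0 (Set.Ioi 0))
        (nhds 0) := by
      refine (h2.tendsto' 0 0 (by simp)).mono_left nhdsWithin_le_nhds
    exact h3.eventually_le_const (by norm_num)
  have h4 := (Finset.eventually_all (Finset.range (n + 1))).2 h1
  have h5 : ∀ᶠ η in nhdsWithin (0 : ℝ) (Set.Ioi 0), η ∈ Set.Ioi (0 : ℝ) :=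
    eventually_mem_nhdsWithin
  have h6 : ∀ᶠ η in nhdsWithin (0 : ℝ) (Set.Ioi 0), η ≤ 1 / 2 := by
    have : Filter.Tendsto (fun η : ℝ => η) (nhdsWithin 0 (Set.Ioi 0)) (nhds 0) := nhdsWithin_le_nhds
    exact this.eventually_le_const (by norm_num)
  obtain ⟨η, hη⟩ := ((h4.and h5).and h6).exists
  exact ⟨η, hη.1.2, hη.2, fun m hm => hη.1.1 m (Finset.mem_range.2 (by omega))⟩

theorem sqrt_near {z : ℂ} {ν ε : ℝ} (hν : 0 < ν) (h : ‖z ^ 2 - (ν : ℂ) ^ 2‖ ≤ ε * ν ^ 2) :
    ‖z - ν‖ ≤ ε * ν ∨ ‖z + ν‖ ≤ ε * ν := by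
  have h1 : z ^ 2 - (ν : ℂ) ^ 2 = (z - ν) * (z + ν) := by ring
  rw [h1, norm_mul] at h
  have h2 : 2 * ν ≤ ‖z + ν‖ + ‖z - ν‖ := by
    have h3 : ((2 * ν : ℝ) : ℂ) = (z + ν) - (z - ν) := by push_cast; ring
    have h4 : ‖((2 * ν : ℝ) : ℂ)‖ = 2 * ν := by
      rw [Complex.norm_real, Real.norm_of_nonneg (by positivity)]
    rw [← h4, h3]
    exact norm_sub_le _ _
  by_cases h5 : ν ≤ ‖z + ν‖
  · left
    have h6 : ‖z - ν‖ * ν ≤ ε * ν * ν := by
      calc ‖z - ν‖ * ν ≤ ‖z - ν‖ * ‖z + ν‖ := mul_le_mul_of_nonneg_left h5 (norm_nonneg _)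
        _ ≤ ε * ν ^ 2 := h
        _ = ε * ν * ν := by ring
    exact le_of_mul_le_mul_right h6 hν
  · right
    push Not at h5
    have h7 : ν ≤ ‖z - ν‖ := by linarith
    have h6 : ‖z + ν‖ * ν ≤ ε * ν * ν := by
      calc ‖z + ν‖ * ν ≤ ‖z + ν‖ * ‖z - ν‖ := mul_le_mul_of_nonneg_left h7 (norm_nonneg _)
        _ = ‖z - ν‖ * ‖z + ν‖ := mul_comm _ _
        _ ≤ ε * ν ^ 2 := h
        _ = ε * ν * ν := by ring
    exact le_of_mul_le_mul_right h6 hν

/-- two numbers near `s ν` do not have sum zero -/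
theorem no_sum {z z' : ℂ} {ν ε : ℝ} (hν : 0 < ν) (hε : ε < 1) {s : ℤ} (hs : s = 1 ∨ s = -1)
    (h : ‖z - s * ν‖ ≤ ε * ν) (h' : ‖z' - s * ν‖ ≤ ε * ν) : z + z' ≠ 0 := by
  intro h0
  have h1 : ((2 * ν : ℝ) : ℂ) = -((s : ℂ) * ((z - s * ν) + (z' - s * ν))) := by
    have h2 : (s : ℂ) * s = 1 := by
      rcases hs with rfl | rfl <;> norm_num
    have h3 : z' = -z := by linear_combination h0
    rw [h3]
    push_cast
    linear_combination (-2 * (ν : ℂ)) * h2
  have h4 : 2 * ν ≤ 2 * (ε * ν) := by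
    have h5 : ‖((2 * ν : ℝ) : ℂ)‖ = 2 * ν := by
      rw [Complex.norm_real, Real.norm_of_nonneg (by positivity)]
    rw [← h5, h1, norm_neg, norm_mul]
    have h6 : ‖(s : ℂ)‖ = 1 := by rcases hs with rfl | rfl <;> simp
    rw [h6, one_mul]
    refine (norm_add_le _ _).trans ?_
    linarith
  nlinarith

/-- the combinatorial core -/
theorem core {G T : Type} [Fintype G] [DecidableEq T] (hG : Nonempty G) (S : Finset T)
    (z : T → G → ℂ) {ν ε : ℝ} (hν : 0 < ν) (hε : ε < 1) (hS : S.Nonempty)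
    (h1 : ∀ b ∈ S, ∀ σ, ‖z b σ ^ 2 - (ν : ℂ) ^ 2‖ ≤ ε * ν ^ 2)
    (hU : ∀ b ∈ S, ∀ b' ∈ S, (∀ σ, z b σ + z b' σ ≠ 0) → b = b')
    (hE : ∀ b ∈ S, ∀ s : G → ℤ, (∀ σ, s σ = 1 ∨ s σ = -1) →
      ∃ b' ∈ S, ∀ σ, z b' σ = s σ * z b σ) :
    S.card ≤ 2 ^ Fintype.card G ∧ ∃ n : T → ℤ,
      (∀ b ∈ S, |n b| ≤ 2 * Fintype.card G) ∧
      (∀ b ∈ S, ‖(((Fintype.card G : ℂ) - 1) * ν - ∑ σ, z b σ) - n b * ν‖ ≤
        Fintype.card G * ε * ν) ∧ 1 ≤ -∏ b ∈ S, n b := by
  classical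
  have hch : ∀ (b : T) (σ : G), ∃ s : ℤ, (s = 1 ∨ s = -1) ∧
      (b ∈ S → ‖z b σ - s * ν‖ ≤ ε * ν) := by
    intro b σ
    by_cases hb : b ∈ S
    · rcases sqrt_near hν (h1 b hb σ) with h | h
      · exact ⟨1, Or.inl rfl, fun _ => by simpa using h⟩
      · refine ⟨-1, Or.inr rfl, fun _ => ?_⟩
        have : z b σ - ((-1 : ℤ) : ℂ) * ν = z b σ + ν := by push_cast; ring
        rw [this]
        exact h
    · exact ⟨1, Or.inl rfl, fun h => absurd h hb⟩
  choose s hs1 hs2 using hch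
  have huniq : ∀ b ∈ S, ∀ b' ∈ S, (∀ σ, s b σ = s b' σ) → b = b' := by
    intro b hb b' hb' h
    refine hU b hb b' hb' fun σ => no_sum hν hε (hs1 b σ) (hs2 b σ hb) ?_
    rw [h σ]
    exact hs2 b' σ hb'
  constructor
  · have h2 : S.card ≤ (Fintype.piFinset fun _ : G => ({1, -1} : Finset ℤ)).card := by
      refine Finset.card_le_card_of_injOn s ?_ ?_
      · intro b _
        rw [Finset.mem_coe, Fintype.mem_piFinset]
        intro σ
        rcases hs1 b σ with h | h <;> simp [h]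
      · intro b hb b' hb' h
        exact huniq b hb b' hb' fun σ => congrFun h σ
    rw [Fintype.card_piFinset] at h2
    simpa using h2
  · refine ⟨fun b => (Fintype.card G : ℤ) - 1 - ∑ σ, s b σ, ?_, ?_, ?_⟩
    · intro b _
      have h3 : |∑ σ, s b σ| ≤ Fintype.card G := by
        refine (Finset.abs_sum_le_sum_abs _ _).trans ?_
        have h4 : ∀ σ ∈ Finset.univ, |s b σ| ≤ 1 := by
          intro σ _
          rcases hs1 b σ with h | h <;> simp [h]
        refine (Finset.sum_le_sum h4).trans ?_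
        simp
      have h5 : (1 : ℤ) ≤ Fintype.card G := by exact_mod_cast Fintype.card_pos
      rw [abs_le] at h3 ⊢
      constructor <;> linarith [h3.1, h3.2]
    · intro b hb
      have e1 : (((Fintype.card G : ℂ) - 1) * ν - ∑ σ, z b σ) -
          (((Fintype.card G : ℤ) - 1 - ∑ σ, s b σ : ℤ) : ℂ) * ν = -∑ σ, (z b σ - s b σ * ν) := by
        rw [Finset.sum_sub_distrib, ← Finset.sum_mul]
        push_cast
        ring
      rw [e1, norm_neg]
      refine (norm_sum_le _ _).trans ?_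
      refine (Finset.sum_le_sum fun σ _ => hs2 b σ hb).trans ?_
      rw [Finset.sum_const, Finset.card_univ, nsmul_eq_mul]
      linarith
    · obtain ⟨b₀, hb₀⟩ := hS
      obtain ⟨b₁, hb₁, hz⟩ := hE b₀ hb₀ (s b₀) (hs1 b₀)
      have hsb₁ : ∀ σ, s b₁ σ = 1 := by
        intro σ
        rcases hs1 b₁ σ with h | h
        · exact h
        · exfalso
          have h6 : ‖z b₁ σ - ((1 : ℤ) : ℂ) * ν‖ ≤ ε * ν := by
            have h7 : (s b₀ σ : ℂ) * s b₀ σ = 1 := by
              rcases hs1 b₀ σ with h | h <;> (rw [h]; norm_num)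
            have h8 : z b₁ σ - ((1 : ℤ) : ℂ) * ν = s b₀ σ * (z b₀ σ - s b₀ σ * ν) := by
              rw [hz σ]
              push_cast
              linear_combination (ν : ℂ) * h7
            rw [h8, norm_mul]
            have h9 : ‖(s b₀ σ : ℂ)‖ = 1 := by rcases hs1 b₀ σ with h | h <;> simp [h]
            rw [h9, one_mul]
            exact hs2 b₀ σ hb₀
          have h10 := hs2 b₁ σ hb₁
          have h11 : ‖-z b₁ σ - ((1 : ℤ) : ℂ) * ν‖ ≤ ε * ν := by
            rw [h] at h10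
            have : -z b₁ σ - ((1 : ℤ) : ℂ) * ν = -(z b₁ σ - ((-1 : ℤ) : ℂ) * ν) := by
              push_cast; ring
            rw [this, norm_neg]
            exact h10
          exact no_sum hν hε (Or.inl rfl) h6 h11 (by ring)
      rw [← Finset.mul_prod_erase S _ hb₁]
      have h12 : (Fintype.card G : ℤ) - 1 - ∑ σ, s b₁ σ = -1 := by
        simp [hsb₁]
      rw [h12]
      have h13 : 0 < ∏ b ∈ S.erase b₁, ((Fintype.card G : ℤ) - 1 - ∑ σ, s b σ) := by
        apply Finset.prod_pos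
        intro b hb
        obtain ⟨hne, hbS⟩ := Finset.mem_erase.1 hb
        have h14 : ∃ σ, s b σ = -1 := by
          by_contra hc
          push Not at hc
          apply hne
          apply huniq b hbS b₁ hb₁
          intro σ
          rw [hsb₁ σ]
          exact (hs1 b σ).resolve_right (hc σ)
        obtain ⟨σ₀, hσ₀⟩ := h14
        rw [← Finset.add_sum_erase _ _ (Finset.mem_univ σ₀), hσ₀]
        have h15 : ∑ σ ∈ Finset.univ.erase σ₀, s b σ ≤ (Fintype.card G : ℤ) - 1 := by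
          have h16 : ∀ σ ∈ Finset.univ.erase σ₀, s b σ ≤ 1 := by
            intro σ _
            rcases hs1 b σ with h | h <;> rw [h] <;> norm_num
          refine (Finset.sum_le_sum h16).trans ?_
          rw [Finset.sum_const, Finset.card_erase_of_mem (Finset.mem_univ _), Finset.card_univ]
          have := Fintype.card_pos (α := G)
          simp
          omega
        linarith
      linarith

/-- the final estimate -/
theorem fin_est {G T : Type} [Fintype G] [DecidableEq T] (hG : Nonempty G) (S : Finset T)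
    (z : T → G → ℂ) {ν η : ℝ} (hν : 0 < ν) (hη0 : 0 < η) (hη1 : η ≤ 1 / 2)
    (hη : ∀ m ≤ 2 ^ Fintype.card G, (2 * (Fintype.card G : ℝ) + η) ^ m -
      (2 * (Fintype.card G : ℝ)) ^ m ≤ 1 / 2) (hS : S.Nonempty)
    (h1 : ∀ b ∈ S, ∀ σ, ‖z b σ ^ 2 - (ν : ℂ) ^ 2‖ ≤ (η / Fintype.card G) * ν ^ 2)
    (hU : ∀ b ∈ S, ∀ b' ∈ S, (∀ σ, z b σ + z b' σ ≠ 0) → b = b')
    (hE : ∀ b ∈ S, ∀ s : G → ℤ, (∀ σ, s σ = 1 ∨ s σ = -1) →
      ∃ b' ∈ S, ∀ σ, z b' σ = s σ * z b σ) {g : ℝ}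
    (hg : (g : ℂ) = -∏ b ∈ S, (((Fintype.card G : ℂ) - 1) * ν - ∑ σ, z b σ)) :
    1 / 2 * ν ^ S.card ≤ g ∧
      g ≤ ((2 * (Fintype.card G : ℝ)) ^ (2 ^ Fintype.card G) + 1 / 2) * ν ^ S.card := by
  have hD : (1 : ℝ) ≤ Fintype.card G := by exact_mod_cast Fintype.card_pos
  have hε : η / Fintype.card G < 1 := by
    rw [div_lt_one (by linarith)]
    linarith
  obtain ⟨hcard, n, hn1, hn2, hn3⟩ := core hG S z hν hε hS h1 hU hE
  set x : T → ℂ := fun b => (((Fintype.card G : ℂ) - 1) * ν - ∑ σ, z b σ) / ν with hx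
  have hνC : (ν : ℂ) ≠ 0 := by exact_mod_cast hν.ne'
  have hA : (1 : ℝ) ≤ 2 * Fintype.card G := by linarith
  obtain ⟨h2, h3⟩ := prod_est S x (fun b => (n b : ℂ)) hA hη0.le (by
      intro b hb
      have h4 := hn1 b hb
      rw [Complex.norm_intCast]
      exact_mod_cast h4) (by
      intro b hb
      have h4 := hn2 b hb
      have h5 : x b - n b = ((((Fintype.card G : ℂ) - 1) * ν - ∑ σ, z b σ) - n b * ν) / ν := by
        rw [hx]
        field_simp
      rw [h5, norm_div, Complex.norm_real, Real.norm_of_nonneg hν.le, div_le_iff₀ hν]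
      refine h4.trans (le_of_eq ?_)
      field_simp)
  have h6 := h2.trans (hη _ hcard)
  have h7 : (g : ℂ) = -((ν : ℂ) ^ S.card * ∏ b ∈ S, x b) := by
    rw [hg, hx, Finset.prod_div_distrib, Finset.prod_const]
    field_simp
  have hνm : 0 < ν ^ S.card := by positivity
  have h8 : ((g / ν ^ S.card : ℝ) : ℂ) = -∏ b ∈ S, x b := by
    push_cast
    rw [h7]
    field_simp
  have h9 : |g / ν ^ S.card - (-∏ b ∈ S, (n b : ℝ))| ≤ 1 / 2 := by
    rw [← Real.norm_eq_abs, ← Complex.norm_real]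
    refine le_trans (le_of_eq ?_) h6
    rw [← norm_neg]
    congr 1
    push_cast at h8 ⊢
    rw [h8]
    ring
  have h10 : (1 : ℝ) ≤ -∏ b ∈ S, (n b : ℝ) := by exact_mod_cast hn3
  have h11 : -∏ b ∈ S, (n b : ℝ) ≤ (2 * (Fintype.card G : ℝ)) ^ (2 ^ Fintype.card G) := by
    have h12 : ‖(∏ b ∈ S, (n b : ℂ))‖ = |∏ b ∈ S, (n b : ℝ)| := by
      rw [← Real.norm_eq_abs, ← Complex.norm_real]
      congr 1
      push_cast
      rfl
    rw [h12] at h3
    refine (neg_le_abs _).trans (h3.trans ?_)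
    exact pow_le_pow_right₀ hA hcard
  rw [abs_le] at h9
  constructor
  · have : 1 / 2 ≤ g / ν ^ S.card := by linarith [h9.1]
    rwa [le_div_iff₀ hνm] at this
  · have : g / ν ^ S.card ≤ (2 * (Fintype.card G : ℝ)) ^ (2 ^ Fintype.card G) + 1 / 2 := by
      linarith [h9.2]
    rwa [div_le_iff₀ hνm] at this

/-- the polynomial `1 + |y|²` -/
noncomputable def rp (N : ℕ) : RP N :=
  ∑ a, (Fin.cons 1 (fun i => MvPolynomial.X i) : Fin (N + 1) → RP N) a ^ 2

theorem algebraMap_rp (N : ℕ) : algebraMap (RP N) (kk N) (rp N) = rr N := by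
  rw [rp, rr, map_sum]
  refine Finset.sum_congr rfl fun a _ => ?_
  rw [map_pow]
  congr 1
  refine Fin.cases ?_ (fun i => ?_) a
  · simp [vv]
  · simp [vv]

theorem eval_rp {N : ℕ} (y : Fin N → ℝ) : MvPolynomial.eval y (rp N) = nr y := by
  rw [rp, nr, map_sum]
  refine Finset.sum_congr rfl fun a _ => ?_
  rw [map_pow]
  congr 1
  refine Fin.cases ?_ (fun i => ?_) a
  · simp [vr]
  · simp [vr]

theorem nr_pos {N : ℕ} (y : Fin N → ℝ) : 0 < nr y := by
  rw [nr, Fin.sum_univ_succ]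
  have h1 : (0 : ℝ) ≤ ∑ i : Fin N, vr y i.succ ^ 2 := Finset.sum_nonneg fun i _ => sq_nonneg _
  have h2 : vr y 0 = 1 := rfl
  rw [h2]
  linarith

end SIaux

open SIaux in
theorem SI (N : ℕ) {L : Type} [Field L] [Algebra (kk N) L] [Algebra (RP N) L]
    [IsScalarTower (RP N) (kk N) L] [FiniteDimensional (kk N) L]
    [Fintype (L →ₐ[kk N] AlgebraicClosure (kk N))] :
    ∃ ε : ℝ, 0 < ε ∧ ∀ (a : integralClosure (RP N) L) (K : ℕ),
      (∀ b b' : (L →ₐ[kk N] AlgebraicClosure (kk N)) → AlgebraicClosure (kk N),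
        (∀ σ, b σ ^ 2 = σ a) → (∀ σ, b' σ ^ 2 = σ a) → ∑ σ, b σ = ∑ σ, b' σ → b = b') →
      (∀ (y : Fin N → ℝ) (χ : integralClosure (RP N) L →+* ℂ), Spec y χ →
        ‖χ a - (nr y : ℂ) ^ (2 * K)‖ ≤ ε * nr y ^ (2 * K)) →
      ∃ (P : (kk N)[X]) (B : L[X]) (c : kk N) (G : RP N) (c₁ c₂ : ℝ) (M : ℕ), P.Monic ∧
        P.map (algebraMap (kk N) L) ∣ B ^ 2 - C (a : L) ∧
        P.eval c = - algebraMap (RP N) (kk N) G ∧ 0 < c₁ ∧
        ∀ y : Fin N → ℝ, c₁ * nr y ^ M ≤ MvPolynomial.eval y G ∧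
          MvPolynomial.eval y G ≤ c₂ * nr y ^ M := by
  classical
  set Ω := AlgebraicClosure (kk N) with hΩ
  have hfin : Algebra.IsAlgebraic (kk N) L := Algebra.IsAlgebraic.of_finite (kk N) L
  have hne : Nonempty (L →ₐ[kk N] Ω) := ⟨IsAlgClosed.lift⟩
  set D := Fintype.card (L →ₐ[kk N] Ω) with hDdef
  have hD : (1 : ℝ) ≤ D := by exact_mod_cast Fintype.card_pos
  obtain ⟨η, hη0, hη1, hη⟩ := exists_eta (2 * (D : ℝ)) (2 ^ D)
  refine ⟨η / D, by positivity, ?_⟩
  intro a K hinj happ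
  obtain ⟨P, B, S, hS, hPm, hPmap, hdvd⟩ := SQ (a : L) hinj
  have hint : ∀ b ∈ S, ∀ σ : L →ₐ[kk N] Ω, IsIntegral (RP N) (b σ) := by
    intro b hb σ
    apply IsIntegral.of_pow (n := 2) two_pos
    rw [(hS b).1 hb σ]
    exact IsIntegral.map (σ.restrictScalars (RP N)) a.2
  let bO : ((L →ₐ[kk N] Ω) → Ω) → (L →ₐ[kk N] Ω) → integralClosure (RP N) Ω := fun b σ =>
    if h : b ∈ S then ⟨b σ, hint b h σ⟩ else 0
  have hbO : ∀ b ∈ S, ∀ σ, ((bO b σ : integralClosure (RP N) Ω) : Ω) = b σ := by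
    intro b hb σ
    simp only [bO, dif_pos hb]
  let cp : RP N := MvPolynomial.C ((D : ℝ) - 1) * rp N ^ K
  let c : kk N := algebraMap (RP N) (kk N) cp
  let g : integralClosure (RP N) Ω :=
    -∏ b ∈ S, (algebraMap (RP N) (integralClosure (RP N) Ω) cp - ∑ σ, bO b σ)
  have hg : (g : Ω) = algebraMap (kk N) Ω (-P.eval c) := by
    have h1 : algebraMap (kk N) Ω (P.eval c) = ∏ b ∈ S, (algebraMap (kk N) Ω c - ∑ σ, b σ) := by
      rw [← eval₂_at_apply, ← eval_map, hPmap, eval_prod]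
      refine Finset.prod_congr rfl fun b _ => ?_
      rw [eval_sub, eval_X, eval_C]
    rw [map_neg, h1]
    have h2 : (g : Ω) = -∏ b ∈ S, ((algebraMap (RP N) (integralClosure (RP N) Ω) cp : Ω) -
        ∑ σ, ((bO b σ : integralClosure (RP N) Ω) : Ω)) := by
      simp only [g]
      push_cast
      rfl
    rw [h2]
    congr 1
    refine Finset.prod_congr rfl fun b hb => ?_
    rw [Finset.sum_congr rfl fun σ _ => hbO b hb σ]
    rfl
  have hGint : IsIntegral (RP N) (-P.eval c) := by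
    rw [← isIntegral_algebraMap_iff (algebraMap (kk N) Ω).injective, ← hg]
    exact g.2
  obtain ⟨G, hG⟩ := IsIntegrallyClosed.isIntegral_iff.1 hGint
  have hGg : algebraMap (RP N) (integralClosure (RP N) Ω) G = g := by
    apply Subtype.ext
    rw [hg, ← hG]
    rfl
  refine ⟨P, B, c, G, 1 / 2, (2 * (D : ℝ)) ^ (2 ^ D) + 1 / 2, K * S.card, hPm, hdvd, ?_, by norm_num,
    ?_⟩
  · rw [hG, neg_neg]
  intro y
  obtain ⟨χ, hχ⟩ := EX (Ω := Ω) y
  have hν : 0 < nr y ^ K := pow_pos (nr_pos y) K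
  have hSne : S.Nonempty := by
    have h1 : ∀ σ : L →ₐ[kk N] Ω, ∃ z : Ω, z ^ 2 = σ a := fun σ =>
      IsAlgClosed.exists_pow_nat_eq _ two_pos
    choose b hb using h1
    exact ⟨b, (hS b).2 hb⟩
  have hχb : ∀ b ∈ S, ∀ σ, χ (bO b σ) ^ 2 =
      χ ((σ.restrictScalars (RP N)).mapIntegralClosure a) := by
    intro b hb σ
    rw [← map_pow]
    congr 1
    apply Subtype.ext
    rw [SubmonoidClass.coe_pow, hbO b hb σ, (hS b).1 hb σ]
    rfl
  have key := fin_est hne S (fun b σ => χ (bO b σ)) (g := MvPolynomial.eval y G) hν hη0 hη1 hη hSne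
    (by
      intro b hb σ
      rw [hχb b hb σ]
      have h1 := happ y (χ.comp ((σ.restrictScalars (RP N)).mapIntegralClosure :
        integralClosure (RP N) L →+* integralClosure (RP N) Ω)) (by
          intro p
          rw [← hχ p]
          rw [RingHom.comp_apply]
          congr 1
          exact ((σ.restrictScalars (RP N)).mapIntegralClosure).commutes p)
      have h2 : ((nr y ^ K : ℝ) : ℂ) ^ 2 = (nr y : ℂ) ^ (2 * K) := by
        push_cast
        rw [← pow_mul, mul_comm]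
      have h3 : (nr y ^ K) ^ 2 = nr y ^ (2 * K) := by rw [← pow_mul, mul_comm]
      rw [h2, h3]
      exact h1)
    (by
      intro b hb b' hb' h
      funext σ
      have h1 : b σ ^ 2 = b' σ ^ 2 := by rw [(hS b).1 hb σ, (hS b').1 hb' σ]
      rcases sq_eq_sq_iff_eq_or_eq_neg.1 h1 with h2 | h2
      · exact h2
      · exfalso
        apply h σ
        rw [← map_add]
        have h3 : bO b σ + bO b' σ = 0 := by
          apply Subtype.ext
          push_cast
          rw [hbO b hb, hbO b' hb', h2]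
          simp
        rw [h3, map_zero])
    (by
      intro b hb s hs
      have hmem : (fun σ => (s σ : Ω) * b σ) ∈ S := by
        rw [hS]
        intro σ
        rw [mul_pow, (hS b).1 hb σ]
        rcases hs σ with h | h <;> simp [h]
      refine ⟨_, hmem, fun σ => ?_⟩
      have h3 : bO (fun σ => (s σ : Ω) * b σ) σ = (s σ : integralClosure (RP N) Ω) * bO b σ := by
        apply Subtype.ext
        push_cast
        rw [hbO _ hmem, hbO b hb]
      rw [h3, map_mul, map_intCast])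
    (by
      have h1 : ((MvPolynomial.eval y G : ℝ) : ℂ) = χ g := by rw [← hχ G, hGg]
      rw [h1]
      simp only [g]
      rw [map_neg, map_prod]
      congr 1
      refine Finset.prod_congr rfl fun b _ => ?_
      rw [map_sub, map_sum, hχ]
      congr 1
      simp only [cp]
      rw [map_mul, map_pow, eval_rp, MvPolynomial.eval_C]
      push_cast
      rfl)
  rw [← pow_mul] at key
  exact key

end Pool.Agent.PFI
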