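import Pool.Agent.PFI.Defs

/-!
# Row T1: positive polynomials comparable with a power of `1 + |y|²`
-/

set_option autoImplicit false

namespace Pool.Agent.PFI

open Pool.Agent.PDF MvPolynomial

namespace T1aux

variable {N : ℕ}

/-- evaluation at `t y` through the homogeneous components -/
theorem eval_smul_eq (G : RP N) (y : Fin N → ℝ) (t : ℝ) :
    eval (fun i => t * y i) G =
      ∑ k ∈ Finset.range (G.totalDegree + 1), t ^ k * eval y (homogeneousComponent k G) := by
  conv_lhs => rw [← sum_homogeneousComponent G]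
  rw [map_sum]
  exact Finset.sum_congr rfl fun k _ => hom_smul (homogeneousComponent_isHomogeneous k G) t y

/-- the degree bound -/
theorem degree_le (G : RP N) (c₂ : ℝ) (M : ℕ)
    (h0 : ∀ y : Fin N → ℝ, 0 ≤ eval y G)
    (h : ∀ y : Fin N → ℝ, eval y G ≤ c₂ * nr y ^ M) : G.totalDegree ≤ 2 * M := by
  by_contra hlt
  push Not at hlt
  set d := G.totalDegree with hd
  have hH : homogeneousComponent d G ≠ 0 := by
    intro hz
    have hG : G ≠ 0 := by
      rintro rfl
      simp at hd
      omega
    obtain ⟨s, hs, hs'⟩ := Finset.exists_mem_eq_sup G.support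
      (by simpa using hG) (fun s => Multiset.card (Finsupp.toMultiset s))
    have h1 : coeff s (homogeneousComponent d G) = 0 := by rw [hz, coeff_zero]
    rw [coeff_homogeneousComponent] at h1
    have h2 : Finsupp.degree s = d := by
      rw [hd, totalDegree_eq, hs', Finsupp.card_toMultiset]
      rfl
    rw [if_pos h2] at h1
    exact (mem_support_iff.1 hs) h1
  obtain ⟨y, hy⟩ : ∃ y : Fin N → ℝ, eval y (homogeneousComponent d G) ≠ 0 := by
    by_contra hcon
    push Not at hcon
    exact hH (MvPolynomial.funext fun y => by rw [hcon y, map_zero])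
  let p : Polynomial ℝ := ∑ k ∈ Finset.range (d + 1),
    Polynomial.C (eval y (homogeneousComponent k G)) * Polynomial.X ^ k
  let q : Polynomial ℝ := Polynomial.C c₂ *
    (Polynomial.C 1 + Polynomial.C (∑ i, y i ^ 2) * Polynomial.X ^ 2) ^ M
  have hp : ∀ t : ℝ, p.eval t = eval (fun i => t * y i) G := by
    intro t
    rw [eval_smul_eq]
    simp only [p, Polynomial.eval_finsetSum, Polynomial.eval_mul, Polynomial.eval_C,
      Polynomial.eval_pow, Polynomial.eval_X]
    exact Finset.sum_congr rfl fun k _ => mul_comm _ _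
  have hq : ∀ t : ℝ, q.eval t = c₂ * nr (fun i => t * y i) ^ M := by
    intro t
    simp only [q, Polynomial.eval_mul, Polynomial.eval_C, Polynomial.eval_pow, Polynomial.eval_X,
      Polynomial.eval_add, nr, vr, Fin.sum_univ_succ, Fin.cons_zero, Fin.cons_succ]
    congr 2
    rw [one_pow, Finset.sum_mul]
    congr 1
    exact Finset.sum_congr rfl fun i _ => by ring
  have hpc : p.coeff d = eval y (homogeneousComponent d G) := by
    simp only [p, Polynomial.finsetSum_coeff, Polynomial.coeff_C_mul, Polynomial.coeff_X_pow]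
    rw [Finset.sum_eq_single d]
    · simp
    · intro k _ hk
      rw [if_neg (Ne.symm hk), mul_zero]
    · intro hk
      exact absurd (Finset.mem_range.2 (by omega)) hk
  have hpd : p.natDegree ≤ d := by
    refine Polynomial.natDegree_sum_le_of_forall_le _ _ fun k hk => ?_
    refine (Polynomial.natDegree_C_mul_X_pow_le _ _).trans ?_
    have := Finset.mem_range.1 hk
    omega
  have hpd' : p.natDegree = d := by
    refine le_antisymm hpd (Polynomial.le_natDegree_of_ne_zero ?_)
    rw [hpc]
    exact hy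
  have hqd : q.natDegree ≤ 2 * M := by
    refine (Polynomial.natDegree_C_mul_le _ _).trans ?_
    refine Polynomial.natDegree_pow_le.trans ?_
    have : (Polynomial.C 1 + Polynomial.C (∑ i, y i ^ 2) * Polynomial.X ^ 2 :
        Polynomial ℝ).natDegree ≤ 2 := by
      refine (Polynomial.natDegree_add_le _ _).trans (max_le ?_ ?_)
      · rw [Polynomial.natDegree_C]
        exact Nat.zero_le _
      · exact Polynomial.natDegree_C_mul_X_pow_le _ _
    calc M * _ ≤ M * 2 := Nat.mul_le_mul_left _ this
      _ = 2 * M := mul_comm _ _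
  have hpn : ∀ t : ℝ, 0 ≤ p.eval t := fun t => by rw [hp]; exact h0 _
  have hqn : ∀ t : ℝ, 0 ≤ (q - p).eval t := fun t => by
    rw [Polynomial.eval_sub, hp, hq]
    have := h (fun i => t * y i)
    linarith
  have hdpos : 0 < p.degree := by
    rw [← Polynomial.natDegree_pos_iff_degree_pos, hpd']
    omega
  rcases lt_or_ge p.leadingCoeff 0 with hl | hl
  · have h1 := Polynomial.tendsto_atBot_of_leadingCoeff_nonpos p hdpos hl.le
    obtain ⟨t, ht⟩ := (h1.eventually (Filter.eventually_lt_atBot 0)).exists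
    exact absurd (hpn t) (not_le.2 ht)
  · have hc : (q - p).coeff d = - eval y (homogeneousComponent d G) := by
      rw [Polynomial.coeff_sub, hpc, Polynomial.coeff_eq_zero_of_natDegree_lt (by omega), zero_sub]
    have hd1 : (q - p).natDegree = d := by
      refine le_antisymm ((Polynomial.natDegree_sub_le _ _).trans (max_le (by omega) hpd)) ?_
      refine Polynomial.le_natDegree_of_ne_zero ?_
      rw [hc]
      exact neg_ne_zero.2 hy
    have hl2 : (q - p).leadingCoeff ≤ 0 := by
      rw [Polynomial.leadingCoeff, hd1, hc]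
      rw [Polynomial.leadingCoeff, hpd', hpc] at hl
      linarith
    have hl3 : (q - p).leadingCoeff ≠ 0 := by
      rw [Polynomial.leadingCoeff, hd1, hc]
      exact neg_ne_zero.2 hy
    have h1 := Polynomial.tendsto_atBot_of_leadingCoeff_nonpos (q - p)
      (by rw [← Polynomial.natDegree_pos_iff_degree_pos, hd1]; omega) hl2
    obtain ⟨t, ht⟩ := (h1.eventually (Filter.eventually_lt_atBot 0)).exists
    exact absurd (hqn t) (not_le.2 ht)

/-- homogenisation in degree `e` -/
noncomputable def hmg (G : RP N) (e : ℕ) : MvPolynomial (Fin (N + 1)) ℝ :=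
  ∑ k ∈ Finset.range (e + 1), X 0 ^ (e - k) * rename Fin.succ (homogeneousComponent k G)

theorem hmg_hom (G : RP N) (e : ℕ) : (hmg G e).IsHomogeneous e := by
  refine IsHomogeneous.sum _ _ _ fun k hk => ?_
  have hk' : k ≤ e := by
    have := Finset.mem_range.1 hk
    omega
  have h1 := (isHomogeneous_X_pow (R := ℝ) (0 : Fin (N + 1)) (e - k)).mul
    ((homogeneousComponent_isHomogeneous k G).rename_isHomogeneous (f := Fin.succ))
  rwa [Nat.sub_add_cancel hk'] at h1

theorem hmg_eval (G : RP N) (e : ℕ) (v : Fin (N + 1) → ℝ) :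
    eval v (hmg G e) = ∑ k ∈ Finset.range (e + 1),
      v 0 ^ (e - k) * eval (fun i => v i.succ) (homogeneousComponent k G) := by
  rw [hmg, map_sum]
  refine Finset.sum_congr rfl fun k _ => ?_
  rw [map_mul, map_pow, eval_X, eval_rename]
  rfl

theorem sum_range_eq (G : RP N) (e : ℕ) (he : G.totalDegree ≤ e) {A : Type} [AddCommMonoid A]
    (f : ℕ → RP N → A) (hf : ∀ k, f k 0 = 0) :
    ∑ k ∈ Finset.range (e + 1), f k (homogeneousComponent k G) =
      ∑ k ∈ Finset.range (G.totalDegree + 1), f k (homogeneousComponent k G) := by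
  symm
  refine Finset.sum_subset (Finset.range_mono (by omega)) fun k _ hk => ?_
  rw [homogeneousComponent_eq_zero _ _ (by simp at hk; omega), hf]

theorem hmg_aeval (G : RP N) (e : ℕ) (he : G.totalDegree ≤ e) :
    aeval (Fin.cons 1 X : Fin (N + 1) → MvPolynomial (Fin N) ℝ) (hmg G e) = G := by
  rw [hmg, map_sum]
  have h1 : ∀ k ∈ Finset.range (e + 1),
      aeval (Fin.cons 1 X : Fin (N + 1) → MvPolynomial (Fin N) ℝ)
        (X 0 ^ (e - k) * rename Fin.succ (homogeneousComponent k G)) =
      homogeneousComponent k G := by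
    intro k _
    rw [map_mul, map_pow, aeval_X, Fin.cons_zero, one_pow, one_mul, aeval_rename]
    have : (Fin.cons 1 X : Fin (N + 1) → MvPolynomial (Fin N) ℝ) ∘ Fin.succ = X := by
      funext i
      simp
    rw [this, aeval_X_left]
    rfl
  rw [Finset.sum_congr rfl h1, sum_range_eq G e he (fun _ p => p) (fun _ => rfl),
    sum_homogeneousComponent]

theorem hmg_ge (G : RP N) (c₁ : ℝ) (M : ℕ) (hd : G.totalDegree ≤ 2 * M)
    (h : ∀ y : Fin N → ℝ, c₁ * nr y ^ M ≤ eval y G) (v : Fin (N + 1) → ℝ) :
    c₁ * (∑ i, v i ^ 2) ^ M ≤ eval v (hmg G (2 * M)) := by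
  -- first the case `v 0 ≠ 0`
  have h1 : ∀ v : Fin (N + 1) → ℝ, v 0 ≠ 0 →
      c₁ * (∑ i, v i ^ 2) ^ M ≤ eval v (hmg G (2 * M)) := by
    intro v hv
    have h2 : eval v (hmg G (2 * M)) = v 0 ^ (2 * M) * eval (fun i => (v 0)⁻¹ * v i.succ) G := by
      rw [hmg_eval, eval_smul_eq, Finset.mul_sum,
        sum_range_eq G (2 * M) hd (fun k p => v 0 ^ (2 * M - k) * eval (fun i => v i.succ) p)
          (fun k => by rw [map_zero, mul_zero])]
      refine Finset.sum_congr rfl fun k hk => ?_
      have hk' : k ≤ 2 * M := by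
        have := Finset.mem_range.1 hk
        omega
      rw [← mul_assoc]
      congr 1
      rw [inv_pow, ← div_eq_mul_inv, eq_div_iff (pow_ne_zero _ hv), ← pow_add,
        Nat.sub_add_cancel hk']
    have h3 : (∑ i, v i ^ 2) ^ M = v 0 ^ (2 * M) * nr (fun i => (v 0)⁻¹ * v i.succ) ^ M := by
      rw [pow_mul, ← mul_pow]
      congr 1
      simp only [nr, vr, Fin.sum_univ_succ, Fin.cons_zero, Fin.cons_succ]
      rw [one_pow, mul_add, mul_one, Finset.mul_sum]
      congr 1
      refine Finset.sum_congr rfl fun i _ => ?_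
      field_simp
    rw [h2, h3]
    have h4 := h (fun i => (v 0)⁻¹ * v i.succ)
    have h5 : (0 : ℝ) ≤ v 0 ^ (2 * M) := by
      rw [pow_mul]
      positivity
    calc c₁ * (v 0 ^ (2 * M) * nr (fun i => (v 0)⁻¹ * v i.succ) ^ M)
        = v 0 ^ (2 * M) * (c₁ * nr (fun i => (v 0)⁻¹ * v i.succ) ^ M) := by ring
      _ ≤ _ := mul_le_mul_of_nonneg_left h4 h5
  by_cases hv : v 0 = 0
  · -- limit
    have hc1 : Continuous (fun t : ℝ => c₁ * (∑ i, (Function.update v 0 t) i ^ 2) ^ M) := by
      have h0 : Continuous (fun t : ℝ => Function.update v 0 t) :=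
        continuous_const.update 0 continuous_id
      have : ∀ i, Continuous (fun t : ℝ => (Function.update v 0 t) i) := fun i =>
        (continuous_apply i).comp h0
      fun_prop
    have hc2 : Continuous (fun t : ℝ => eval (Function.update v 0 t) (hmg G (2 * M))) :=
      (MvPolynomial.continuous_eval _).comp (continuous_const.update 0 continuous_id)
    have hu : Function.update v 0 0 = v := by
      rw [← hv, Function.update_eq_self]
    have h6 : Filter.Tendsto (fun t : ℝ => c₁ * (∑ i, (Function.update v 0 t) i ^ 2) ^ M)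
        (nhdsWithin 0 {0}ᶜ) (nhds (c₁ * (∑ i, v i ^ 2) ^ M)) := by
      have := hc1.tendsto 0
      rw [hu] at this
      exact this.mono_left nhdsWithin_le_nhds
    have h7 : Filter.Tendsto (fun t : ℝ => eval (Function.update v 0 t) (hmg G (2 * M)))
        (nhdsWithin 0 {0}ᶜ) (nhds (eval v (hmg G (2 * M)))) := by
      have := hc2.tendsto 0
      rw [hu] at this
      exact this.mono_left nhdsWithin_le_nhds
    refine le_of_tendsto_of_tendsto h6 h7 ?_
    filter_upwards [self_mem_nhdsWithin] with t ht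
    exact h1 _ (by simpa using ht)
  · exact h1 v hv

end T1aux

theorem T1 (N : ℕ) (hN : 4 ≤ N) (G : RP N) (c₁ c₂ : ℝ) (M : ℕ) (hc : 0 < c₁)
    (h : ∀ y : Fin N → ℝ, c₁ * nr y ^ M ≤ MvPolynomial.eval y G ∧
      MvPolynomial.eval y G ≤ c₂ * nr y ^ M) :
    SS (2 ^ (N - 1) + N + 1) (algebraMap (RP N) (kk N) G) := by
  have hnr : ∀ y : Fin N → ℝ, 0 ≤ nr y := fun y => Finset.sum_nonneg fun i _ => sq_nonneg _
  have hd : G.totalDegree ≤ 2 * M := T1aux.degree_le G c₂ M
    (fun y => (mul_nonneg hc.le (pow_nonneg (hnr y) _)).trans (h y).1) (fun y => (h y).2)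
  have hpos : ∀ v : Fin (N + 1) → ℝ, v ≠ 0 → 0 < eval v (T1aux.hmg G (2 * M)) := by
    intro v hv
    refine lt_of_lt_of_le ?_ (T1aux.hmg_ge G c₁ M hd (fun y => (h y).1) v)
    have : 0 < ∑ i, v i ^ 2 := by
      obtain ⟨i, hi⟩ : ∃ i, v i ≠ 0 := by
        by_contra hcon
        push Not at hcon
        exact hv (funext hcon)
      exact Finset.sum_pos' (fun _ _ => sq_nonneg _) ⟨i, Finset.mem_univ i, by positivity⟩
    positivity
  have hf : SS (if N = 3 then 7 else 2 ^ (N - 1) + N + 1) (algebraMap (RP N) (kk N) G) := by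
    obtain ⟨g, hg⟩ := final N (by omega) (2 * M) (T1aux.hmg G (2 * M)) (T1aux.hmg_hom G _) hpos
    rw [T1aux.hmg_aeval G _ hd] at hg
    exact ⟨g, hg⟩
  rwa [if_neg (show N ≠ 3 by omega)] at hf

end Pool.Agent.PFI
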