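import Pool.Agent.PFI.AB0
import Pool.Agent.PFI.EX
import Pool.Agent.PFI.IN
import Pool.Agent.PFI.SI
import Pool.Agent.PFI.T1

/-!
# Pfister's bound is not optimal: the level of `L` (row LV)
-/

set_option autoImplicit false

namespace Pool.Agent.PFI

open Polynomial Pool.Agent.PDF

namespace LVaux

theorem SS_mono {K : Type} [Field K] {m n : ℕ} (h : m ≤ n) {a : K} (ha : SS m a) : SS n a := by
  obtain ⟨j, rfl⟩ := Nat.exists_eq_add_of_le h
  exact (SS_add_iff m j a).2 ⟨a, 0, ha, SS_zero_val j, (add_zero a).symm⟩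

theorem SS_add {K : Type} [Field K] {m n : ℕ} {a b : K} (ha : SS m a) (hb : SS n b) :
    SS (m + n) (a + b) := (SS_add_iff m n _).2 ⟨a, b, ha, hb, rfl⟩

/-- the count of squares -/
theorem level {L : Type} [Field L] (h2 : (2 : L) ≠ 0) (j s : ℕ) (hs : s ≤ 2 ^ j) (G : L)
    (hG0 : G ≠ 0) (h1 : SS (2 ^ (j + 1) + s) G) (h3 : SS (2 ^ j) (-G)) :
    SS (2 ^ (j + 1)) (-1 : L) := by
  obtain ⟨s₁, s₂, hs1, hs2, hG⟩ := (SS_add_iff _ _ _).1 h1
  have hs2' : SS (2 ^ j) s₂ := SS_mono hs hs2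
  by_cases h0 : s₁ = 0
  · have h4 : s₂ = G := by rw [hG, h0, zero_add]
    rw [SS_iff_D, List.replicate_succ]
    refine D_univ_of h2 (s := s₂) (t := -G) ?_ ((SS_iff_D _ _).1 hs2') ((SS_iff_D _ _).1 h3)
      (by rw [h4]; ring) (h4 ▸ hG0) _
    intro b hb
    rw [← List.replicate_succ] at hb
    rw [List.eq_of_mem_replicate hb]
    exact one_ne_zero
  · have h4 : SS (2 ^ (j + 1)) (s₂ + -G) := by
      rw [pow_succ, mul_two]
      exact SS_add hs2' h3
    have h5 : s₂ + -G = -s₁ := by rw [hG]; ring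
    rw [h5, SS_iff_D] at h4
    have h6 := D_div _ h4 ((SS_iff_D _ _).1 hs1)
    rw [neg_div, div_self h0] at h6
    exact (SS_iff_D _ _).2 h6

theorem pow_ge (m : ℕ) : (m + 11) ^ 2 + 2 ≤ 2 ^ (m + 8) := by
  induction m with
  | zero => norm_num
  | succ m ih =>
    have h1 : 2 ^ (m + 1 + 8) = 2 * 2 ^ (m + 8) := by rw [← pow_succ']
    rw [h1]
    nlinarith

end LVaux

namespace LVaux

theorem nr_pos {N : ℕ} (y : Fin N → ℝ) : 0 < nr y := by
  unfold nr
  rw [Fin.sum_univ_succ]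
  have h1 : vr y 0 = 1 := rfl
  rw [h1]
  have : 0 ≤ ∑ i : Fin N, vr y i.succ ^ 2 := Finset.sum_nonneg fun i _ => sq_nonneg _
  linarith

theorem rel (ρ : ℝ) (hρ : 0 < ρ) (m : ℕ) (δ : ℝ) (x : ℂ) (h : ‖x - (ρ : ℂ) ^ m‖ ≤ δ * ρ ^ m) :
    ∃ α : ℂ, ‖α‖ ≤ δ ∧ x = (ρ : ℂ) ^ m * (1 + α) := by
  have hρ0 : (ρ : ℂ) ^ m ≠ 0 := pow_ne_zero _ (by exact_mod_cast hρ.ne')
  refine ⟨(x - (ρ : ℂ) ^ m) / (ρ : ℂ) ^ m, ?_, ?_⟩
  · rw [norm_div, div_le_iff₀ (norm_pos_iff.2 hρ0), norm_pow, Complex.norm_real,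
      Real.norm_of_nonneg hρ.le]
    exact h
  · field_simp
    ring

theorem est (δ ε : ℝ) (h0 : 0 ≤ δ) (h1 : δ ≤ 1) (h2 : 7 * δ ≤ ε) (α β : ℂ) (hα : ‖α‖ ≤ δ)
    (hβ : ‖β‖ ≤ δ) : ‖(1 + α) ^ 2 * (1 + β) - 1‖ ≤ ε := by
  have h3 : (1 + α) ^ 2 * (1 + β) - 1 = 2 * α + β + (α ^ 2 + 2 * (α * β)) + α ^ 2 * β := by ring
  rw [h3]
  have hα0 := norm_nonneg α
  have hβ0 := norm_nonneg β
  have n1 : ‖2 * α‖ ≤ 2 * δ := by
    rw [norm_mul]
    have : ‖(2 : ℂ)‖ = 2 := by simp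
    rw [this]; linarith
  have n2 : ‖α ^ 2‖ ≤ δ := by
    rw [norm_pow]; nlinarith
  have n3 : ‖2 * (α * β)‖ ≤ 2 * δ := by
    rw [norm_mul, norm_mul]
    have : ‖(2 : ℂ)‖ = 2 := by simp
    rw [this]
    nlinarith
  have n4 : ‖α ^ 2 * β‖ ≤ δ := by
    rw [norm_mul, norm_pow]
    have : ‖α‖ ^ 2 ≤ 1 := by nlinarith
    nlinarith
  calc ‖2 * α + β + (α ^ 2 + 2 * (α * β)) + α ^ 2 * β‖
      ≤ ‖2 * α‖ + ‖β‖ + (‖α ^ 2‖ + ‖2 * (α * β)‖) + ‖α ^ 2 * β‖ := by
        refine (norm_add_le _ _).trans (add_le_add ?_ le_rfl)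
        refine (norm_add_le _ _).trans (add_le_add ?_ ?_)
        · exact norm_add_le _ _
        · exact norm_add_le _ _
    _ ≤ ε := by linarith

end LVaux

open LVaux in
theorem LV (N : ℕ) (hN : 10 ≤ N) {L : Type} [Field L] [Algebra (kk N) L] {ι : Type} [Fintype ι]
    {w : ι → L} {C : Fin (N + 1) → ι → ℝ} (hS : Setup N L ι w C) :
    SS (2 ^ (N - 1)) (-1 : L) := by
  classical
  letI : Algebra (RP N) L := ((algebraMap (kk N) L).comp (algebraMap (RP N) (kk N))).toAlgebra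
  haveI : IsScalarTower (RP N) (kk N) L := IsScalarTower.of_algebraMap_eq fun _ => rfl
  haveI := hS.fin
  haveI : CharZero (kk N) := charZero_of_injective_algebraMap (algebraMap ℝ (kk N)).injective
  haveI : CharZero L := charZero_of_injective_algebraMap (algebraMap (kk N) L).injective
  letI : Fintype (L →ₐ[kk N] AlgebraicClosure (kk N)) := Fintype.ofFinite _
  have h2 : (2 : L) ≠ 0 := two_ne_zero
  obtain ⟨ε, hε, hSI⟩ := SI N (L := L)
  set δ : ℝ := min (1 / 2) (ε / 7) with hδ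
  have hδ0 : 0 < δ := lt_min (by norm_num) (by positivity)
  have hδ1 : δ ≤ 1 / 2 := min_le_left _ _
  have hδ2 : 7 * δ ≤ ε := by
    have := min_le_right (1 / 2) (ε / 7)
    linarith
  obtain ⟨t, K, ht⟩ := AB0 hS δ hδ0
  set a₀ : integralClosure (RP N) L := -∑ i, t i ^ 2 with ha₀
  obtain ⟨μ, k, hμ, hinj⟩ := IN (Ω := AlgebraicClosure (kk N)) hS (a₀ : L) δ hδ0
  obtain ⟨P, B, c, G, c₁, c₂, M, hPm, hPd, hPc, hc₁, hG⟩ := hSI (μ ^ 2 * a₀) (k + K)
    (by
      intro b b' hb hb' hbb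
      refine hinj b b' (fun σ => ?_) (fun σ => ?_) hbb
      · rw [hb σ]; rfl
      · rw [hb' σ]; rfl)
    (by
      intro y χ hχ
      obtain ⟨α, hα, hα'⟩ := rel (nr y) (nr_pos y) k δ _ (hμ y χ hχ)
      obtain ⟨β, hβ, hβ'⟩ := rel (nr y) (nr_pos y) (2 * K) δ _ (ht y χ hχ)
      rw [map_mul, map_pow, hα', hβ']
      have h3 : ((nr y : ℂ) ^ k * (1 + α)) ^ 2 * ((nr y : ℂ) ^ (2 * K) * (1 + β)) -
          (nr y : ℂ) ^ (2 * (k + K)) =
          (nr y : ℂ) ^ (2 * (k + K)) * ((1 + α) ^ 2 * (1 + β) - 1) := by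
        ring
      rw [h3, norm_mul, norm_pow, Complex.norm_real, Real.norm_of_nonneg (nr_pos y).le,
        mul_comm ε]
      exact mul_le_mul_of_nonneg_left (est δ ε hδ0.le (by linarith) hδ2 α β hα hβ)
        (pow_nonneg (nr_pos y).le _))
  -- nonvanishing
  obtain ⟨χ, hχ⟩ := EX (Ω := L) (N := N) 0
  have hμ0 : (μ : L) ≠ 0 := by
    intro h
    have h' : μ = 0 := Subtype.ext h
    obtain ⟨α, hα, hα'⟩ := rel (nr 0) (nr_pos 0) k δ _ (hμ 0 χ hχ)
    rw [h', map_zero] at hα'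
    rcases mul_eq_zero.1 hα'.symm with h3 | h3
    · exact pow_ne_zero _ (by exact_mod_cast (nr_pos (0 : Fin N → ℝ)).ne') h3
    · have h4 : α = -1 := by linear_combination h3
      rw [h4, norm_neg, norm_one] at hα
      linarith
  have ha0 : ∃ i, t i ≠ 0 := by
    by_contra hcon
    push Not at hcon
    obtain ⟨α, hα, hα'⟩ := rel (nr 0) (nr_pos 0) (2 * K) δ _ (ht 0 χ hχ)
    have h5 : a₀ = 0 := by
      rw [ha₀]
      simp [hcon]
    rw [h5, map_zero] at hα'
    rcases mul_eq_zero.1 hα'.symm with h3 | h3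
    · exact pow_ne_zero _ (by exact_mod_cast (nr_pos (0 : Fin N → ℝ)).ne') h3
    · have h4 : α = -1 := by linear_combination h3
      rw [h4, norm_neg, norm_one] at hα
      linarith
  have hG0 : G ≠ 0 := by
    rintro rfl
    have h3 := (hG 0).1
    rw [map_zero] at h3
    have h4 := mul_pos hc₁ (pow_pos (nr_pos (0 : Fin N → ℝ)) M)
    linarith
  set g : L := algebraMap (kk N) L (algebraMap (RP N) (kk N) G) with hg
  have hg0 : g ≠ 0 := by
    rw [hg, Ne, map_eq_zero]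
    intro h
    exact hG0 ((IsFractionRing.injective (RP N) (kk N)) (by rw [h, map_zero]))
  obtain ⟨m, rfl⟩ : ∃ m, N = m + 10 := ⟨N - 10, by omega⟩
  have hcard := pow_ge m
  have hNm : m + 10 - 1 = m + 8 + 1 := by omega
  rw [hNm]
  have hg1 : SS (2 ^ (m + 8 + 1) + (m + 11)) g := by
    have h3 := SS_map (algebraMap (kk (m + 10)) L) (T1 (m + 10) (by omega) G c₁ c₂ M hc₁ hG)
    have h4 : 2 ^ (m + 10 - 1) + (m + 10) + 1 = 2 ^ (m + 8 + 1) + (m + 11) := by
      rw [hNm]; ring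
    rw [h4] at h3
    exact h3
  -- the norm principle
  have hl : ∀ a ∈ List.replicate (m + 8) (1 : L), a ≠ 0 := by
    intro a ha
    rw [List.eq_of_mem_replicate ha]
    exact one_ne_zero
  by_cases hA : Aniso (wt (List.replicate (m + 8) (1 : L)))
  · have hev : (P.map (algebraMap (kk (m + 10)) L)).eval (algebraMap (kk (m + 10)) L c) = -g := by
      rw [eval_map_apply, hPc, map_neg, hg]
    have h3 : Rep (wt (List.replicate (m + 8) (1 : L)))
        ((P.map (algebraMap (kk (m + 10)) L)).eval (algebraMap (kk (m + 10)) L c)) := by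
      refine NP _ hA ((D_wt _ _).1 (D_one _)) (mulC_wt _) _ (hPm.map _) ?_ _ ?_
      · intro q hq hqP
        obtain ⟨i₀, hi₀⟩ := ha0
        have hcard2 : (m + 10 + 1) ^ 2 + 1 + 1 ≤ 2 ^ (m + 8) := by
          have h5 : (m + 10 + 1) = m + 11 := by ring
          rw [h5]
          omega
        refine iso_one (κ := (Unit ⊕ Fin ((m + 10 + 1) ^ 2 + 1)) ⊕
            Fin (2 ^ (m + 8) - ((m + 10 + 1) ^ 2 + 1 + 1))) _
          (fun a ha => List.eq_of_mem_replicate ha) ?_ q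
          (Sum.elim (Sum.elim (fun _ => B) (fun i => Polynomial.C ((μ : L) * (t i : L))))
            (fun _ => 0)) ?_ ?_
        · simp only [Fintype.card_sum, Fintype.card_unit, Fintype.card_fin,
            List.length_replicate]
          omega
        · refine ⟨Sum.inl (Sum.inr i₀), ?_⟩
          intro h
          have h5 : (t i₀ : L) ≠ 0 := fun h6 => hi₀ (Subtype.ext h6)
          exact hq.not_isUnit (isUnit_of_dvd_unit h (isUnit_C.2 (isUnit_iff_ne_zero.2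
            (mul_ne_zero hμ0 h5))))
        · rw [Fintype.sum_sum_type, Fintype.sum_sum_type]
          simp only [Sum.elim_inl, Sum.elim_inr, Finset.univ_unique, Finset.sum_singleton]
          have h5 := hqP.trans hPd
          have h6 : (((μ ^ 2 * a₀ : integralClosure (RP (m + 10)) L)) : L) =
              -∑ i, ((μ : L) * (t i : L)) ^ 2 := by
            rw [ha₀]
            push_cast
            rw [mul_neg, Finset.mul_sum]
            congr 1
            refine Finset.sum_congr rfl fun i _ => ?_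
            ring
          rw [h6] at h5
          convert h5 using 1
          rw [C_neg, map_sum]
          simp only [C_pow]
          simp
      · rw [hev]
        exact neg_ne_zero.2 hg0
    rw [hev, ← D_wt, ← SS_iff_D] at h3
    have hs : m + 11 ≤ 2 ^ (m + 8) := by nlinarith
    exact level h2 (m + 8) (m + 11) hs g hg0 hg1 h3
  · have h3 : SS (2 ^ (m + 8)) (-1 : L) := (SS_iff_D _ _).2 (D_univ h2 _ hl hA _)
    exact SS_mono (Nat.pow_le_pow_right (by norm_num) (by omega)) h3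

end Pool.Agent.PFI
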