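import Pool.Agent.PFI.Defs

/-!
# Graded (linear) Noether normalisation over the field of real numbers (row NN)
-/

set_option autoImplicit false

namespace Pool.Agent.PFI

open Polynomial

namespace NNaux

variable {L : Type} [Field L] [Algebra ℝ L]

/-- evaluation at `l`, with a variable keeping track of the degree -/
noncomputable def ph {α : Type} (l : α → L) : MvPolynomial α ℝ →ₐ[ℝ] L[X] :=
  MvPolynomial.aeval (fun a => C (l a) * X)

lemma ph_X {α : Type} (l : α → L) (a : α) : ph l (MvPolynomial.X a) = C (l a) * X := by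
  simp [ph]

lemma degree_of_homog {α : Type} {n : ℕ} {g : MvPolynomial α ℝ} (hg : g.IsHomogeneous n)
    {d : α →₀ ℕ} (hd : d ∈ g.support) : ∑ i ∈ d.support, d i = n := by
  have h1 := hg (MvPolynomial.mem_support_iff.1 hd)
  have h2 : Finsupp.degree d = n := by
    rw [Finsupp.degree_eq_weight_one]
    exact h1
  exact h2

lemma ph_homog {α : Type} (l : α → L) {n : ℕ} {g : MvPolynomial α ℝ} (hg : g.IsHomogeneous n) :
    ph l g = C (MvPolynomial.aeval l g) * X ^ n := by
  rw [ph, MvPolynomial.aeval_def, MvPolynomial.eval₂_eq, MvPolynomial.aeval_def,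
    MvPolynomial.eval₂_eq, map_sum, Finset.sum_mul]
  refine Finset.sum_congr rfl fun d hd => ?_
  have h1 := degree_of_homog hg hd
  have h2 : ∏ i ∈ d.support, (C (l i) * X : L[X]) ^ d i =
      C (∏ i ∈ d.support, l i ^ d i) * X ^ n := by
    rw [Finset.prod_congr rfl (fun i _ => mul_pow (C (l i)) (X : L[X]) (d i)),
      Finset.prod_mul_distrib, Finset.prod_pow_eq_pow_sum, h1, map_prod]
    simp only [map_pow]
  rw [h2, map_mul, mul_assoc]
  rfl

lemma ph_coeff {α : Type} (l : α → L) (n : ℕ) (g : MvPolynomial α ℝ) :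
    (ph l g).coeff n = MvPolynomial.aeval l (MvPolynomial.homogeneousComponent n g) := by
  have h1 : ph l g = ∑ i ∈ Finset.range (g.totalDegree + 1),
      C (MvPolynomial.aeval l (MvPolynomial.homogeneousComponent i g)) * X ^ i := by
    conv_lhs => rw [← MvPolynomial.sum_homogeneousComponent g]
    rw [map_sum]
    refine Finset.sum_congr rfl fun i _ => ?_
    exact ph_homog l (MvPolynomial.homogeneousComponent_isHomogeneous i g)
  rw [h1, Polynomial.finsetSum_coeff]
  simp only [coeff_C_mul_X_pow]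
  rw [Finset.sum_ite_eq]
  split_ifs with h
  · rfl
  · rw [Finset.mem_range, not_lt] at h
    rw [MvPolynomial.homogeneousComponent_eq_zero _ _ (by omega), map_zero]

/-- homogeneous integrality over `l` -/
def HI {α : Type} (l : α → L) (x : L) : Prop :=
  ∃ (e : ℕ) (c : Fin e → MvPolynomial α ℝ), (∀ k, (c k).IsHomogeneous (e - k)) ∧
    x ^ e + ∑ k : Fin e, MvPolynomial.aeval l (c k) * x ^ (k : ℕ) = 0

/-- integrality in the graded ring -/
def GI {α : Type} (l : α → L) (x : L[X]) : Prop :=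
  (ph l : MvPolynomial α ℝ →+* L[X]).IsIntegralElem x

lemma gi_of_hi {α : Type} {l : α → L} {x : L} (h : HI l x) : GI l (C x * X) := by
  obtain ⟨e, c, hc, hx⟩ := h
  refine ⟨X ^ e + ∑ k : Fin e, C (c k) * X ^ (k : ℕ), ?_, ?_⟩
  · apply Polynomial.monic_X_pow_add
    exact Polynomial.degree_sum_fin_lt _
  · rw [eval₂_add, eval₂_X_pow, eval₂_finsetSum]
    have h1 : ∀ k : Fin e, eval₂ (ph l : MvPolynomial α ℝ →+* L[X]) (C x * X)
        (C (c k) * X ^ (k : ℕ)) = C (MvPolynomial.aeval l (c k) * x ^ (k : ℕ)) * X ^ e := by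
      intro k
      rw [eval₂_mul, eval₂_C, eval₂_X_pow, RingHom.coe_coe, ph_homog l (hc k), mul_pow, map_mul,
        map_pow]
      have h2 : (X : L[X]) ^ e = X ^ (e - k) * X ^ (k : ℕ) := by
        rw [← pow_add]
        congr 1
        omega
      rw [h2]
      ring
    rw [Finset.sum_congr rfl fun k _ => h1 k, ← Finset.sum_mul, mul_pow, ← map_pow, ← add_mul,
      ← map_sum, ← map_add, hx, map_zero, zero_mul]

lemma hi_of_gi {α : Type} {l : α → L} {x : L} (h : GI l (C x * X)) : HI l x := by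
  obtain ⟨p, hp, hpx⟩ := h
  refine ⟨p.natDegree, fun k => MvPolynomial.homogeneousComponent (p.natDegree - k) (p.coeff k),
    fun k => MvPolynomial.homogeneousComponent_isHomogeneous _ _, ?_⟩
  have h0 : eval₂ (ph l : MvPolynomial α ℝ →+* L[X]) (C x * X) p =
      (C x * X) ^ p.natDegree + ∑ k : Fin p.natDegree, ph l (p.coeff k) * (C x * X) ^ (k : ℕ) := by
    conv_lhs => rw [hp.as_sum]
    rw [eval₂_add, eval₂_X_pow, eval₂_finsetSum, Finset.sum_range]
    congr 1
    refine Finset.sum_congr rfl fun k _ => ?_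
    rw [eval₂_mul, eval₂_C, eval₂_X_pow, RingHom.coe_coe]
  rw [h0] at hpx
  have h1 := congrArg (fun q : L[X] => q.coeff p.natDegree) hpx
  simp only [coeff_add, coeff_zero, finsetSum_coeff, mul_pow, ← map_pow, coeff_C_mul_X_pow,
    if_true] at h1
  rw [← h1]
  congr 1
  refine Finset.sum_congr rfl fun k _ => ?_
  have h2 : ph l (p.coeff k) * (C (x ^ (k : ℕ)) * X ^ (k : ℕ)) =
      C (x ^ (k : ℕ)) * ph l (p.coeff k) * X ^ (k : ℕ) := by ring
  rw [h2]
  have h3 : (C (x ^ (k : ℕ)) * ph l (p.coeff k) * X ^ (k : ℕ)).coeff p.natDegree =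
      (C (x ^ (k : ℕ)) * ph l (p.coeff k)).coeff (p.natDegree - k) := by
    have h4 := coeff_mul_X_pow (C (x ^ (k : ℕ)) * ph l (p.coeff k)) k (p.natDegree - k)
    rw [Nat.sub_add_cancel k.2.le] at h4
    exact h4
  rw [h3, coeff_C_mul, ph_coeff, mul_comm]

/-- transitivity -/
lemma gi_trans {α β : Type} {l : α → L} {l' : β → L} (hl : ∀ a, GI l' (C (l a) * X)) {x : L[X]}
    (hx : GI l x) : GI l' x := by
  let _ := (ph l' : MvPolynomial β ℝ →+* L[X]).toAlgebra
  have hmem : ∀ q : MvPolynomial α ℝ, ph l q ∈ (integralClosure (MvPolynomial β ℝ) L[X]) := by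
    intro q
    induction q using MvPolynomial.induction_on with
    | C r =>
      have : ph l (MvPolynomial.C r) = algebraMap (MvPolynomial β ℝ) L[X] (MvPolynomial.C r) := by
        show ph l (MvPolynomial.C r) = ph l' (MvPolynomial.C r)
        rw [ph, ph, MvPolynomial.aeval_C, MvPolynomial.aeval_C]
      rw [this]
      exact Subalgebra.algebraMap_mem _ _
    | add p q hp hq =>
      rw [map_add]
      exact add_mem hp hq
    | mul_X p a hp =>
      rw [map_mul, ph_X]
      exact mul_mem hp (hl a)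
  obtain ⟨p, hp, hpx⟩ := hx
  let ψ : MvPolynomial α ℝ →+* integralClosure (MvPolynomial β ℝ) L[X] :=
    (ph l : MvPolynomial α ℝ →+* L[X]).codRestrict _ hmem
  have h1 : IsIntegral (integralClosure (MvPolynomial β ℝ) L[X]) x := by
    refine ⟨p.map ψ, hp.map ψ, ?_⟩
    rw [eval₂_map]
    exact hpx
  exact isIntegral_trans (R := MvPolynomial β ℝ) x h1

/-- `f` has degree at most `n` and coefficient `v` there -/
def TC {R : Type} [CommRing R] (n : ℕ) (f : R[X]) (v : R) : Prop := f.natDegree ≤ n ∧ f.coeff n = v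

lemma TC.mul {R : Type} [CommRing R] {n m : ℕ} {f g : R[X]} {v w : R} (hf : TC n f v)
    (hg : TC m g w) : TC (n + m) (f * g) (v * w) :=
  ⟨natDegree_mul_le_of_le hf.1 hg.1, by
    rw [coeff_mul_add_eq_of_natDegree_le hf.1 hg.1, hf.2, hg.2]⟩

lemma TC.pow {R : Type} [CommRing R] {n : ℕ} {f : R[X]} {v : R} (hf : TC n f v) (m : ℕ) :
    TC (m * n) (f ^ m) (v ^ m) :=
  ⟨natDegree_pow_le_of_le m hf.1, by rw [coeff_pow_of_natDegree_le hf.1, hf.2]⟩

lemma TC.prod {R ι : Type} [CommRing R] (s : Finset ι) {n : ι → ℕ} {f : ι → R[X]} {v : ι → R}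
    (hf : ∀ i ∈ s, TC (n i) (f i) (v i)) : TC (∑ i ∈ s, n i) (∏ i ∈ s, f i) (∏ i ∈ s, v i) := by
  classical
  induction s using Finset.induction_on with
  | empty => exact ⟨by simp, by simp⟩
  | insert a s ha ih =>
    rw [Finset.sum_insert ha, Finset.prod_insert ha, Finset.prod_insert ha]
    exact (hf a (Finset.mem_insert_self a s)).mul
      (ih fun i hi => hf i (Finset.mem_insert_of_mem hi))

lemma TC.sum {R ι : Type} [CommRing R] (s : Finset ι) {n : ℕ} {f : ι → R[X]} {v : ι → R}
    (hf : ∀ i ∈ s, TC n (f i) (v i)) : TC n (∑ i ∈ s, f i) (∑ i ∈ s, v i) := by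
  refine ⟨natDegree_sum_le_of_forall_le s f fun i hi => (hf i hi).1, ?_⟩
  rw [finsetSum_coeff]
  exact Finset.sum_congr rfl fun i hi => (hf i hi).2

/-- the leading coefficient after a linear substitution -/
lemma tc_subst {α β : Type} {n : ℕ} {g : MvPolynomial α ℝ} (hg : g.IsHomogeneous n)
    (m : α → MvPolynomial β ℝ) (c : α → ℝ) :
    TC n (MvPolynomial.eval₂ ((Polynomial.C : MvPolynomial β ℝ →+* _).comp MvPolynomial.C)
      (fun a => C (m a) + C (MvPolynomial.C (c a)) * X) g)
      (MvPolynomial.C (MvPolynomial.eval c g)) := by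
  rw [MvPolynomial.eval₂_eq, MvPolynomial.eval_eq, map_sum]
  refine TC.sum _ fun d hd => ?_
  have h1 := degree_of_homog hg hd
  rw [map_mul, map_prod]
  have h2 : TC 0 (((Polynomial.C : MvPolynomial β ℝ →+* _).comp MvPolynomial.C)
      (MvPolynomial.coeff d g)) (MvPolynomial.C (MvPolynomial.coeff d g) : MvPolynomial β ℝ) :=
    ⟨by simp, by simp⟩
  have h3 : TC (∑ i ∈ d.support, d i)
      (∏ i ∈ d.support, (C (m i) + C (MvPolynomial.C (c i)) * X : (MvPolynomial β ℝ)[X]) ^ d i)
      (∏ i ∈ d.support, MvPolynomial.C (c i ^ d i)) := by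
    refine TC.prod _ fun i _ => ?_
    have h4 : TC 1 (C (m i) + C (MvPolynomial.C (c i)) * X : (MvPolynomial β ℝ)[X])
        (MvPolynomial.C (c i)) := by
      refine ⟨?_, by simp⟩
      rw [add_comm]
      exact natDegree_linear_le
    have h5 := h4.pow (d i)
    rw [mul_one] at h5
    rw [map_pow]
    exact h5
  have h6 := h2.mul h3
  rw [zero_add, h1] at h6
  exact h6

/-- elimination of one of the elements -/
lemma elim {M : ℕ} (l : Fin (M + 1) → L) {e : ℕ} {g : MvPolynomial (Fin (M + 1)) ℝ}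
    (hg : g.IsHomogeneous e) (h0 : g ≠ 0) (hgl : MvPolynomial.aeval l g = 0) :
    ∃ c : Fin (M + 1) → ℝ, c 0 ≠ 0 ∧ ∀ a, GI (fun j : Fin M => l j.succ -
      algebraMap ℝ L (c j.succ * (c 0)⁻¹) * l 0) (C (l a) * X) := by
  obtain ⟨c, hc⟩ : ∃ c : Fin (M + 1) → ℝ, MvPolynomial.eval c (g * MvPolynomial.X 0) ≠ 0 := by
    by_contra hcon
    push Not at hcon
    apply mul_ne_zero h0 (MvPolynomial.X_ne_zero (R := ℝ) (0 : Fin (M + 1)))
    apply MvPolynomial.funext
    intro x
    rw [hcon x, map_zero]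
  rw [map_mul, MvPolynomial.eval_X] at hc
  have hcg := left_ne_zero_of_mul hc
  have hc0 := right_ne_zero_of_mul hc
  refine ⟨c, hc0, ?_⟩
  set l' : Fin M → L := fun j : Fin M => l j.succ -
      algebraMap ℝ L (c j.succ * (c 0)⁻¹) * l 0 with hl'
  set lam : L := algebraMap ℝ L (c 0)⁻¹ * l 0 with hlam
  let m : Fin (M + 1) → MvPolynomial (Fin M) ℝ := Fin.cons 0 MvPolynomial.X
  have hla : ∀ a, C (l a) * X = ph l' (m a) + C (algebraMap ℝ L (c a) * lam) * X := by
    intro a
    refine Fin.cases ?_ (fun j => ?_) a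
    · have h1 : algebraMap ℝ L (c 0) * lam = l 0 := by
        rw [hlam, ← mul_assoc, ← map_mul, mul_inv_cancel₀ hc0, map_one, one_mul]
      rw [h1]
      simp [m]
    · have h1 : l j.succ = l' j + algebraMap ℝ L (c j.succ) * lam := by
        rw [hl', hlam]
        simp only [map_mul]
        ring
      have h2 : m j.succ = MvPolynomial.X j := by simp [m]
      rw [h2, ph_X, ← add_mul, ← map_add, ← h1]
  have hlamI : GI l' (C lam * X) := by
    set P := MvPolynomial.eval₂
      ((Polynomial.C : MvPolynomial (Fin M) ℝ →+* _).comp MvPolynomial.C)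
      (fun a => C (m a) + C (MvPolynomial.C (c a)) * X) g with hP
    obtain ⟨hd, hco⟩ := tc_subst hg m c
    rw [← hP] at hd hco
    have hinv : MvPolynomial.C (MvPolynomial.eval c g)⁻¹ *
        MvPolynomial.C (MvPolynomial.eval c g) = (1 : MvPolynomial (Fin M) ℝ) := by
      rw [← map_mul, inv_mul_cancel₀ hcg, map_one]
    refine ⟨C (MvPolynomial.C (MvPolynomial.eval c g)⁻¹) * P, ?_, ?_⟩
    · apply Polynomial.monic_of_natDegree_le_of_coeff_eq_one e
      · exact (natDegree_C_mul_le _ _).trans hd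
      · rw [coeff_C_mul, hco, hinv]
    · rw [eval₂_mul]
      have h1 : eval₂ (ph l' : MvPolynomial (Fin M) ℝ →+* L[X]) (C lam * X) P = ph l g := by
        have hphg : ph l g = MvPolynomial.eval₂ (algebraMap ℝ L[X]) (fun a => C (l a) * X) g := by
          rw [ph, MvPolynomial.aeval_def]
        rw [hP, hphg]
        have := MvPolynomial.eval₂_comp_left
          (eval₂RingHom (ph l' : MvPolynomial (Fin M) ℝ →+* L[X]) (C lam * X))
          ((Polynomial.C : MvPolynomial (Fin M) ℝ →+* _).comp MvPolynomial.C)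
          (fun a => C (m a) + C (MvPolynomial.C (c a)) * X) g
        rw [coe_eval₂RingHom] at this
        rw [this]
        congr 1
        · ext r
          simp [ph]
        · funext a
          simp only [Function.comp_apply, eval₂_add, eval₂_mul, eval₂_C, eval₂_X,
            RingHom.coe_coe]
          rw [hla a]
          simp [ph]
          ring
      rw [h1, ph_homog l hg, hgl, map_zero, zero_mul, mul_zero]
  intro a
  rw [hla a]
  let _ := (ph l' : MvPolynomial (Fin M) ℝ →+* L[X]).toAlgebra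
  have h1 : ph l' (m a) ∈ integralClosure (MvPolynomial (Fin M) ℝ) L[X] :=
    Subalgebra.algebraMap_mem _ (m a)
  have h2 : C (algebraMap ℝ L (c a) * lam) * X ∈
      integralClosure (MvPolynomial (Fin M) ℝ) L[X] := by
    have h3 : C (algebraMap ℝ L (c a) * lam) * X =
        algebraMap (MvPolynomial (Fin M) ℝ) L[X] (MvPolynomial.C (c a)) * (C lam * X) := by
      have h4 : algebraMap (MvPolynomial (Fin M) ℝ) L[X] (MvPolynomial.C (c a)) =
          C (algebraMap ℝ L (c a)) := by
        show ph l' (MvPolynomial.C (c a)) = _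
        rw [ph, MvPolynomial.aeval_C]
        rfl
      rw [h4, map_mul, mul_assoc]
    rw [h3]
    exact mul_mem (Subalgebra.algebraMap_mem _ _) hlamI
  exact add_mem h1 h2

end NNaux

/-- graded Noether normalisation (linear, over the infinite field of real numbers) -/
theorem NN {L ι : Type} [Field L] [Algebra ℝ L] [Fintype ι] (w : ι → L) (hw : ∃ i, w i ≠ 0) :
    ∃ (d : ℕ) (C : Fin (d + 1) → ι → ℝ),
      (∀ (e : ℕ) (g : MvPolynomial (Fin (d + 1)) ℝ), g.IsHomogeneous e →
        MvPolynomial.aeval (fun a => ∑ i, algebraMap ℝ L (C a i) * w i) g = 0 → g = 0) ∧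
      ∀ i, ∃ (e : ℕ) (c : Fin e → MvPolynomial (Fin (d + 1)) ℝ),
        (∀ k, (c k).IsHomogeneous (e - k)) ∧
        w i ^ e + ∑ k : Fin e, MvPolynomial.aeval (fun a => ∑ i, algebraMap ℝ L (C a i) * w i)
          (c k) * w i ^ (k : ℕ) = 0 := by
  classical
  let Q : ℕ → Prop := fun M => ∃ C : Fin M → ι → ℝ,
    ∀ i, NNaux.HI (fun a => ∑ i, algebraMap ℝ L (C a i) * w i) (w i)
  have hQ : ∃ M, Q M := by
    refine ⟨Fintype.card ι, fun a i => if i = (Fintype.equivFin ι).symm a then 1 else 0, ?_⟩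
    intro i
    have h1 : (fun a : Fin (Fintype.card ι) => ∑ j, algebraMap ℝ L
        (if j = (Fintype.equivFin ι).symm a then 1 else 0) * w j) =
        fun a => w ((Fintype.equivFin ι).symm a) := by
      funext a
      rw [Finset.sum_eq_single ((Fintype.equivFin ι).symm a)]
      · simp
      · intro b _ hb
        simp [hb]
      · simp
    rw [h1]
    apply NNaux.hi_of_gi
    have h2 : C (w i) * X = NNaux.ph (fun a => w ((Fintype.equivFin ι).symm a))
        (MvPolynomial.X (Fintype.equivFin ι i)) := by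
      rw [NNaux.ph_X]
      simp
    rw [h2]
    exact RingHom.isIntegralElem_map _
  obtain ⟨C₀, hC₀⟩ := Nat.find_spec hQ
  have hmin := fun k => Nat.find_min (m := k) hQ
  generalize Nat.find hQ = M at C₀ hC₀ hmin
  obtain _ | d := M
  · exfalso
    obtain ⟨i, hi⟩ := hw
    obtain ⟨e, c, hc, hx⟩ := hC₀ i
    have h1 : ∀ k : Fin e, c k = 0 := by
      intro k
      ext s
      rw [MvPolynomial.coeff_zero]
      by_contra hcon
      have h2 := hc k hcon
      have h3 : s = 0 := Subsingleton.elim _ _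
      rw [h3, map_zero] at h2
      omega
    rw [Finset.sum_eq_zero (fun k _ => by rw [h1 k, map_zero, zero_mul]), add_zero] at hx
    exact hi ((pow_eq_zero_iff (by rintro rfl; simp at hx)).1 hx)
  · refine ⟨d, C₀, ?_, hC₀⟩
    intro e g hg hgl
    by_contra h0
    obtain ⟨c, hc0, hc⟩ := NNaux.elim _ hg h0 hgl
    refine hmin d (Nat.lt_succ_self d) ⟨fun j i => C₀ j.succ i - c j.succ * (c 0)⁻¹ * C₀ 0 i, ?_⟩
    intro i
    apply NNaux.hi_of_gi
    have h1 := NNaux.gi_trans hc (NNaux.gi_of_hi (hC₀ i))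
    convert h1 using 2
    simp only [map_sub, map_mul, sub_mul, Finset.sum_sub_distrib, Finset.mul_sum, mul_assoc]

end Pool.Agent.PFI
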