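import Pool.Agent.PFI.Defs
import Pool.Agent.PDF.HA

/-!
# Row SQ: the polynomial of the sums of square roots (MP_b906c2_al)
-/

set_option autoImplicit false

namespace Pool.Agent.PFI

open Polynomial Pool.Agent.PDF

namespace SQaux

variable {k L Ω : Type} [Field k] [Field L] [Algebra k L] [Field Ω] [Algebra k Ω]

/-- the action on families of square roots -/
noncomputable def act (g : Ω ≃ₐ[k] Ω) (b : (L →ₐ[k] Ω) → Ω) : (L →ₐ[k] Ω) → Ω :=
  fun σ => g (b ((g.symm : Ω →ₐ[k] Ω).comp σ))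

theorem act_sq {a : L} {b : (L →ₐ[k] Ω) → Ω} (g : Ω ≃ₐ[k] Ω) (hb : ∀ σ, b σ ^ 2 = σ a)
    (σ : L →ₐ[k] Ω) : act g b σ ^ 2 = σ a := by
  rw [act, ← map_pow, hb]
  simp

/-- post-composition with an automorphism -/
noncomputable def postE (g : Ω ≃ₐ[k] Ω) : (L →ₐ[k] Ω) ≃ (L →ₐ[k] Ω) where
  toFun σ := (g.symm : Ω →ₐ[k] Ω).comp σ
  invFun σ := (g : Ω →ₐ[k] Ω).comp σ
  left_inv σ := by ext x; simp
  right_inv σ := by ext x; simp

theorem act_sum [Fintype (L →ₐ[k] Ω)] (g : Ω ≃ₐ[k] Ω) (b : (L →ₐ[k] Ω) → Ω) :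
    ∑ σ, act g b σ = g (∑ σ, b σ) := by
  rw [map_sum]
  exact Fintype.sum_equiv (postE g) _ _ fun σ => rfl

end SQaux

open SQaux in
theorem SQ {k L Ω : Type} [Field k] [CharZero k] [Field L] [Algebra k L] [FiniteDimensional k L]
    [Field Ω] [Algebra k Ω] [IsAlgClosure k Ω] [Fintype (L →ₐ[k] Ω)] (a : L)
    (hinj : ∀ b b' : (L →ₐ[k] Ω) → Ω, (∀ σ, b σ ^ 2 = σ a) → (∀ σ, b' σ ^ 2 = σ a) →
      ∑ σ, b σ = ∑ σ, b' σ → b = b') :
    ∃ (P : k[X]) (B : L[X]) (S : Finset ((L →ₐ[k] Ω) → Ω)),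
      (∀ b, b ∈ S ↔ ∀ σ, b σ ^ 2 = σ a) ∧ P.Monic ∧
      P.map (algebraMap k Ω) = ∏ b ∈ S, (X - C (∑ σ, b σ)) ∧
      P.map (algebraMap k L) ∣ B ^ 2 - C a := by
  classical
  have hcΩ : CharZero Ω := charZero_of_injective_algebraMap (algebraMap k Ω).injective
  have hcL : CharZero L := charZero_of_injective_algebraMap (algebraMap k L).injective
  have hac : IsAlgClosed Ω := IsAlgClosure.isAlgClosed k
  have halg : Algebra.IsAlgebraic k Ω := IsAlgClosure.isAlgebraic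
  have hsep : Algebra.IsSeparable k Ω := inferInstance
  have hnor : Normal k Ω := IsAlgClosure.normal k Ω
  have hgal : IsGalois k Ω := ⟨⟩
  -- the set of families
  let S : Finset ((L →ₐ[k] Ω) → Ω) :=
    Fintype.piFinset fun σ => ((X ^ 2 - C (σ a) : Polynomial Ω).roots).toFinset
  have hS : ∀ b, b ∈ S ↔ ∀ σ, b σ ^ 2 = σ a := by
    intro b
    rw [Fintype.mem_piFinset]
    refine forall_congr' fun σ => ?_
    have h1 : (X ^ 2 - C (σ a) : Polynomial Ω) ≠ 0 := (monic_X_pow_sub_C (σ a) two_ne_zero).ne_zero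
    rw [Multiset.mem_toFinset, mem_roots h1, IsRoot.def, eval_sub, eval_pow, eval_X, eval_C,
      sub_eq_zero]
  let κ : ((L →ₐ[k] Ω) → Ω) → Ω := fun b => ∑ σ, b σ
  have hκ : Set.InjOn κ (S : Set ((L →ₐ[k] Ω) → Ω)) := by
    intro b hb b' hb' h
    exact hinj b b' ((hS b).1 hb) ((hS b').1 hb') h
  let W : Finset Ω := S.image κ
  have hact : ∀ (g : Ω ≃ₐ[k] Ω), ∀ b ∈ S, act g b ∈ S := fun g b hb =>
    (hS _).2 fun σ => act_sq g ((hS b).1 hb) σ
  have hWg : ∀ (g : Ω ≃ₐ[k] Ω), ∀ w ∈ W, g w ∈ W := by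
    intro g w hw
    obtain ⟨b, hb, rfl⟩ := Finset.mem_image.1 hw
    exact Finset.mem_image.2 ⟨act g b, hact g b hb, act_sum g b⟩
  have hprod : ∏ b ∈ S, (X - C (∑ σ, b σ) : Polynomial Ω) = ∏ w ∈ W, (X - C w) := by
    rw [Finset.prod_image fun b hb b' hb' h => hκ hb hb' h]
  obtain ⟨P, hP⟩ := HAaux.descend (k := k) (∏ w ∈ W, (X - C w)) (by
    intro σ
    rw [Polynomial.map_prod]
    simp only [Polynomial.map_sub, map_X, map_C]
    refine Finset.prod_bij (fun w _ => σ w) (fun w hw => hWg σ w hw) ?_ ?_ ?_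
    · intro a _ b _ h
      exact σ.injective h
    · intro b hb
      exact ⟨σ.symm b, hWg σ.symm b hb, by simp⟩
    · intro w _
      rfl)
  -- the embedding
  have hfin : Algebra.IsAlgebraic k L := Algebra.IsAlgebraic.of_finite k L
  let σ₀ : L →ₐ[k] Ω := IsAlgClosed.lift
  letI : Algebra L Ω := σ₀.toRingHom.toAlgebra
  have htow : IsScalarTower k L Ω := IsScalarTower.of_algebraMap_eq fun x => (σ₀.commutes x).symm
  have halgL : Algebra.IsAlgebraic L Ω := Algebra.IsAlgebraic.tower_top (K := k) L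
  have hclL : IsAlgClosure L Ω := ⟨hac, halgL⟩
  have hsepL : Algebra.IsSeparable L Ω := inferInstance
  have hnorL : Normal L Ω := IsAlgClosure.normal L Ω
  have hgalL : IsGalois L Ω := ⟨⟩
  have hmap : ∀ x : L, algebraMap L Ω x = σ₀ x := fun x => rfl
  -- the values
  have hch : ∀ w : Ω, ∃ b : (L →ₐ[k] Ω) → Ω, w ∈ W → b ∈ S ∧ κ b = w := by
    intro w
    by_cases hw : w ∈ W
    · obtain ⟨b, hb, h⟩ := Finset.mem_image.1 hw
      exact ⟨b, fun _ => ⟨hb, h⟩⟩
    · exact ⟨0, fun h => absurd h hw⟩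
  choose s hs using hch
  obtain ⟨B, hB⟩ := HAaux.interp (k := L) W
    (fun τ w hw => hWg (τ.restrictScalars k) w hw) (fun w => s w σ₀) (by
      intro τ w hw
      have h1 := hs w hw
      have h2 := hs _ (hWg (τ.restrictScalars k) w hw)
      have h3 : s (τ w) = act (τ.restrictScalars k) (s w) := by
        apply hκ h2.1 (hact _ _ h1.1)
        have h4 : κ (act (τ.restrictScalars k) (s w)) = (τ.restrictScalars k) (κ (s w)) :=
          act_sum _ _
        rw [h4, h1.2]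
        exact h2.2
      have h5 : ((τ.restrictScalars k).symm : Ω →ₐ[k] Ω).comp σ₀ = σ₀ := by
        ext x
        have h6 : τ.symm (algebraMap L Ω x) = algebraMap L Ω x := τ.symm.commutes x
        exact h6
      change s (τ w) σ₀ = τ (s w σ₀)
      rw [h3, act, h5]
      rfl)
  refine ⟨P, B, S, hS, ?_, by rw [hP, hprod], ?_⟩
  · have h1 : (P.map (algebraMap k Ω)).Monic := by
      rw [hP]
      exact monic_prod_X_sub_C _ _
    exact (monic_map_iff).1 h1
  · rw [← map_dvd_map' (algebraMap L Ω), Polynomial.map_map, ← IsScalarTower.algebraMap_eq, hP]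
    apply Finset.prod_dvd_of_coprime
    · intro a _ b _ hab
      exact pairwise_coprime_X_sub_C Function.injective_id hab
    · intro w hw
      rw [dvd_iff_isRoot, IsRoot.def, eval_map, eval₂_sub, eval₂_pow, hB w hw, eval₂_C,
        (hS _).1 (hs w hw).1 σ₀, hmap, sub_self]

end Pool.Agent.PFI
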